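import Pool.Agent.Lib.MP_65ca9f_nt.Logs

/-!
# From boxes to all tuples
-/

set_option autoImplicit false

namespace Pool.Agent.Lib.MP_65ca9f_nt

open Finset

/-- the conditions on a tuple, without a box -/
def Rep {k : ℕ} (X : ℝ) (z : Tp k) : Prop :=
  (∀ l, 0 < z.1 l) ∧ (∀ l, 0 < z.2.1 l) ∧ (∀ l, 0 < z.2.2 l) ∧
    (∀ l, Nat.Coprime (z.2.1 l) (z.2.2 l)) ∧ W z.2.2 < W z.2.1 ∧
    (W z.1 : ℝ) * ((W z.2.1 : ℝ) - W z.2.2) ≤ X

/-- the exponents of the box of `g` -/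
def lg {k : ℕ} (g : Fin k → ℕ) : Fin k → ℕ := fun l => Nat.log 2 (g l)

theorem InB_lg {k : ℕ} {g : Fin k → ℕ} (hg : ∀ l, 0 < g l) : InB (lg g) g := by
  intro l
  refine ⟨Nat.pow_log_le_self 2 (hg l).ne', ?_⟩
  have := Nat.lt_pow_succ_log_self (b := 2) (by norm_num) (g l)
  rw [pow_succ'] at this
  exact this

theorem Rep.ok {k : ℕ} {X : ℝ} {z : Tp k} (h : Rep X z) :
    Ok (lg z.1) (lg z.2.1) (lg z.2.2) X z :=
  ⟨InB_lg h.1, InB_lg h.2.1, InB_lg h.2.2.1, h.2.2.2.1, h.2.2.2.2.1, h.2.2.2.2.2⟩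

/-- a uniform bound for the boxes gives a bound for all tuples -/
theorem assemble {k : ℕ} (S : Finset (Tp k)) (M : ℕ) {B : ℝ} (hB : 0 ≤ B)
    (hM : ∀ z ∈ S, ∀ l, lg z.1 l ≤ M ∧ lg z.2.1 l ≤ M ∧ lg z.2.2 l ≤ M)
    (hS : ∀ z ∈ S, ∀ T : Finset (Tp k), T ⊆ S → (∀ y ∈ T, lg y.1 = lg z.1 ∧ lg y.2.1 = lg z.2.1 ∧
      lg y.2.2 = lg z.2.2) → (T.card : ℝ) ≤ B) :
    (S.card : ℝ) ≤ ((M : ℝ) + 1) ^ (3 * k) * B := by
  classical
  set f : Tp k → Tp k := fun z => (lg z.1, lg z.2.1, lg z.2.2) with hf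
  have h1 : ∀ y ∈ S.image f, (S.filter fun x => f x = y).card ≤ ⌊B⌋₊ := by
    intro y hy
    obtain ⟨z, hz, rfl⟩ := mem_image.1 hy
    refine Nat.le_floor (hS z hz _ (filter_subset _ _) fun y hy => ?_)
    have h2 := (mem_filter.1 hy).2
    simp only [hf, Prod.mk.injEq] at h2
    exact h2
  have h2 := card_le_mul_card_image (f := f) S ⌊B⌋₊ h1
  have h3 : S.image f ⊆ (Fintype.piFinset fun _ : Fin k => range (M + 1)) ×ˢ
      ((Fintype.piFinset fun _ : Fin k => range (M + 1)) ×ˢ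
        (Fintype.piFinset fun _ : Fin k => range (M + 1))) := by
    intro y hy
    obtain ⟨z, hz, rfl⟩ := mem_image.1 hy
    rw [mem_product, mem_product, Fintype.mem_piFinset, Fintype.mem_piFinset, Fintype.mem_piFinset]
    refine ⟨fun l => ?_, fun l => ?_, fun l => ?_⟩
    · exact mem_range.2 (Nat.lt_succ_of_le (hM z hz l).1)
    · exact mem_range.2 (Nat.lt_succ_of_le (hM z hz l).2.1)
    · exact mem_range.2 (Nat.lt_succ_of_le (hM z hz l).2.2)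
  have h4 := card_le_card h3
  rw [card_product, card_product, Fintype.card_piFinset_const, card_range] at h4
  have h5 : ((S.image f).card : ℝ) ≤ ((M : ℝ) + 1) ^ (3 * k) := by
    have h6 : ((S.image f).card : ℝ) ≤ (((M + 1) ^ k * ((M + 1) ^ k * (M + 1) ^ k) : ℕ) : ℝ) := by
      exact_mod_cast h4
    refine h6.trans (le_of_eq ?_)
    push_cast
    ring
  have h6 : (S.card : ℝ) ≤ (⌊B⌋₊ : ℝ) * ((S.image f).card : ℝ) := by exact_mod_cast h2
  calc (S.card : ℝ) ≤ (⌊B⌋₊ : ℝ) * ((S.image f).card : ℝ) := h6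
    _ ≤ B * ((S.image f).card : ℝ) :=
        mul_le_mul_of_nonneg_right (Nat.floor_le hB) (Nat.cast_nonneg _)
    _ ≤ B * ((M : ℝ) + 1) ^ (3 * k) := mul_le_mul_of_nonneg_left h5 hB
    _ = _ := by ring

/-- the final form of the bound for a box: it is enough to bound one of the first terms -/
theorem box_final {k : ℕ} (hk : 3 ≤ k) {γ α β : Fin k → ℕ} {x E : ℝ}
    (S : Finset (Tp k)) (hS : ∀ z ∈ S, Ok γ α β ((2 : ℝ) ^ x) z)
    (hE : S.Nonempty → ∃ i : Fin k, sg γ + (sg α + sg β - (α i + β i)) ≤ E)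
    (hE2 : 2 / k * x + (2 * k + ss k / k) ≤ E) :
    (S.card : ℝ) ≤ 2 * (2 : ℝ) ^ E := by
  have h0 : (0 : ℝ) < 2 := by norm_num
  have hEp : (0 : ℝ) < (2 : ℝ) ^ E := by positivity
  rcases S.eq_empty_or_nonempty with h | h
  · rw [h]
    simp only [card_empty, Nat.cast_zero]
    positivity
  obtain ⟨z, hz⟩ := h
  obtain ⟨c1, c2, -⟩ := constr (hS z hz)
  rcases le_total (wg α) (x - wg γ) with h1 | h1
  · have h2 := triv_log hk c1 h1
    have h3 := box_triv γ α β S hS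
    have h4 : (2 : ℝ) ^ (sg γ + (sg α + sg β)) ≤ (2 : ℝ) ^ E :=
      Real.rpow_le_rpow_of_exponent_le (by norm_num) (h2.trans hE2)
    linarith
  · obtain ⟨i, hi⟩ := hE ⟨z, hz⟩
    have h2 := second hk c1 c2 h1
    have h3 := box_log i γ α β S hS
    have h4 : (2 : ℝ) ^ (sg γ + (sg α + sg β - (α i + β i))) ≤ (2 : ℝ) ^ E :=
      Real.rpow_le_rpow_of_exponent_le (by norm_num) hi
    have h5 : (2 : ℝ) ^ (sg γ + (sg α + sg β) + 2 * k + x - wg γ - wg α) ≤ (2 : ℝ) ^ E :=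
      Real.rpow_le_rpow_of_exponent_le (by norm_num) (h2.trans hE2)
    linarith

theorem le_wg {k : ℕ} (hk : 0 < k) (γ : Fin k → ℕ) (l : Fin k) : (γ l : ℝ) ≤ wg γ := by
  have h1 : ((k : ℝ) + (l : ℕ)) * γ l ≤ wg γ :=
    single_le_sum (f := fun l : Fin k => ((k : ℝ) + (l : ℕ)) * γ l)
      (fun _ _ => mul_nonneg (by positivity) (Nat.cast_nonneg _)) (mem_univ l)
  have h2 : (1 : ℝ) ≤ k := by exact_mod_cast hk
  have h3 : (0 : ℝ) ≤ ((l : ℕ) : ℝ) := Nat.cast_nonneg _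
  have h4 : (0 : ℝ) ≤ γ l := Nat.cast_nonneg _
  nlinarith [mul_nonneg (by linarith : (0 : ℝ) ≤ (k : ℝ) + (l : ℕ) - 1) h4]

end Pool.Agent.Lib.MP_65ca9f_nt
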