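import Mathlib

/-!
# `k`-powerful numbers as products of powers
-/

set_option autoImplicit false

namespace Pool.Agent.Lib.MP_65ca9f_nt

open Finset

/-- `k`-powerful -/
def Pw (k n : ℕ) : Prop := 0 < n ∧ ∀ p : ℕ, p.Prime → p ∣ n → p ^ k ∣ n

/-- the product of the `f l ^ (k + l)` -/
def W {k : ℕ} (f : Fin k → ℕ) : ℕ := ∏ l : Fin k, f l ^ (k + (l : ℕ))

/-- the product of the entries -/
def pr {k : ℕ} (f : Fin k → ℕ) : ℕ := ∏ l : Fin k, f l

theorem W_mul {k : ℕ} (f g : Fin k → ℕ) : W (fun l => f l * g l) = W f * W g := by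
  simp only [W, mul_pow, prod_mul_distrib]

theorem W_pos {k : ℕ} {f : Fin k → ℕ} (hf : ∀ l, 0 < f l) : 0 < W f :=
  prod_pos fun l _ => pow_pos (hf l) _

theorem pr_pos {k : ℕ} {f : Fin k → ℕ} (hf : ∀ l, 0 < f l) : 0 < pr f :=
  prod_pos fun l _ => hf l

private theorem rep_prime_pow {k p e : ℕ} (hk : 0 < k) (hp : 0 < p) (he : k ≤ e) :
    ∃ a : Fin k → ℕ, (∀ l, 0 < a l) ∧ p ^ e = W a := by
  classical
  have hr : e % k < k := Nat.mod_lt _ hk
  refine ⟨fun l => (if l = (⟨0, hk⟩ : Fin k) then p ^ (e / k - 1) else 1) *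
    (if l = (⟨e % k, hr⟩ : Fin k) then p else 1), fun l => ?_, ?_⟩
  · refine Nat.mul_pos ?_ ?_
    · split_ifs
      · exact pow_pos hp _
      · exact Nat.one_pos
    · split_ifs
      · exact hp
      · exact Nat.one_pos
  · rw [W_mul]
    have h1 : W (fun l : Fin k => if l = (⟨0, hk⟩ : Fin k) then p ^ (e / k - 1) else 1) =
        p ^ ((e / k - 1) * k) := by
      unfold W
      rw [prod_eq_single (⟨0, hk⟩ : Fin k)]
      · simp only [if_true, Nat.add_zero]
        rw [← pow_mul]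
      · intro b _ hb
        simp only [if_neg hb, one_pow]
      · intro h
        exact absurd (mem_univ _) h
    have h2 : W (fun l : Fin k => if l = (⟨e % k, hr⟩ : Fin k) then p else 1) =
        p ^ (k + e % k) := by
      unfold W
      rw [prod_eq_single (⟨e % k, hr⟩ : Fin k)]
      · simp only [if_true]
      · intro b _ hb
        simp only [if_neg hb, one_pow]
      · intro h
        exact absurd (mem_univ _) h
    rw [h1, h2, ← pow_add]
    congr 1
    have h3 : 1 ≤ e / k := (Nat.one_le_div_iff hk).2 he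
    have h4 := Nat.div_add_mod e k
    obtain ⟨q, hq⟩ : ∃ q, e / k = q + 1 := ⟨e / k - 1, by omega⟩
    rw [hq] at h4 ⊢
    simp only [Nat.add_sub_cancel]
    have h5 : k * (q + 1) = q * k + k := by ring
    omega

/-- every `k`-powerful number is a product of powers with exponents `k, …, 2k-1` -/
theorem exists_rep {k n : ℕ} (hk : 0 < k) (hn : Pw k n) :
    ∃ a : Fin k → ℕ, (∀ l, 0 < a l) ∧ n = W a := by
  classical
  obtain ⟨hn0, hn1⟩ := hn
  have h1 : n = ∏ p ∈ n.primeFactors, p ^ n.factorization p := by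
    conv_lhs => rw [← Nat.prod_factorization_pow_eq_self hn0.ne']
    rfl
  have h2 := Finset.prod_induction (s := n.primeFactors) (fun p => p ^ n.factorization p)
    (fun m => ∃ a : Fin k → ℕ, (∀ l, 0 < a l) ∧ m = W a) ?_ ?_ ?_
  · rw [← h1] at h2
    exact h2
  · rintro x y ⟨a, ha, rfl⟩ ⟨b, hb, rfl⟩
    exact ⟨fun l => a l * b l, fun l => Nat.mul_pos (ha l) (hb l), (W_mul a b).symm⟩
  · exact ⟨fun _ => 1, fun _ => Nat.one_pos, by simp [W]⟩
  · intro p hp
    have hpp := Nat.prime_of_mem_primeFactors hp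
    have hpd := Nat.dvd_of_mem_primeFactors hp
    refine rep_prime_pow hk hpp.pos ?_
    exact (hpp.pow_dvd_iff_le_factorization hn0.ne').1 (hn1 p hpp hpd)

/-- the radical of `W a` is at most the product of the entries -/
theorem rad_W_le {k : ℕ} {a : Fin k → ℕ} (ha : ∀ l, 0 < a l) :
    ∏ p ∈ (W a).primeFactors, p ≤ pr a := by
  have h1 : (W a).primeFactors ⊆ (pr a).primeFactors := by
    intro p hp
    have hpp := Nat.prime_of_mem_primeFactors hp
    have hpd := Nat.dvd_of_mem_primeFactors hp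
    rw [Nat.mem_primeFactors]
    refine ⟨hpp, ?_, (pr_pos ha).ne'⟩
    unfold W at hpd
    obtain ⟨l, hl, hd⟩ := (hpp.prime.dvd_finsetProd_iff _).1 hpd
    exact (hpp.dvd_of_dvd_pow hd).trans (dvd_prod_of_mem _ hl)
  calc ∏ p ∈ (W a).primeFactors, p ≤ ∏ p ∈ (pr a).primeFactors, p :=
        prod_le_prod_of_subset_of_one_le' h1 fun p hp _ => (Nat.prime_of_mem_primeFactors hp).one_le
    _ ≤ pr a := Nat.le_of_dvd (pr_pos ha) (Nat.prod_primeFactors_dvd _)

/-- the radical of a divisor -/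
theorem rad_mono {m n : ℕ} (h : m ∣ n) (hn : n ≠ 0) :
    ∏ p ∈ m.primeFactors, p ≤ ∏ p ∈ n.primeFactors, p :=
  prod_le_prod_of_subset_of_one_le' (Nat.primeFactors_mono h hn)
    fun p hp _ => (Nat.prime_of_mem_primeFactors hp).one_le

theorem rad_le {m : ℕ} (hm : 0 < m) : ∏ p ∈ m.primeFactors, p ≤ m :=
  Nat.le_of_dvd hm (Nat.prod_primeFactors_dvd _)

theorem rad_mul_le (m n : ℕ) (hm : m ≠ 0) (hn : n ≠ 0) :
    ∏ p ∈ (m * n).primeFactors, p ≤ (∏ p ∈ m.primeFactors, p) * ∏ p ∈ n.primeFactors, p := by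
  rw [Nat.primeFactors_mul hm hn, ← prod_union_inter]
  have h1 : 1 ≤ ∏ p ∈ m.primeFactors ∩ n.primeFactors, p :=
    Finset.one_le_prod' fun p hp =>
      (Nat.prime_of_mem_primeFactors (mem_inter.1 hp).1).one_le
  exact Nat.le_mul_of_pos_right _ h1

end Pool.Agent.Lib.MP_65ca9f_nt
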