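import Pool.Agent.Lib.MP_65ca9f_nt.Line
import Pool.Agent.Lib.MP_65ca9f_nt.Decomp

/-!
# Counting tuples in a dyadic box
-/

set_option autoImplicit false

namespace Pool.Agent.Lib.MP_65ca9f_nt

open Finset

/-- the dyadic box with the exponents `γ` -/
def InB {k : ℕ} (γ g : Fin k → ℕ) : Prop := ∀ l, 2 ^ γ l ≤ g l ∧ g l < 2 * 2 ^ γ l

/-- the powers of two -/
def tw {k : ℕ} (γ : Fin k → ℕ) : Fin k → ℕ := fun l => 2 ^ γ l

/-- tuples of a representation -/
abbrev Tp (k : ℕ) : Type := (Fin k → ℕ) × (Fin k → ℕ) × (Fin k → ℕ)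

/-- the conditions on the tuples -/
def Ok {k : ℕ} (γ α β : Fin k → ℕ) (X : ℝ) (x : Tp k) : Prop :=
  InB γ x.1 ∧ InB α x.2.1 ∧ InB β x.2.2 ∧ (∀ l, Nat.Coprime (x.2.1 l) (x.2.2 l)) ∧
    W x.2.2 < W x.2.1 ∧ (W x.1 : ℝ) * ((W x.2.1 : ℝ) - W x.2.2) ≤ X

theorem W_mono {k : ℕ} {f g : Fin k → ℕ} (h : ∀ l, f l ≤ g l) : W f ≤ W g :=
  prod_le_prod' fun l _ => Nat.pow_le_pow_left (h l) _

theorem tw_pos {k : ℕ} (γ : Fin k → ℕ) (l : Fin k) : 0 < tw γ l := pow_pos (by norm_num) _

private theorem W_erase {k : ℕ} (i : Fin k) (f : Fin k → ℕ) :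
    W f = (∏ l ∈ univ.erase i, f l ^ (k + (l : ℕ))) * f i ^ (k + (i : ℕ)) := by
  unfold W
  rw [← prod_erase_mul _ _ (mem_univ i)]

private theorem card_box {k : ℕ} (i : Fin k) (α : Fin k → ℕ) :
    (Fintype.piFinset fun l : Fin k => if l = i then ({0} : Finset ℕ)
      else Ico (2 ^ α l) (2 * 2 ^ α l)).card = ∏ l ∈ univ.erase i, 2 ^ α l := by
  rw [Fintype.card_piFinset, ← prod_erase_mul _ _ (mem_univ i)]
  simp only [if_true, card_singleton, mul_one]
  refine prod_congr rfl fun l hl => ?_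
  rw [if_neg (ne_of_mem_erase hl), Nat.card_Ico]
  omega

private theorem card_box' {k : ℕ} (α : Fin k → ℕ) :
    (Fintype.piFinset fun l : Fin k => Ico (2 ^ α l) (2 * 2 ^ α l)).card = ∏ l, 2 ^ α l := by
  rw [Fintype.card_piFinset]
  refine prod_congr rfl fun l _ => ?_
  rw [Nat.card_Ico]
  omega

/-- the number of tuples in a box, one pair of coordinates being free -/
theorem box_count {k : ℕ} (i : Fin k) (γ α β : Fin k → ℕ) {X : ℝ} (hX : 0 ≤ X)
    (S : Finset (Tp k)) (hS : ∀ x ∈ S, Ok γ α β X x) :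
    (S.card : ℝ) ≤ (pr (tw γ) : ℝ) * ((∏ l ∈ univ.erase i, (2 : ℝ) ^ α l) *
      (∏ l ∈ univ.erase i, (2 : ℝ) ^ β l)) *
      (1 + 2 ^ (k + (i : ℕ) + 1) * (X / W (tw γ)) * ((2 : ℝ) ^ α i * 2 ^ β i) / W (tw α)) := by
  classical
  set R : ℝ := 1 + 2 ^ (k + (i : ℕ) + 1) * (X / W (tw γ)) * ((2 : ℝ) ^ α i * 2 ^ β i) / W (tw α)
    with hR
  have hR0 : 0 ≤ R := by
    have h1 : 0 ≤ X / W (tw γ) := div_nonneg hX (Nat.cast_nonneg _)
    have h2 : 0 ≤ 2 ^ (k + (i : ℕ) + 1) * (X / W (tw γ)) * ((2 : ℝ) ^ α i * 2 ^ β i) / W (tw α) :=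
      div_nonneg (mul_nonneg (mul_nonneg (by positivity) h1) (by positivity)) (Nat.cast_nonneg _)
    linarith
  set f : Tp k → Tp k := fun x => (x.1, Function.update x.2.1 i 0, Function.update x.2.2 i 0) with hf
  have hfib : ∀ y ∈ S.image f, (S.filter fun x => f x = y).card ≤ ⌊R⌋₊ := by
    intro y hy
    obtain ⟨x₀, hx₀, rfl⟩ := mem_image.1 hy
    refine Nat.le_floor ?_
    set T := S.filter fun x => f x = f x₀ with hT
    have hinj : Set.InjOn (fun x : Tp k => (x.2.1 i, x.2.2 i)) (T : Set (Tp k)) := by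
      intro x hx z hz hxz
      have hx1 : f x = f x₀ := (mem_filter.1 hx).2
      have hz1 : f z = f x₀ := (mem_filter.1 hz).2
      have h1 : f x = f z := hx1.trans hz1.symm
      simp only [hf, Prod.mk.injEq] at h1 hxz
      refine Prod.ext h1.1 (Prod.ext ?_ ?_)
      · funext l
        by_cases hl : l = i
        · rw [hl]; exact hxz.1
        · have := congrFun h1.2.1 l
          rwa [Function.update_of_ne hl, Function.update_of_ne hl] at this
      · funext l
        by_cases hl : l = i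
        · rw [hl]; exact hxz.2
        · have := congrFun h1.2.2 l
          rwa [Function.update_of_ne hl, Function.update_of_ne hl] at this
    rw [← card_image_of_injOn hinj]
    obtain ⟨h01, h02, h03, h04, h05, h06⟩ := hS x₀ hx₀
    set U : ℕ := ∏ l ∈ univ.erase i, x₀.2.1 l ^ (k + (l : ℕ)) with hU
    set V : ℕ := ∏ l ∈ univ.erase i, x₀.2.2 l ^ (k + (l : ℕ)) with hV
    have hUpos : 0 < U := prod_pos fun l _ =>
      pow_pos (lt_of_lt_of_le (pow_pos (by norm_num) _) (h02 l).1) _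
    have hlc := line_count (w := k + (i : ℕ)) (U := U) (V := V) (A := 2 ^ α i) (B := 2 ^ β i)
      (by have := i.2; omega) hUpos (pow_pos (by norm_num) _) (pow_pos (by norm_num) _)
      (Y := X / W (tw γ)) (div_nonneg hX (Nat.cast_nonneg _))
      (T.image fun x : Tp k => (x.2.1 i, x.2.2 i)) ?_
    · refine hlc.trans ?_
      rw [hR]
      have h1 : (W (tw α) : ℝ) ≤ (U : ℝ) * ((2 ^ α i : ℕ) : ℝ) ^ (k + (i : ℕ)) := by
        have h2 : W (tw α) ≤ U * (2 ^ α i) ^ (k + (i : ℕ)) := by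
          rw [W_erase i (tw α)]
          refine Nat.mul_le_mul ?_ le_rfl
          exact prod_le_prod' fun l _ => Nat.pow_le_pow_left (h02 l).1 _
        exact_mod_cast h2
      have h3 : (0 : ℝ) < W (tw α) := by exact_mod_cast W_pos (tw_pos α)
      have h4 : 0 ≤ X / W (tw γ) := div_nonneg hX (Nat.cast_nonneg _)
      have h5 : (0 : ℝ) ≤ 2 ^ (k + (i : ℕ) + 1) * (X / W (tw γ)) *
          (((2 ^ α i : ℕ) : ℝ) * ((2 ^ β i : ℕ) : ℝ)) := by positivity
      have h6 := div_le_div_of_nonneg_left h5 h3 h1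
      push_cast at h6 ⊢
      linarith
    · intro z hz
      obtain ⟨x, hx, rfl⟩ := mem_image.1 hz
      have hxS : x ∈ S := (mem_filter.1 hx).1
      have hx1 : f x = f x₀ := (mem_filter.1 hx).2
      obtain ⟨h1, h2, h3, h4, h5, h6⟩ := hS x hxS
      simp only [hf, Prod.mk.injEq] at hx1
      have ha : ∀ l ∈ univ.erase i, x.2.1 l = x₀.2.1 l := by
        intro l hl
        have := congrFun hx1.2.1 l
        rwa [Function.update_of_ne (ne_of_mem_erase hl), Function.update_of_ne (ne_of_mem_erase hl)]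
          at this
      have hb : ∀ l ∈ univ.erase i, x.2.2 l = x₀.2.2 l := by
        intro l hl
        have := congrFun hx1.2.2 l
        rwa [Function.update_of_ne (ne_of_mem_erase hl), Function.update_of_ne (ne_of_mem_erase hl)]
          at this
      have hWa : W x.2.1 = U * x.2.1 i ^ (k + (i : ℕ)) := by
        rw [W_erase i, hU]
        congr 1
        exact prod_congr rfl fun l hl => by rw [ha l hl]
      have hWb : W x.2.2 = V * x.2.2 i ^ (k + (i : ℕ)) := by
        rw [W_erase i, hV]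
        congr 1
        exact prod_congr rfl fun l hl => by rw [hb l hl]
      refine ⟨(h2 i).1, (h2 i).2, (h3 i).1, (h3 i).2, h4 i, ?_, ?_⟩
      · simp only
        rw [← hWa, ← hWb]
        exact h5
      · simp only
        rw [← hWa, ← hWb]
        have hg : (0 : ℝ) < W (tw γ) := by exact_mod_cast W_pos (tw_pos γ)
        rw [le_div_iff₀ hg]
        have hg2 : (W (tw γ) : ℝ) ≤ W x.1 := by exact_mod_cast W_mono fun l => (h1 l).1
        have hpos : (0 : ℝ) ≤ (W x.2.1 : ℝ) - W x.2.2 := by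
          have : (W x.2.2 : ℝ) ≤ W x.2.1 := by exact_mod_cast h5.le
          linarith
        nlinarith [mul_le_mul_of_nonneg_right hg2 hpos]
  have h1 := card_le_mul_card_image (f := f) S ⌊R⌋₊ hfib
  have h2 : S.image f ⊆ (Fintype.piFinset fun l : Fin k => Ico (2 ^ γ l) (2 * 2 ^ γ l)) ×ˢ
      ((Fintype.piFinset fun l : Fin k => if l = i then ({0} : Finset ℕ)
        else Ico (2 ^ α l) (2 * 2 ^ α l)) ×ˢ
      (Fintype.piFinset fun l : Fin k => if l = i then ({0} : Finset ℕ)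
        else Ico (2 ^ β l) (2 * 2 ^ β l))) := by
    intro y hy
    obtain ⟨x, hx, rfl⟩ := mem_image.1 hy
    obtain ⟨h1, h2, h3, -, -, -⟩ := hS x hx
    rw [mem_product, mem_product, Fintype.mem_piFinset, Fintype.mem_piFinset, Fintype.mem_piFinset]
    refine ⟨fun l => mem_Ico.2 (h1 l), fun l => ?_, fun l => ?_⟩
    · by_cases hl : l = i
      · rw [if_pos hl, mem_singleton, hl]
        exact Function.update_self _ _ _
      · rw [if_neg hl]
        simp only [hf]
        rw [Function.update_of_ne hl]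
        exact mem_Ico.2 (h2 l)
    · by_cases hl : l = i
      · rw [if_pos hl, mem_singleton, hl]
        exact Function.update_self _ _ _
      · rw [if_neg hl]
        simp only [hf]
        rw [Function.update_of_ne hl]
        exact mem_Ico.2 (h3 l)
  have h3 := card_le_card h2
  rw [card_product, card_product, card_box', card_box, card_box] at h3
  have h4 : (S.card : ℝ) ≤ (⌊R⌋₊ : ℝ) * ((S.image f).card : ℝ) := by exact_mod_cast h1
  have h5 : ((S.image f).card : ℝ) ≤ (pr (tw γ) : ℝ) * ((∏ l ∈ univ.erase i, (2 : ℝ) ^ α l) *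
      (∏ l ∈ univ.erase i, (2 : ℝ) ^ β l)) := by
    have h6 : ((S.image f).card : ℝ) ≤ (((∏ l, 2 ^ γ l) * ((∏ l ∈ univ.erase i, 2 ^ α l) *
      (∏ l ∈ univ.erase i, 2 ^ β l)) : ℕ) : ℝ) := by exact_mod_cast h3
    push_cast at h6
    unfold pr tw
    push_cast
    exact h6
  calc (S.card : ℝ) ≤ (⌊R⌋₊ : ℝ) * ((S.image f).card : ℝ) := h4
    _ ≤ R * ((S.image f).card : ℝ) :=
        mul_le_mul_of_nonneg_right (Nat.floor_le hR0) (Nat.cast_nonneg _)
    _ ≤ R * ((pr (tw γ) : ℝ) * ((∏ l ∈ univ.erase i, (2 : ℝ) ^ α l) *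
      (∏ l ∈ univ.erase i, (2 : ℝ) ^ β l))) := mul_le_mul_of_nonneg_left h5 hR0
    _ = _ := by ring

end Pool.Agent.Lib.MP_65ca9f_nt
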