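import Pool.Agent.Lib.MP_65ca9f_nt.Weights

/-!
# Tuples of bounded height
-/

set_option autoImplicit false

namespace Pool.Agent.Lib.MP_65ca9f_nt

open Finset

/-- the bound for one of the first terms -/
theorem first_height {k : ℕ} (hk : 3 ≤ k) {t : ℝ} (ht : 0 ≤ t)
    (h : ∀ m : ℕ, 1 ≤ m → m ≤ k → (m : ℝ) - 1 ≤ t * (m * (2 * k + m - 1) / 2))
    {γ α β : Fin k → ℕ} {H : ℝ} (h1 : wg β ≤ wg α + ss k) (h2 : wg γ + wg α ≤ H) :
    ∃ i : Fin k, sg γ + (sg α + sg β - (α i + β i)) ≤ 2 * t * H + t * ss k := by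
  have hK : (3 : ℝ) ≤ k := by exact_mod_cast hk
  obtain ⟨i, hi⟩ := first_avg hk (c := (k : ℝ)) ht h γ α β
  refine ⟨i, hi.trans ?_⟩
  rw [sub_self, zero_mul, sub_zero]
  have e4 : t * (wg α + wg β) ≤ t * (2 * (H - wg γ) + ss k) :=
    mul_le_mul_of_nonneg_left (by linarith) ht
  have e5 : 1 ≤ 2 * t * k := by
    have := h 3 (by norm_num) hk
    push_cast at this
    nlinarith
  have e6 : sg γ ≤ 2 * t * wg γ := by
    have g1 := k_sg_le γ
    have g2 := sg_nonneg γ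
    nlinarith [mul_le_mul_of_nonneg_left g1 ht]
  nlinarith

/-- the number of tuples of bounded height -/
theorem height_count {k : ℕ} (hk : 3 ≤ k) {t C : ℝ} (ht : 0 ≤ t)
    (h : ∀ m : ℕ, 1 ≤ m → m ≤ k → (m : ℝ) - 1 ≤ t * (m * (2 * k + m - 1) / 2)) (hC : 0 ≤ C)
    {x : ℝ} (hx : 0 ≤ x) (S : Finset (Tp k)) (hS : ∀ z ∈ S, Rep ((2 : ℝ) ^ x) z ∧
      (W z.1 : ℝ) * W z.2.1 ≤ (2 : ℝ) ^ (C * x)) :
    (S.card : ℝ) ≤ (C * x + (ss k + 1)) ^ (3 * k) *
      (2 * (2 : ℝ) ^ (max (2 / (k : ℝ)) (2 * t * C) * x + (2 * k + ss k / k + t * ss k))) := by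
  have h0 : (0 : ℝ) < 2 := by norm_num
  have hs := ss_nonneg k
  have hK : (3 : ℝ) ≤ k := by exact_mod_cast hk
  have hK0 : (0 : ℝ) < k := by linarith
  have cons : ∀ z ∈ S, wg (lg z.2.2) ≤ wg (lg z.2.1) + ss k ∧
      wg (lg z.1) + wg (lg z.2.1) ≤ C * x := by
    intro z hz
    obtain ⟨hR, hQ⟩ := hS z hz
    have hok := hR.ok
    obtain ⟨c1, c2, c3⟩ := constr hok
    refine ⟨c1, ?_⟩
    have q1 := le_W hok.1
    have q2 := le_W hok.2.1
    have q3 : (2 : ℝ) ^ (wg (lg z.1) + wg (lg z.2.1)) ≤ (2 : ℝ) ^ (C * x) := by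
      rw [Real.rpow_add h0]
      exact (mul_le_mul q1 q2 (by positivity) (Nat.cast_nonneg _)).trans hQ
    exact (Real.rpow_le_rpow_left_iff (by norm_num : (1 : ℝ) < 2)).1 q3
  set Mr : ℝ := C * x + ss k with hMr
  have hMr0 : 0 ≤ Mr := by positivity
  have main := assemble S ⌊Mr⌋₊ (B := 2 * (2 : ℝ) ^ (max (2 / (k : ℝ)) (2 * t * C) * x +
    (2 * k + ss k / k + t * ss k))) (by positivity) ?_ ?_
  · refine main.trans (mul_le_mul_of_nonneg_right ?_ (by positivity))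
    refine pow_le_pow_left₀ (by positivity) ?_ _
    have := Nat.floor_le hMr0
    rw [hMr] at this ⊢
    linarith
  · intro z hz l
    obtain ⟨c1, c2⟩ := cons z hz
    have hkp : 0 < k := by omega
    have p1 := wg_nonneg (lg z.1)
    have p2 := wg_nonneg (lg z.2.1)
    refine ⟨Nat.le_floor ?_, Nat.le_floor ?_, Nat.le_floor ?_⟩
    · have := le_wg hkp (lg z.1) l
      rw [hMr]
      linarith
    · have := le_wg hkp (lg z.2.1) l
      rw [hMr]
      linarith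
    · have := le_wg hkp (lg z.2.2) l
      rw [hMr]
      linarith
  · intro z hz T hT hTz
    have m1 : 2 / (k : ℝ) * x ≤ max (2 / (k : ℝ)) (2 * t * C) * x :=
      mul_le_mul_of_nonneg_right (le_max_left _ _) hx
    have m2 : 2 * t * C * x ≤ max (2 / (k : ℝ)) (2 * t * C) * x :=
      mul_le_mul_of_nonneg_right (le_max_right _ _) hx
    have m3 : 0 ≤ ss k / k := by positivity
    have m4 : 0 ≤ t * ss k := by positivity
    refine box_final (γ := lg z.1) (α := lg z.2.1) (β := lg z.2.2) (x := x) hk T ?_ ?_ ?_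
    · intro y hy
      obtain ⟨t1, t2, t3⟩ := hTz y hy
      have := (hS y (hT hy)).1.ok
      rw [t1, t2, t3] at this
      exact this
    · intro _
      obtain ⟨c1, c2⟩ := cons z hz
      obtain ⟨i, hi⟩ := first_height hk ht h c1 c2
      refine ⟨i, hi.trans ?_⟩
      nlinarith
    · linarith

end Pool.Agent.Lib.MP_65ca9f_nt
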