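import Pool.Agent.Lib.MP_65ca9f_nt.Three
import Pool.Agent.Lib.MP_65ca9f_nt.Asm

/-!
# Tuples with one very large pair of coordinates
-/

set_option autoImplicit false

namespace Pool.Agent.Lib.MP_65ca9f_nt

open Finset

/-- the number represented by a tuple -/
def Nv {k : ℕ} (z : Tp k) : ℕ := W z.1 * (W z.2.1 - W z.2.2)

/-- forgetting the pair of coordinates `i` -/
def off {k : ℕ} (i : Fin k) (z : Tp k) : Tp k :=
  (z.1, Function.update z.2.1 i 0, Function.update z.2.2 i 0)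

/-- the trivial bound for the number of represented numbers -/
theorem n_triv {k : ℕ} {γ : Fin k → ℕ} {x : ℝ} (T : Finset (Tp k))
    (hT : ∀ z ∈ T, lg z.1 = γ ∧ Rep ((2 : ℝ) ^ x) z) (hinj : Set.InjOn Nv (T : Set (Tp k))) :
    (T.card : ℝ) ≤ (2 : ℝ) ^ (sg γ + (x - wg γ)) := by
  classical
  have h2 : (0 : ℝ) < 2 := by norm_num
  have hfib : ∀ g ∈ T.image (fun z : Tp k => z.1), (T.filter fun z => z.1 = g).card ≤
      ⌊(2 : ℝ) ^ (x - wg γ)⌋₊ := by
    intro g hg
    have hsub : ((T.filter fun z => z.1 = g).image fun z : Tp k => W z.2.1 - W z.2.2) ⊆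
        Icc 1 ⌊(2 : ℝ) ^ (x - wg γ)⌋₊ := by
      intro m hm
      obtain ⟨z, hz, rfl⟩ := mem_image.1 hm
      obtain ⟨hzT, -⟩ := mem_filter.1 hz
      obtain ⟨hγ, hR⟩ := hT z hzT
      obtain ⟨-, -, c3⟩ := constr hR.ok
      rw [hγ] at c3
      have hlt : W z.2.2 < W z.2.1 := hR.2.2.2.2.1
      rw [mem_Icc]
      refine ⟨by omega, Nat.le_floor ?_⟩
      rw [Nat.cast_sub hlt.le]
      exact c3
    have hinj2 : Set.InjOn (fun z : Tp k => W z.2.1 - W z.2.2)
        ((T.filter fun z => z.1 = g : Finset (Tp k)) : Set (Tp k)) := by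
      intro z hz y hy hzy
      rw [mem_coe, mem_filter] at hz hy
      refine hinj hz.1 hy.1 ?_
      unfold Nv
      simp only at hzy
      rw [hz.2, hy.2, hzy]
    have := card_le_card hsub
    rw [card_image_of_injOn hinj2, Nat.card_Icc] at this
    simpa using this
  have h1 := card_le_mul_card_image (f := fun z : Tp k => z.1) T _ hfib
  have h3 : T.image (fun z : Tp k => z.1) ⊆
      (Fintype.piFinset fun l : Fin k => Ico (2 ^ γ l) (2 * 2 ^ γ l)) := by
    intro g hg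
    obtain ⟨z, hz, rfl⟩ := mem_image.1 hg
    obtain ⟨hγ, hR⟩ := hT z hz
    rw [Fintype.mem_piFinset]
    intro l
    have := InB_lg hR.1 l
    rw [hγ] at this
    exact mem_Ico.2 this
  have h4 := card_le_card h3
  have h5 : (Fintype.piFinset fun l : Fin k => Ico (2 ^ γ l) (2 * 2 ^ γ l)).card = pr (tw γ) := by
    rw [Fintype.card_piFinset]
    refine prod_congr rfl fun l _ => ?_
    rw [Nat.card_Ico]
    simp only [tw]
    omega
  rw [h5] at h4
  have h6 : (T.card : ℝ) ≤ (⌊(2 : ℝ) ^ (x - wg γ)⌋₊ : ℝ) *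
      ((T.image (fun z : Tp k => z.1)).card : ℝ) := by exact_mod_cast h1
  have h7 : ((T.image (fun z : Tp k => z.1)).card : ℝ) ≤ (2 : ℝ) ^ sg γ := by
    rw [← pr_tw]
    exact_mod_cast h4
  calc (T.card : ℝ) ≤ (⌊(2 : ℝ) ^ (x - wg γ)⌋₊ : ℝ) *
        ((T.image (fun z : Tp k => z.1)).card : ℝ) := h6
    _ ≤ (2 : ℝ) ^ (x - wg γ) * (2 : ℝ) ^ sg γ :=
        mul_le_mul (Nat.floor_le (by positivity)) h7 (Nat.cast_nonneg _) (by positivity)
    _ = _ := by
        rw [← Real.rpow_add h2]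
        congr 1
        ring

private theorem W_erase' {k : ℕ} (i : Fin k) (f : Fin k → ℕ) :
    W f = (∏ l ∈ univ.erase i, f l ^ (k + (l : ℕ))) * f i ^ (k + (i : ℕ)) := by
  unfold W
  rw [← prod_erase_mul _ _ (mem_univ i)]

theorem off_eq {k : ℕ} {i : Fin k} {z y : Tp k} (h : off i z = off i y) :
    z.1 = y.1 ∧ (∀ l, l ≠ i → z.2.1 l = y.2.1 l) ∧ (∀ l, l ≠ i → z.2.2 l = y.2.2 l) := by
  simp only [off, Prod.mk.injEq] at h
  refine ⟨h.1, fun l hl => ?_, fun l hl => ?_⟩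
  · have := congrFun h.2.1 l
    rwa [Function.update_of_ne hl, Function.update_of_ne hl] at this
  · have := congrFun h.2.2 l
    rwa [Function.update_of_ne hl, Function.update_of_ne hl] at this

/-- at most three tuples with the same coordinates off `i` are large -/
theorem fib_three {k : ℕ} (hk : 3 ≤ k) (i : Fin k) {x : ℝ} (hx : 0 ≤ x) (T : Finset (Tp k))
    (hT : ∀ z ∈ T, Rep ((2 : ℝ) ^ x) z ∧
      90 * (7 * ((k + (i : ℕ) : ℕ) : ℝ) + 2) ≤ Real.log (W z.2.1) ∧
      90 * Real.log ((2 : ℝ) ^ x) ≤ Real.log (W z.2.1))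
    (hoff : ∀ z ∈ T, ∀ y ∈ T, off i z = off i y) : T.card ≤ 3 := by
  classical
  rcases T.eq_empty_or_nonempty with h | h
  · rw [h, card_empty]
    omega
  obtain ⟨z₀, hz₀⟩ := h
  have hinj : Set.InjOn (fun x : Tp k => (x.2.1 i, x.2.2 i)) (T : Set (Tp k)) := by
    intro z hz y hy hzy
    obtain ⟨o1, o2, o3⟩ := off_eq (hoff z hz y hy)
    simp only [Prod.mk.injEq] at hzy
    refine Prod.ext o1 (Prod.ext ?_ ?_)
    · funext l
      by_cases hl : l = i
      · rw [hl]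
        exact hzy.1
      · exact o2 l hl
    · funext l
      by_cases hl : l = i
      · rw [hl]
        exact hzy.2
      · exact o3 l hl
  rw [← card_image_of_injOn hinj]
  set U : ℕ := ∏ l ∈ univ.erase i, z₀.2.1 l ^ (k + (l : ℕ)) with hU
  set V : ℕ := ∏ l ∈ univ.erase i, z₀.2.2 l ^ (k + (l : ℕ)) with hV
  have hUpos : 0 < U := prod_pos fun l _ => pow_pos ((hT z₀ hz₀).1.2.1 l) _
  have hVpos : 0 < V := prod_pos fun l _ => pow_pos ((hT z₀ hz₀).1.2.2.1 l) _
  refine Thue.three (d := k + (i : ℕ)) (U := U) (V := V) (Y := (2 : ℝ) ^ x) (by omega) hUpos hVpos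
    (Real.one_le_rpow (by norm_num) hx) _ ?_
  intro p hp
  obtain ⟨z, hz, rfl⟩ := mem_image.1 hp
  obtain ⟨hR, hl1, hl2⟩ := hT z hz
  obtain ⟨o1, o2, o3⟩ := off_eq (hoff z hz z₀ hz₀)
  have hWa : W z.2.1 = U * z.2.1 i ^ (k + (i : ℕ)) := by
    rw [W_erase' i, hU]
    congr 1
    exact prod_congr rfl fun l hl => by rw [o2 l (ne_of_mem_erase hl)]
  have hWb : W z.2.2 = V * z.2.2 i ^ (k + (i : ℕ)) := by
    rw [W_erase' i, hV]
    congr 1
    exact prod_congr rfl fun l hl => by rw [o3 l (ne_of_mem_erase hl)]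
  have hht : Thue.ht (k + (i : ℕ)) U (z.2.1 i, z.2.2 i) = Real.log (W z.2.1) := by
    unfold Thue.ht
    rw [hWa]
  have hlt : W z.2.2 < W z.2.1 := hR.2.2.2.2.1
  refine ⟨⟨hR.2.1 i, hR.2.2.1 i, hR.2.2.2.1 i, ?_, ?_⟩, ?_, ?_⟩
  · simp only
    rw [← hWa, ← hWb]
    exact hlt
  · simp only
    rw [← hWa, ← hWb]
    have h6 := hR.2.2.2.2.2
    have hg : (1 : ℝ) ≤ W z.1 := by exact_mod_cast W_pos hR.1
    have hpos : (0 : ℝ) ≤ (W z.2.1 : ℝ) - W z.2.2 := by
      have : (W z.2.2 : ℝ) ≤ W z.2.1 := by exact_mod_cast hlt.le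
      linarith
    nlinarith
  · rw [hht]
    exact hl1
  · rw [hht]
    exact hl2

private theorem card_box1 {k : ℕ} (i : Fin k) (α : Fin k → ℕ) :
    (Fintype.piFinset fun l : Fin k => if l = i then ({0} : Finset ℕ)
      else Ico (2 ^ α l) (2 * 2 ^ α l)).card = ∏ l ∈ univ.erase i, 2 ^ α l := by
  rw [Fintype.card_piFinset, ← prod_erase_mul _ _ (mem_univ i)]
  simp only [if_true, card_singleton, mul_one]
  refine prod_congr rfl fun l hl => ?_
  rw [if_neg (ne_of_mem_erase hl), Nat.card_Ico]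
  omega

private theorem card_box2 {k : ℕ} (α : Fin k → ℕ) :
    (Fintype.piFinset fun l : Fin k => Ico (2 ^ α l) (2 * 2 ^ α l)).card = ∏ l, 2 ^ α l := by
  rw [Fintype.card_piFinset]
  refine prod_congr rfl fun l _ => ?_
  rw [Nat.card_Ico]
  omega

/-- the number of large tuples in a box for the coordinates off `i` -/
theorem large_box {k : ℕ} (hk : 3 ≤ k) (i : Fin k) {γ α β : Fin k → ℕ} {x : ℝ} (hx : 0 ≤ x)
    (T : Finset (Tp k)) (hT : ∀ z ∈ T, Rep ((2 : ℝ) ^ x) z ∧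
      90 * (7 * ((k + (i : ℕ) : ℕ) : ℝ) + 2) ≤ Real.log (W z.2.1) ∧
      90 * Real.log ((2 : ℝ) ^ x) ≤ Real.log (W z.2.1))
    (hbox : ∀ z ∈ T, lg z.1 = γ ∧ (∀ l, l ≠ i → lg z.2.1 l = α l) ∧
      (∀ l, l ≠ i → lg z.2.2 l = β l)) :
    (T.card : ℝ) ≤ 3 * (2 : ℝ) ^ (sg γ + (sg α + sg β - (α i + β i))) := by
  classical
  have h2 : (0 : ℝ) < 2 := by norm_num
  have hfib : ∀ y ∈ T.image (off i), (T.filter fun z => off i z = y).card ≤ 3 := by
    intro y hy
    refine fib_three hk i hx _ (fun z hz => hT z (mem_filter.1 hz).1) ?_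
    intro z hz w hw
    rw [(mem_filter.1 hz).2, (mem_filter.1 hw).2]
  have h1 := card_le_mul_card_image (f := off i) T 3 hfib
  have h3 : T.image (off i) ⊆ (Fintype.piFinset fun l : Fin k => Ico (2 ^ γ l) (2 * 2 ^ γ l)) ×ˢ
      ((Fintype.piFinset fun l : Fin k => if l = i then ({0} : Finset ℕ)
        else Ico (2 ^ α l) (2 * 2 ^ α l)) ×ˢ
      (Fintype.piFinset fun l : Fin k => if l = i then ({0} : Finset ℕ)
        else Ico (2 ^ β l) (2 * 2 ^ β l))) := by
    intro y hy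
    obtain ⟨z, hz, rfl⟩ := mem_image.1 hy
    obtain ⟨hR, -, -⟩ := hT z hz
    obtain ⟨b1, b2, b3⟩ := hbox z hz
    rw [mem_product, mem_product, Fintype.mem_piFinset, Fintype.mem_piFinset, Fintype.mem_piFinset]
    refine ⟨fun l => ?_, fun l => ?_, fun l => ?_⟩
    · have := InB_lg hR.1 l
      rw [b1] at this
      exact mem_Ico.2 this
    · by_cases hl : l = i
      · rw [if_pos hl, mem_singleton, hl]
        exact Function.update_self _ _ _
      · rw [if_neg hl]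
        simp only [off]
        rw [Function.update_of_ne hl, ← b2 l hl]
        exact mem_Ico.2 (InB_lg hR.2.1 l)
    · by_cases hl : l = i
      · rw [if_pos hl, mem_singleton, hl]
        exact Function.update_self _ _ _
      · rw [if_neg hl]
        simp only [off]
        rw [Function.update_of_ne hl, ← b3 l hl]
        exact mem_Ico.2 (InB_lg hR.2.2.1 l)
  have h4 := card_le_card h3
  rw [card_product, card_product, card_box2, card_box1, card_box1] at h4
  have h5 : ((T.image (off i)).card : ℝ) ≤ (2 : ℝ) ^ (sg γ + (sg α + sg β - (α i + β i))) := by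
    have h6 : ((T.image (off i)).card : ℝ) ≤ (((∏ l, 2 ^ γ l) *
      ((∏ l ∈ univ.erase i, 2 ^ α l) * (∏ l ∈ univ.erase i, 2 ^ β l)) : ℕ) : ℝ) := by
      exact_mod_cast h4
    refine h6.trans (le_of_eq ?_)
    push_cast
    rw [prod_erase_tw, prod_erase_tw]
    have e1 : ∏ l, (2 : ℝ) ^ γ l = (2 : ℝ) ^ sg γ := by
      rw [← pr_tw]
      unfold pr tw
      push_cast
      rfl
    rw [e1, ← Real.rpow_add h2, ← Real.rpow_add h2]
    congr 1
    ring
  have h7 : (T.card : ℝ) ≤ 3 * ((T.image (off i)).card : ℝ) := by exact_mod_cast h1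
  linarith

end Pool.Agent.Lib.MP_65ca9f_nt
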