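import Mathlib

/-!
# Coprime pairs `(a, b)` in a dyadic box with `0 < U a ^ w - V b ^ w ≤ Y`

The fractions `a / b` are spaced and lie in a short interval.
-/

set_option autoImplicit false

namespace Pool.Agent.Lib.MP_65ca9f_nt

open Finset

/-- A finite set on which a real function is spaced by `s` and varies by at most `L` has at most
`1 + L / s` elements. -/
theorem card_le_of_spaced {α : Type*} (S : Finset α) (f : α → ℝ) {s L : ℝ} (hs : 0 < s)
    (hL : 0 ≤ L) (h1 : ∀ x ∈ S, ∀ y ∈ S, x ≠ y → s ≤ |f x - f y|)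
    (h2 : ∀ x ∈ S, ∀ y ∈ S, f x - f y ≤ L) : (S.card : ℝ) ≤ 1 + L / s := by
  classical
  rcases S.eq_empty_or_nonempty with h | h
  · rw [h]
    simp only [card_empty, Nat.cast_zero]
    have := div_nonneg hL hs.le
    linarith
  obtain ⟨m, hm, hmin⟩ := S.exists_min_image f h
  have hinj : Set.InjOn (fun x => ⌊(f x - f m) / s⌋₊) (S : Set α) := by
    intro x hx y hy hxy
    by_contra hne
    have h3 := h1 x hx y hy hne
    have hx0 : 0 ≤ (f x - f m) / s := div_nonneg (by linarith [hmin x hx]) hs.le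
    have hy0 : 0 ≤ (f y - f m) / s := div_nonneg (by linarith [hmin y hy]) hs.le
    simp only at hxy
    have a1 := Nat.floor_le hx0
    have a2 := Nat.lt_floor_add_one ((f x - f m) / s)
    have b1 := Nat.floor_le hy0
    have b2 := Nat.lt_floor_add_one ((f y - f m) / s)
    rw [hxy] at a1 a2
    have c1 : |(f x - f m) / s - (f y - f m) / s| < 1 := by
      rw [abs_lt]
      constructor <;> linarith
    have c2 : (f x - f m) / s - (f y - f m) / s = (f x - f y) / s := by ring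
    rw [c2, abs_div, abs_of_pos hs, div_lt_one hs] at c1
    linarith
  have hsub : S.image (fun x => ⌊(f x - f m) / s⌋₊) ⊆ range (⌊L / s⌋₊ + 1) := by
    intro n hn
    obtain ⟨x, hx, rfl⟩ := mem_image.1 hn
    rw [mem_range]
    refine Nat.lt_succ_of_le (Nat.floor_le_floor ?_)
    exact div_le_div_of_nonneg_right (h2 x hx m hm) hs.le
  have hc := card_le_card hsub
  rw [card_image_of_injOn hinj, card_range] at hc
  have hc' : (S.card : ℝ) ≤ ⌊L / s⌋₊ + 1 := by exact_mod_cast hc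
  have := Nat.floor_le (div_nonneg hL hs.le)
  linarith

/-- Coprime pairs near a line. -/
theorem line_count {w U V A B : ℕ} (hw : 1 ≤ w) (hU : 0 < U) (hA : 0 < A) (hB : 0 < B) {Y : ℝ}
    (hY : 0 ≤ Y) (S : Finset (ℕ × ℕ))
    (hS : ∀ x ∈ S, A ≤ x.1 ∧ x.1 < 2 * A ∧ B ≤ x.2 ∧ x.2 < 2 * B ∧ Nat.Coprime x.1 x.2 ∧
      V * x.2 ^ w < U * x.1 ^ w ∧ ((U * x.1 ^ w : ℕ) : ℝ) - (V * x.2 ^ w : ℕ) ≤ Y) :
    (S.card : ℝ) ≤ 1 + 2 ^ (w + 1) * Y * (A * B) / (U * A ^ w) := by
  have hA' : (0 : ℝ) < A := by exact_mod_cast hA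
  have hB' : (0 : ℝ) < B := by exact_mod_cast hB
  have hU' : (0 : ℝ) < U := by exact_mod_cast hU
  have key := card_le_of_spaced S (fun x => (x.1 : ℝ) / x.2) (s := 1 / (4 * (B : ℝ) ^ 2))
    (L := Y / (U * B ^ w) * (2 * B / A) ^ (w - 1)) (by positivity) (by positivity) ?_ ?_
  · refine key.trans (le_of_eq ?_)
    obtain ⟨v, rfl⟩ : ∃ v, w = v + 1 := ⟨w - 1, by omega⟩
    simp only [Nat.add_sub_cancel]
    rw [div_pow, mul_pow]
    field_simp
    ring
  · intro x hx y hy hne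
    obtain ⟨ha, ha2, hb, hb2, hc, -, -⟩ := hS x hx
    obtain ⟨ha', ha2', hb', hb2', hc', -, -⟩ := hS y hy
    have hbx : (0 : ℝ) < x.2 := lt_of_lt_of_le hB' (by exact_mod_cast hb)
    have hby : (0 : ℝ) < y.2 := lt_of_lt_of_le hB' (by exact_mod_cast hb')
    have hne' : (x.1 : ℤ) * y.2 - y.1 * x.2 ≠ 0 := by
      intro h0
      have h1 : x.1 * y.2 = y.1 * x.2 := by
        have : (x.1 : ℤ) * y.2 = y.1 * x.2 := by linarith
        exact_mod_cast this
      have h2 : x.1 ∣ y.1 := hc.dvd_of_dvd_mul_right (Dvd.intro _ h1)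
      have h3 : y.1 ∣ x.1 := hc'.dvd_of_dvd_mul_right (Dvd.intro _ h1.symm)
      have h4 : x.1 = y.1 := Nat.dvd_antisymm h2 h3
      have h5 : x.2 = y.2 := by
        rw [h4] at h1
        exact (Nat.eq_of_mul_eq_mul_left (by omega) h1).symm
      exact hne (Prod.ext h4 h5)
    have h1 : (1 : ℝ) ≤ |(x.1 : ℝ) * y.2 - y.1 * x.2| := by
      have := Int.one_le_abs hne'
      have h2 : ((|(x.1 : ℤ) * y.2 - y.1 * x.2| : ℤ) : ℝ) = |(x.1 : ℝ) * y.2 - y.1 * x.2| := by
        push_cast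
        rfl
      rw [← h2]
      exact_mod_cast this
    have h2 : (x.1 : ℝ) / x.2 - (y.1 : ℝ) / y.2 = ((x.1 : ℝ) * y.2 - y.1 * x.2) / (x.2 * y.2) := by
      field_simp
    rw [h2, abs_div, abs_of_pos (mul_pos hbx hby), div_le_div_iff₀ (by positivity) (mul_pos hbx hby)]
    have h3 : (x.2 : ℝ) ≤ 2 * B := by exact_mod_cast hb2.le
    have h4 : (y.2 : ℝ) ≤ 2 * B := by exact_mod_cast hb2'.le
    nlinarith [mul_le_mul h3 h4 hby.le (by positivity)]
  · intro x hx y hy
    obtain ⟨ha, ha2, hb, hb2, hc, hlt, hY1⟩ := hS x hx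
    obtain ⟨ha', ha2', hb', hb2', hc', hlt', hY2⟩ := hS y hy
    have hbx : (0 : ℝ) < x.2 := lt_of_lt_of_le hB' (by exact_mod_cast hb)
    have hby : (0 : ℝ) < y.2 := lt_of_lt_of_le hB' (by exact_mod_cast hb')
    have hax : (A : ℝ) ≤ x.1 := by exact_mod_cast ha
    have hay : (A : ℝ) ≤ y.1 := by exact_mod_cast ha'
    have hbx1 : (B : ℝ) ≤ x.2 := by exact_mod_cast hb
    have hbx2 : (x.2 : ℝ) ≤ 2 * B := by exact_mod_cast hb2.le
    set p : ℝ := (x.1 : ℝ) / x.2 with hp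
    set q : ℝ := (y.1 : ℝ) / y.2 with hq
    have hp0 : 0 < p := div_pos (by linarith) hbx
    have hq0 : 0 < q := div_pos (by linarith) hby
    rcases le_or_gt p q with hpq | hpq
    · have : 0 ≤ Y / (U * B ^ w) * (2 * B / A) ^ (w - 1) := by positivity
      linarith
    have e1 : p ^ w ≤ V / U + Y / (U * B ^ w) := by
      have h1 : (U : ℝ) * x.1 ^ w ≤ V * x.2 ^ w + Y := by
        push_cast at hY1
        linarith
      have h2 : p ^ w = (x.1 : ℝ) ^ w / x.2 ^ w := div_pow _ _ _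
      rw [h2, div_le_iff₀ (by positivity)]
      have h3 : (x.1 : ℝ) ^ w ≤ (V * x.2 ^ w + Y) / U := by
        rw [le_div_iff₀ hU']
        linarith
      refine h3.trans ?_
      have h4 : Y / U ≤ Y / (U * B ^ w) * x.2 ^ w := by
        rw [div_mul_eq_mul_div, div_le_div_iff₀ hU' (by positivity)]
        have h5 : (B : ℝ) ^ w ≤ (x.2 : ℝ) ^ w := pow_le_pow_left₀ hB'.le hbx1 _
        nlinarith [mul_nonneg hY hU'.le, mul_le_mul_of_nonneg_left h5 (mul_nonneg hY hU'.le)]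
      calc ((V : ℝ) * x.2 ^ w + Y) / U = V / U * x.2 ^ w + Y / U := by
            field_simp
        _ ≤ (V / U + Y / (U * B ^ w)) * x.2 ^ w := by
            rw [add_mul]
            linarith
    have e2 : (V : ℝ) / U ≤ q ^ w := by
      have h1 : (V : ℝ) * y.2 ^ w ≤ U * y.1 ^ w := by exact_mod_cast hlt'.le
      have h2 : q ^ w = (y.1 : ℝ) ^ w / y.2 ^ w := div_pow _ _ _
      rw [h2, div_le_div_iff₀ hU' (by positivity)]
      linarith
    have e3 : (p - q) * p ^ (w - 1) ≤ p ^ w - q ^ w := by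
      obtain ⟨v, rfl⟩ : ∃ v, w = v + 1 := ⟨w - 1, by omega⟩
      simp only [Nat.add_sub_cancel]
      have h1 : q ^ v ≤ p ^ v := pow_le_pow_left₀ hq0.le hpq.le _
      have h2 : p ^ (v + 1) - q ^ (v + 1) = (p - q) * p ^ v + q * (p ^ v - q ^ v) := by ring
      rw [h2]
      have : 0 ≤ q * (p ^ v - q ^ v) := mul_nonneg hq0.le (by linarith)
      linarith
    have e4 : A / (2 * B) ≤ p := by
      rw [hp, div_le_div_iff₀ (by positivity) hbx]
      nlinarith
    have e5 : ((A : ℝ) / (2 * B)) ^ (w - 1) ≤ p ^ (w - 1) := pow_le_pow_left₀ (by positivity) e4 _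
    have e6 : (p - q) * ((A : ℝ) / (2 * B)) ^ (w - 1) ≤ Y / (U * B ^ w) := by
      have h1 : (p - q) * ((A : ℝ) / (2 * B)) ^ (w - 1) ≤ (p - q) * p ^ (w - 1) :=
        mul_le_mul_of_nonneg_left e5 (by linarith)
      linarith
    have e7 : ((A : ℝ) / (2 * B)) ^ (w - 1) * (2 * B / A) ^ (w - 1) = 1 := by
      rw [← mul_pow]
      have : (A : ℝ) / (2 * B) * (2 * B / A) = 1 := by field_simp
      rw [this, one_pow]
    calc p - q = (p - q) * ((A : ℝ) / (2 * B)) ^ (w - 1) * (2 * B / A) ^ (w - 1) := by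
          rw [mul_assoc, e7, mul_one]
      _ ≤ Y / (U * B ^ w) * (2 * B / A) ^ (w - 1) :=
          mul_le_mul_of_nonneg_right e6 (by positivity)

end Pool.Agent.Lib.MP_65ca9f_nt
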