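import Pool.Agent.Lib.MP_65ca9f_nt.Box

/-!
# The box bounds in logarithmic form
-/

set_option autoImplicit false

namespace Pool.Agent.Lib.MP_65ca9f_nt

open Finset

/-- the sum of the exponents -/
noncomputable def sg {k : ℕ} (γ : Fin k → ℕ) : ℝ := ∑ l, (γ l : ℝ)

/-- the weighted sum of the exponents -/
noncomputable def wg {k : ℕ} (γ : Fin k → ℕ) : ℝ := ∑ l : Fin k, ((k : ℝ) + (l : ℕ)) * γ l

/-- the sum of the weights -/
noncomputable def ss (k : ℕ) : ℝ := ∑ l : Fin k, ((k : ℝ) + (l : ℕ))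

theorem sg_nonneg {k : ℕ} (γ : Fin k → ℕ) : 0 ≤ sg γ := sum_nonneg fun _ _ => Nat.cast_nonneg _

theorem ss_nonneg (k : ℕ) : 0 ≤ ss k := sum_nonneg fun _ _ => by positivity

theorem wg_nonneg {k : ℕ} (γ : Fin k → ℕ) : 0 ≤ wg γ :=
  sum_nonneg fun _ _ => mul_nonneg (by positivity) (Nat.cast_nonneg _)

theorem k_sg_le {k : ℕ} (γ : Fin k → ℕ) : (k : ℝ) * sg γ ≤ wg γ := by
  unfold sg wg
  rw [mul_sum]
  refine sum_le_sum fun l _ => mul_le_mul_of_nonneg_right ?_ (Nat.cast_nonneg _)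
  have : (0 : ℝ) ≤ ((l : ℕ) : ℝ) := Nat.cast_nonneg _
  linarith

theorem pr_tw {k : ℕ} (γ : Fin k → ℕ) : (pr (tw γ) : ℝ) = (2 : ℝ) ^ sg γ := by
  unfold pr tw sg
  push_cast
  rw [Real.rpow_sum_of_pos (by norm_num : (0 : ℝ) < 2)]
  exact prod_congr rfl fun l _ => (Real.rpow_natCast 2 (γ l)).symm

theorem W_tw {k : ℕ} (γ : Fin k → ℕ) : (W (tw γ) : ℝ) = (2 : ℝ) ^ wg γ := by
  unfold W tw wg
  push_cast
  rw [Real.rpow_sum_of_pos (by norm_num : (0 : ℝ) < 2)]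
  refine prod_congr rfl fun l _ => ?_
  rw [← pow_mul, ← Real.rpow_natCast]
  congr 1
  push_cast
  ring

theorem prod_erase_tw {k : ℕ} (i : Fin k) (γ : Fin k → ℕ) :
    ∏ l ∈ univ.erase i, (2 : ℝ) ^ γ l = (2 : ℝ) ^ (sg γ - γ i) := by
  have h1 : sg γ - γ i = ∑ l ∈ univ.erase i, (γ l : ℝ) := by
    unfold sg
    rw [← sum_erase_add _ _ (mem_univ i)]
    ring
  rw [h1, Real.rpow_sum_of_pos (by norm_num : (0 : ℝ) < 2)]
  exact prod_congr rfl fun l _ => (Real.rpow_natCast 2 (γ l)).symm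

theorem W_lt {k : ℕ} {γ g : Fin k → ℕ} (h : InB γ g) : (W g : ℝ) ≤ (2 : ℝ) ^ (ss k + wg γ) := by
  have h1 : (W g : ℝ) ≤ ∏ l : Fin k, (2 * (2 : ℝ) ^ γ l) ^ (k + (l : ℕ)) := by
    unfold W
    push_cast
    refine prod_le_prod (fun l _ => by positivity) fun l _ => ?_
    refine pow_le_pow_left₀ (Nat.cast_nonneg _) ?_ _
    exact_mod_cast (h l).2.le
  refine h1.trans (le_of_eq ?_)
  unfold ss wg
  rw [← sum_add_distrib, Real.rpow_sum_of_pos (by norm_num : (0 : ℝ) < 2)]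
  refine prod_congr rfl fun l _ => ?_
  rw [← pow_succ', ← pow_mul, ← Real.rpow_natCast]
  congr 1
  push_cast
  ring

theorem le_W {k : ℕ} {γ g : Fin k → ℕ} (h : InB γ g) : (2 : ℝ) ^ wg γ ≤ (W g : ℝ) := by
  rw [← W_tw]
  exact_mod_cast W_mono fun l => (h l).1

theorem pr_lt {k : ℕ} {γ g : Fin k → ℕ} (h : InB γ g) : (pr g : ℝ) ≤ (2 : ℝ) ^ ((k : ℝ) + sg γ) := by
  have h1 : (pr g : ℝ) ≤ ∏ l : Fin k, (2 * (2 : ℝ) ^ γ l) := by
    unfold pr
    push_cast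
    refine prod_le_prod (fun l _ => by positivity) fun l _ => ?_
    exact_mod_cast (h l).2.le
  refine h1.trans (le_of_eq ?_)
  rw [prod_mul_distrib, prod_const, card_univ, Fintype.card_fin, Real.rpow_add (by norm_num),
    Real.rpow_natCast, ← pr_tw]
  unfold pr tw
  push_cast
  rfl

/-- the box bound with the free coordinate `i` -/
theorem box_log {k : ℕ} (i : Fin k) (γ α β : Fin k → ℕ) {x : ℝ}
    (S : Finset (Tp k)) (hS : ∀ z ∈ S, Ok γ α β ((2 : ℝ) ^ x) z) :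
    (S.card : ℝ) ≤ (2 : ℝ) ^ (sg γ + (sg α + sg β - (α i + β i))) +
      (2 : ℝ) ^ (sg γ + (sg α + sg β) + 2 * k + x - wg γ - wg α) := by
  have h2 : (0 : ℝ) < 2 := by norm_num
  have h := box_count i γ α β (X := (2 : ℝ) ^ x) (by positivity) S hS
  rw [pr_tw, prod_erase_tw, prod_erase_tw, W_tw, W_tw] at h
  refine h.trans ?_
  rw [mul_add, mul_one]
  refine add_le_add (le_of_eq ?_) ?_
  · rw [← Real.rpow_add h2, ← Real.rpow_add h2]
    congr 1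
    ring
  · have e1 : (2 : ℝ) ^ (k + (i : ℕ) + 1) ≤ (2 : ℝ) ^ (2 * (k : ℝ)) := by
      rw [← Real.rpow_natCast]
      refine Real.rpow_le_rpow_of_exponent_le (by norm_num) ?_
      have h3 : k + (i : ℕ) + 1 ≤ 2 * k := by have := i.2; omega
      exact_mod_cast h3
    have e2 : (2 : ℝ) ^ (sg γ) * ((2 : ℝ) ^ (sg α - α i) * (2 : ℝ) ^ (sg β - β i)) *
        ((2 : ℝ) ^ (k + (i : ℕ) + 1) * ((2 : ℝ) ^ x / (2 : ℝ) ^ wg γ) *
          ((2 : ℝ) ^ α i * (2 : ℝ) ^ β i) / (2 : ℝ) ^ wg α) =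
        (2 : ℝ) ^ (k + (i : ℕ) + 1) *
          (2 : ℝ) ^ (sg γ + (sg α + sg β) + x - wg γ - wg α) := by
      rw [← Real.rpow_sub h2, ← Real.rpow_natCast 2 (α i), ← Real.rpow_natCast 2 (β i),
        ← Real.rpow_natCast 2 (k + (i : ℕ) + 1), ← Real.rpow_add h2, ← Real.rpow_add h2,
        ← Real.rpow_add h2, ← Real.rpow_add h2, ← Real.rpow_add h2, ← Real.rpow_sub h2,
        ← Real.rpow_add h2, ← Real.rpow_add h2]
      congr 1
      ring
    rw [e2]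
    calc (2 : ℝ) ^ (k + (i : ℕ) + 1) * (2 : ℝ) ^ (sg γ + (sg α + sg β) + x - wg γ - wg α)
        ≤ (2 : ℝ) ^ (2 * (k : ℝ)) * (2 : ℝ) ^ (sg γ + (sg α + sg β) + x - wg γ - wg α) :=
          mul_le_mul_of_nonneg_right e1 (by positivity)
      _ = _ := by
          rw [← Real.rpow_add h2]
          congr 1
          ring

/-- the trivial box bound -/
theorem box_triv {k : ℕ} (γ α β : Fin k → ℕ) {X : ℝ}
    (S : Finset (Tp k)) (hS : ∀ z ∈ S, Ok γ α β X z) :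
    (S.card : ℝ) ≤ (2 : ℝ) ^ (sg γ + (sg α + sg β)) := by
  classical
  have h2 : (0 : ℝ) < 2 := by norm_num
  have h1 : S ⊆ (Fintype.piFinset fun l : Fin k => Ico (2 ^ γ l) (2 * 2 ^ γ l)) ×ˢ
      ((Fintype.piFinset fun l : Fin k => Ico (2 ^ α l) (2 * 2 ^ α l)) ×ˢ
      (Fintype.piFinset fun l : Fin k => Ico (2 ^ β l) (2 * 2 ^ β l))) := by
    intro x hx
    obtain ⟨h1, h2, h3, -, -, -⟩ := hS x hx
    rw [mem_product, mem_product, Fintype.mem_piFinset, Fintype.mem_piFinset, Fintype.mem_piFinset]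
    exact ⟨fun l => mem_Ico.2 (h1 l), fun l => mem_Ico.2 (h2 l), fun l => mem_Ico.2 (h3 l)⟩
  have hc : ∀ δ : Fin k → ℕ,
      (Fintype.piFinset fun l : Fin k => Ico (2 ^ δ l) (2 * 2 ^ δ l)).card = pr (tw δ) := by
    intro δ
    rw [Fintype.card_piFinset]
    refine prod_congr rfl fun l _ => ?_
    rw [Nat.card_Ico]
    simp only [tw]
    omega
  have h3 := card_le_card h1
  rw [card_product, card_product, hc, hc, hc] at h3
  have h4 : (S.card : ℝ) ≤ (pr (tw γ) : ℝ) * ((pr (tw α) : ℝ) * (pr (tw β) : ℝ)) := by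
    exact_mod_cast h3
  rw [pr_tw, pr_tw, pr_tw] at h4
  refine h4.trans (le_of_eq ?_)
  rw [← Real.rpow_add h2, ← Real.rpow_add h2]

/-- constraints satisfied by a box with an element -/
theorem constr {k : ℕ} {γ α β : Fin k → ℕ} {x : ℝ} {z : Tp k} (hz : Ok γ α β ((2 : ℝ) ^ x) z) :
    wg β ≤ wg α + ss k ∧ wg γ ≤ x ∧
      (W z.2.1 : ℝ) - W z.2.2 ≤ (2 : ℝ) ^ (x - wg γ) := by
  obtain ⟨h1, h2, h3, h4, h5, h6⟩ := hz
  have h0 : (0 : ℝ) < 2 := by norm_num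
  have hd : (1 : ℝ) ≤ (W z.2.1 : ℝ) - W z.2.2 := by
    have : (W z.2.2 : ℝ) + 1 ≤ W z.2.1 := by exact_mod_cast h5
    linarith
  refine ⟨?_, ?_, ?_⟩
  · have a1 := le_W h3
    have a2 := W_lt h2
    have a3 : (W z.2.2 : ℝ) ≤ W z.2.1 := by exact_mod_cast h5.le
    have a4 := (Real.rpow_le_rpow_left_iff (by norm_num : (1 : ℝ) < 2)).1 (a1.trans (a3.trans a2))
    linarith
  · have a1 := le_W h1
    have a2 : (W z.1 : ℝ) ≤ (2 : ℝ) ^ x := by
      have : (W z.1 : ℝ) * 1 ≤ (W z.1 : ℝ) * ((W z.2.1 : ℝ) - W z.2.2) :=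
        mul_le_mul_of_nonneg_left hd (Nat.cast_nonneg _)
      linarith
    exact (Real.rpow_le_rpow_left_iff (by norm_num : (1 : ℝ) < 2)).1 (a1.trans a2)
  · rw [Real.rpow_sub h0, le_div_iff₀ (by positivity)]
    have a1 := le_W h1
    nlinarith [mul_le_mul_of_nonneg_right a1 (by linarith : (0 : ℝ) ≤ (W z.2.1 : ℝ) - W z.2.2)]

/-- the bound for the second term -/
theorem second {k : ℕ} (hk : 3 ≤ k) {γ α β : Fin k → ℕ} {x : ℝ} (h1 : wg β ≤ wg α + ss k)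
    (h2 : wg γ ≤ x) (h3 : x - wg γ ≤ wg α) :
    sg γ + (sg α + sg β) + 2 * k + x - wg γ - wg α ≤ 2 / k * x + (2 * k + ss k / k) := by
  have hk0 : (0 : ℝ) < k := by exact_mod_cast (by omega : 0 < k)
  have hk3 : (3 : ℝ) ≤ k := by exact_mod_cast hk
  have a1 := k_sg_le γ
  have a2 := k_sg_le α
  have a3 := k_sg_le β
  have a4 := wg_nonneg γ
  have e : (2 : ℝ) / k * x + (2 * k + ss k / k) = (2 * x + 2 * k * k + ss k) / k := by
    field_simp
    ring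
  rw [e, le_div_iff₀ hk0]
  nlinarith [mul_nonneg (by linarith : (0 : ℝ) ≤ (k : ℝ) - 2) (by linarith : 0 ≤ wg α - (x - wg γ))]

theorem triv_log {k : ℕ} (hk : 3 ≤ k) {γ α β : Fin k → ℕ} {x : ℝ} (h1 : wg β ≤ wg α + ss k)
    (h3 : wg α ≤ x - wg γ) :
    sg γ + (sg α + sg β) ≤ 2 / k * x + (2 * k + ss k / k) := by
  have hk0 : (0 : ℝ) < k := by exact_mod_cast (by omega : 0 < k)
  have a1 := k_sg_le γ
  have a2 := k_sg_le α
  have a3 := k_sg_le β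
  have a4 := wg_nonneg γ
  have e : (2 : ℝ) / k * x + (2 * k + ss k / k) = (2 * x + 2 * k * k + ss k) / k := by
    field_simp
    ring
  rw [e, le_div_iff₀ hk0]
  nlinarith [mul_pos hk0 hk0]

end Pool.Agent.Lib.MP_65ca9f_nt
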