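import Pool.Agent.Lib.MP_dd84fd_nt.DivBound

/-!
# Differences of two `k`-th powers
-/

set_option autoImplicit false

namespace Pool.Agent.Lib.MP_65ca9f_nt

open Finset Filter

/-- the divisor bound -/
private theorem div_small {ε : ℝ} (hε : 0 < ε) : ∃ C : ℕ, ∀ X : ℕ, C ≤ X → ∀ n : ℕ, 0 < n → n ≤ X →
    (n.divisors.card : ℝ) ≤ (X : ℝ) ^ ε := by
  obtain ⟨m, hm⟩ := exists_nat_gt (2 / ε)
  have hm0 : (0 : ℝ) < m := lt_trans (by positivity) hm
  have hm1 : 2 ≤ ε * m := by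
    rw [div_lt_iff₀ hε] at hm
    linarith
  have hmn : m ≠ 0 := by
    rintro rfl
    simp at hm0
  obtain ⟨C, hC, h⟩ := Pool.Agent.Lib.MP_dd84fd_nt.DivBound.div_bound m
  refine ⟨C + 1, fun X hX n hn hnX => ?_⟩
  have hX1 : (1 : ℝ) ≤ X := by
    have : 1 ≤ X := by omega
    exact_mod_cast this
  have h1 := h n hn.ne'
  have h2 : n.divisors.card ^ m ≤ X ^ 2 := by
    refine h1.trans ?_
    calc C * n ≤ X * X := Nat.mul_le_mul (by omega) hnX
      _ = X ^ 2 := by ring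
  have h3 : (n.divisors.card : ℝ) ^ m ≤ ((X : ℝ) ^ ε) ^ m := by
    calc (n.divisors.card : ℝ) ^ m ≤ (X : ℝ) ^ 2 := by exact_mod_cast h2
      _ = (X : ℝ) ^ (2 : ℝ) := by norm_cast
      _ ≤ (X : ℝ) ^ (ε * m) := Real.rpow_le_rpow_of_exponent_le hX1 hm1
      _ = ((X : ℝ) ^ ε) ^ m := by rw [Real.rpow_mul (by positivity), Real.rpow_natCast]
  exact (pow_le_pow_iff_left₀ (by positivity) (by positivity) hmn).1 h3

private theorem mono_weak (b b' d : ℕ) (h : b ≤ b') (j : ℕ) :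
    (b + d) ^ j + b' ^ j ≤ (b' + d) ^ j + b ^ j := by
  induction j with
  | zero => simp
  | succ j ih =>
    have h1 : (b + d) ^ j ≤ (b' + d) ^ j := Nat.pow_le_pow_left (by omega) j
    have h2 : b ^ j ≤ (b + d) ^ j := Nat.pow_le_pow_left (by omega) j
    have h3 : b' ^ j ≤ (b' + d) ^ j := Nat.pow_le_pow_left (by omega) j
    rw [pow_succ, pow_succ, pow_succ, pow_succ]
    generalize (b + d) ^ j = P at *
    generalize (b' + d) ^ j = P' at *
    generalize b ^ j = Q at *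
    generalize b' ^ j = Q' at *
    zify at *
    have e1 : (b : ℤ) * (P - Q) ≤ b' * (P' - Q') :=
      mul_le_mul h (by linarith) (by linarith) (by positivity)
    have e2 : (d : ℤ) * P ≤ d * P' := mul_le_mul_of_nonneg_left h1 (by positivity)
    linarith

private theorem mono_strict (b b' d : ℕ) (hd : 1 ≤ d) (h : b < b') (j : ℕ) (hj : 2 ≤ j) :
    (b + d) ^ j + b' ^ j < (b' + d) ^ j + b ^ j := by
  obtain ⟨j, rfl⟩ : ∃ i, j = i + 1 := ⟨j - 1, by omega⟩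
  have ih := mono_weak b b' d h.le j
  have h1 : (b + d) ^ j < (b' + d) ^ j := Nat.pow_lt_pow_left (by omega) (by omega)
  have h2 : b ^ j ≤ (b + d) ^ j := Nat.pow_le_pow_left (by omega) j
  rw [pow_succ, pow_succ, pow_succ, pow_succ]
  generalize (b + d) ^ j = P at *
  generalize (b' + d) ^ j = P' at *
  generalize b ^ j = Q at *
  generalize b' ^ j = Q' at *
  zify at *
  have e1 : (b : ℤ) * (P - Q) ≤ b' * (P' - Q') :=
    mul_le_mul h.le (by linarith) (by linarith) (by positivity)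
  have e2 : (d : ℤ) * P < d * P' := mul_lt_mul_of_pos_left h1 (by linarith)
  linarith

/-- many differences of two `k`-th powers -/
theorem lower {k : ℕ} (hk : 2 ≤ k) {ε : ℝ} (hε : 0 < ε) : ∃ X₀ : ℕ, ∀ X : ℕ, X₀ ≤ X →
    ∃ I : Finset ℕ, (X : ℝ) ^ (2 / (k : ℝ) - ε) ≤ I.card ∧
      ∀ N ∈ I, 1 ≤ N ∧ N ≤ X ∧ ∃ a b : ℕ, 0 < b ∧ N + b ^ k = a ^ k ∧ a ^ k ≤ X := by
  classical
  obtain ⟨C, hC⟩ := div_small (ε := ε / 2) (by positivity)
  have hk0 : (0 : ℝ) < k := by exact_mod_cast (by omega : 0 < k)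
  have ev1 : ∀ᶠ X : ℕ in atTop, (4 : ℝ) ≤ (X : ℝ) ^ ((1 : ℝ) / k) :=
    ((tendsto_rpow_atTop (by positivity)).comp tendsto_natCast_atTop_atTop).eventually
      (eventually_ge_atTop 4)
  have ev2 : ∀ᶠ X : ℕ in atTop, (16 : ℝ) ≤ (X : ℝ) ^ (ε / 2) :=
    ((tendsto_rpow_atTop (by positivity)).comp tendsto_natCast_atTop_atTop).eventually
      (eventually_ge_atTop 16)
  obtain ⟨X₁, hX₁⟩ := (ev1.and ev2).exists_forall_of_atTop
  refine ⟨max (max C 1) X₁, fun X hX => ?_⟩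
  obtain ⟨e1, e2⟩ := hX₁ X ((le_max_right _ _).trans hX)
  have hXC : C ≤ X := (le_max_left _ _).trans ((le_max_left _ _).trans hX)
  have hX1 : 1 ≤ X := (le_max_right _ _).trans ((le_max_left _ _).trans hX)
  have hXr : (1 : ℝ) ≤ X := by exact_mod_cast hX1
  have hX0 : (0 : ℝ) < X := by linarith
  set Y : ℕ := ⌊(X : ℝ) ^ ((1 : ℝ) / k)⌋₊ with hY
  have hYk : Y ^ k ≤ X := by
    have h1 : (Y : ℝ) ≤ (X : ℝ) ^ ((1 : ℝ) / k) := Nat.floor_le (by positivity)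
    have h2 : (Y : ℝ) ^ k ≤ ((X : ℝ) ^ ((1 : ℝ) / k)) ^ k := pow_le_pow_left₀ (by positivity) h1 _
    rw [← Real.rpow_natCast ((X : ℝ) ^ ((1 : ℝ) / k)) k, ← Real.rpow_mul hX0.le,
      one_div_mul_cancel hk0.ne', Real.rpow_one] at h2
    exact_mod_cast h2
  set Z : ℕ := Y / 2 with hZ
  have hZr : (X : ℝ) ^ ((1 : ℝ) / k) / 4 ≤ Z := by
    have h1 : (X : ℝ) ^ ((1 : ℝ) / k) < Y + 1 := Nat.lt_floor_add_one _
    have h2 : (Y : ℝ) ≤ 2 * Z + 1 := by exact_mod_cast (by omega : Y ≤ 2 * Z + 1)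
    linarith
  set P : Finset (ℕ × ℕ) := Icc 1 Z ×ˢ Icc 1 Z with hP
  set F : ℕ × ℕ → ℕ := fun p => (p.1 + p.2) ^ k - p.1 ^ k with hF
  have hkne : k ≠ 0 := by omega
  have hval : ∀ p ∈ P, 1 ≤ p.1 ∧ 1 ≤ p.2 ∧ p.1 ^ k < (p.1 + p.2) ^ k ∧ (p.1 + p.2) ^ k ≤ X := by
    intro p hp
    rw [hP, mem_product, mem_Icc, mem_Icc] at hp
    refine ⟨hp.1.1, hp.2.1, Nat.pow_lt_pow_left (by omega) hkne, ?_⟩
    exact (Nat.pow_le_pow_left (by omega) k).trans hYk
  have hfib : ∀ N ∈ P.image F, (P.filter fun p => F p = N).card ≤ ⌊(X : ℝ) ^ (ε / 2)⌋₊ := by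
    intro N hN
    obtain ⟨p₀, hp₀, rfl⟩ := mem_image.1 hN
    obtain ⟨-, -, v3, v4⟩ := hval p₀ hp₀
    have hN0 : 0 < F p₀ := by
      simp only [hF]
      omega
    have hNX : F p₀ ≤ X := by
      simp only [hF]
      omega
    refine Nat.le_floor ?_
    refine le_trans ?_ (hC X hXC (F p₀) hN0 hNX)
    refine Nat.cast_le.2 ?_
    refine card_le_card_of_injOn (fun p => p.2) ?_ ?_
    · intro p hp
      rw [mem_coe, mem_filter] at hp
      rw [mem_coe, Nat.mem_divisors]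
      refine ⟨?_, hN0.ne'⟩
      rw [← hp.2]
      simp only [hF]
      have := Nat.sub_dvd_pow_sub_pow (p.1 + p.2) p.1 k
      rwa [Nat.add_sub_cancel_left] at this
    · intro p hp q hq hpq
      rw [mem_coe, mem_filter] at hp hq
      simp only at hpq
      have hpF : F p = F q := hp.2.trans hq.2.symm
      obtain ⟨p1, p2, p3, p4⟩ := hval p hp.1
      obtain ⟨q1, q2, q3, q4⟩ := hval q hq.1
      rcases lt_trichotomy p.1 q.1 with h | h | h
      · exfalso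
        have := mono_strict p.1 q.1 p.2 p2 h k hk
        simp only [hF] at hpF
        rw [← hpq] at hpF q3 q4
        omega
      · exact Prod.ext h hpq
      · exfalso
        have := mono_strict q.1 p.1 p.2 p2 h k hk
        simp only [hF] at hpF
        rw [← hpq] at hpF q3 q4
        omega
  refine ⟨P.image F, ?_, ?_⟩
  · have h1 := card_le_mul_card_image (f := F) P _ hfib
    have h2 : P.card = Z * Z := by
      rw [hP, card_product, Nat.card_Icc]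
      simp
    rw [h2] at h1
    have h3 : (Z : ℝ) * Z ≤ (X : ℝ) ^ (ε / 2) * (P.image F).card := by
      have h4 : ((Z : ℝ) * Z) ≤ (⌊(X : ℝ) ^ (ε / 2)⌋₊ : ℝ) * (P.image F).card := by
        exact_mod_cast h1
      exact h4.trans (mul_le_mul_of_nonneg_right (Nat.floor_le (by positivity))
        (Nat.cast_nonneg _))
    have h5 : ((X : ℝ) ^ ((1 : ℝ) / k) / 4) * ((X : ℝ) ^ ((1 : ℝ) / k) / 4) ≤ (Z : ℝ) * Z :=
      mul_le_mul hZr hZr (by positivity) (by positivity)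
    have h6 : (X : ℝ) ^ ((1 : ℝ) / k) * (X : ℝ) ^ ((1 : ℝ) / k) =
        (X : ℝ) ^ (2 / (k : ℝ) - ε) * ((X : ℝ) ^ (ε / 2) * (X : ℝ) ^ (ε / 2)) := by
      rw [← Real.rpow_add hX0, ← Real.rpow_add hX0, ← Real.rpow_add hX0]
      congr 1
      ring
    have h7 : (X : ℝ) ^ (2 / (k : ℝ) - ε) * (X : ℝ) ^ (ε / 2) ≤
        (X : ℝ) ^ (ε / 2) * (P.image F).card := by
      have h8 : (X : ℝ) ^ (2 / (k : ℝ) - ε) * (X : ℝ) ^ (ε / 2) * 16 ≤
          (X : ℝ) ^ (2 / (k : ℝ) - ε) * (X : ℝ) ^ (ε / 2) * (X : ℝ) ^ (ε / 2) :=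
        mul_le_mul_of_nonneg_left e2 (by positivity)
      nlinarith
    have h9 : (0 : ℝ) < (X : ℝ) ^ (ε / 2) := by positivity
    rw [mul_comm] at h7
    exact le_of_mul_le_mul_left h7 h9
  · intro N hN
    obtain ⟨p, hp, rfl⟩ := mem_image.1 hN
    obtain ⟨v1, v2, v3, v4⟩ := hval p hp
    simp only [hF]
    exact ⟨by omega, by omega, p.1 + p.2, p.1, by omega, by omega, v4⟩

end Pool.Agent.Lib.MP_65ca9f_nt
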