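import Mathlib

/-!
# Padé approximation of `w ^ (1/d)` near `1`
-/

set_option autoImplicit false

namespace Pool.Agent.Lib.MP_65ca9f_nt.Pade

open Finset

/-- the denominators -/
noncomputable def sab (ν : ℝ) (n a b : ℕ) : ℝ := (a : ℝ) + b - n + ν

/-- the coefficients -/
noncomputable def cab (ν : ℝ) (n a b : ℕ) : ℝ :=
  (-1) ^ a * (-1) ^ (n - b) * (n.choose a : ℝ) * (n.choose b : ℝ) / sab ν n a b

/-- first polynomial -/
noncomputable def P (ν : ℝ) (n : ℕ) (w : ℝ) : ℝ :=
  ∑ a ∈ range (n + 1), ∑ b ∈ range (n + 1), cab ν n a b * w ^ (n - b)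

/-- second polynomial -/
noncomputable def Q (ν : ℝ) (n : ℕ) (w : ℝ) : ℝ :=
  ∑ a ∈ range (n + 1), ∑ b ∈ range (n + 1), cab ν n a b * w ^ a

/-- the remainder -/
noncomputable def R (ν : ℝ) (n : ℕ) (w : ℝ) : ℝ :=
  ∫ u in w..1, (1 - u) ^ n * (u - w) ^ n * u ^ (ν - n - 1)

theorem sab_ne {ν : ℝ} (h0 : 0 < ν) (h1 : ν < 1) (n a b : ℕ) : sab ν n a b ≠ 0 := by
  intro h
  unfold sab at h
  have h2 : ν = ((n : ℤ) - a - b : ℤ) := by
    push_cast
    linarith
  rw [h2] at h0 h1
  have h3 : (0 : ℤ) < (n : ℤ) - a - b := by exact_mod_cast h0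
  have h4 : (n : ℤ) - a - b < 1 := by exact_mod_cast h1
  omega

theorem main_identity {ν : ℝ} (h0 : 0 < ν) (h1 : ν < 1) (n : ℕ) {w : ℝ} (hw : 0 < w) :
    P ν n w - w ^ ν * Q ν n w = R ν n w := by
  have hmem : ∀ u ∈ Set.uIcc w 1, 0 < u := by
    intro u hu
    rw [Set.mem_uIcc] at hu
    rcases hu with h | h
    · linarith [h.1]
    · linarith [h.1]
  have hint : ∀ a b : ℕ, ∫ u in w..1, u ^ (sab ν n a b - 1) =
      (1 - w ^ sab ν n a b) / sab ν n a b := by
    intro a b
    rw [integral_rpow]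
    · rw [sub_add_cancel, Real.one_rpow]
    · right
      refine ⟨?_, ?_⟩
      · intro h
        exact sab_ne h0 h1 n a b (by linarith)
      · intro h
        exact lt_irrefl _ (hmem 0 h)
  have hexp : ∀ u ∈ Set.uIcc w 1, (1 - u) ^ n * (u - w) ^ n * u ^ (ν - n - 1) =
      ∑ a ∈ range (n + 1), ∑ b ∈ range (n + 1),
        ((-1) ^ a * (-1) ^ (n - b) * (n.choose a : ℝ) * (n.choose b : ℝ) * w ^ (n - b)) *
          u ^ (sab ν n a b - 1) := by
    intro u hu
    have hu0 := hmem u hu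
    have e1 : (1 - u) ^ n = ∑ a ∈ range (n + 1), (-1) ^ a * (n.choose a : ℝ) * u ^ a := by
      have : (1 - u) = (-u) + 1 := by ring
      rw [this, add_pow]
      refine sum_congr rfl fun a _ => ?_
      rw [neg_pow, one_pow]
      ring
    have e2 : (u - w) ^ n = ∑ b ∈ range (n + 1), (-1) ^ (n - b) * (n.choose b : ℝ) *
        w ^ (n - b) * u ^ b := by
      have : u - w = u + (-w) := by ring
      rw [this, add_pow]
      refine sum_congr rfl fun b _ => ?_
      rw [neg_pow w]
      ring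
    rw [e1, e2, sum_mul_sum, sum_mul]
    refine sum_congr rfl fun a _ => ?_
    rw [sum_mul]
    refine sum_congr rfl fun b _ => ?_
    have e3 : u ^ (sab ν n a b - 1) = u ^ a * u ^ b * u ^ (ν - n - 1) := by
      rw [← Real.rpow_natCast u a, ← Real.rpow_natCast u b, ← Real.rpow_add hu0,
        ← Real.rpow_add hu0]
      congr 1
      unfold sab
      ring
    rw [e3]
    ring
  unfold R
  rw [intervalIntegral.integral_congr hexp, intervalIntegral.integral_finsetSum]
  · unfold P Q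
    rw [mul_sum, ← sum_sub_distrib]
    refine sum_congr rfl fun a _ => ?_
    rw [intervalIntegral.integral_finsetSum]
    · rw [mul_sum, ← sum_sub_distrib]
      refine sum_congr rfl fun b hb => ?_
      rw [intervalIntegral.integral_const_mul, hint]
      have hb' : b ≤ n := by
        have := mem_range.1 hb
        omega
      have e4 : w ^ (n - b) * w ^ sab ν n a b = w ^ ν * w ^ a := by
        rw [← Real.rpow_natCast w (n - b), ← Real.rpow_natCast w a, ← Real.rpow_add hw,
          ← Real.rpow_add hw]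
        congr 1
        unfold sab
        rw [Nat.cast_sub hb']
        ring
      unfold cab
      have hs := sab_ne h0 h1 n a b
      have e5 : (-1 : ℝ) ^ a * (-1) ^ (n - b) * (n.choose a : ℝ) * (n.choose b : ℝ) *
          w ^ (n - b) * ((1 - w ^ sab ν n a b) / sab ν n a b) =
          (-1 : ℝ) ^ a * (-1) ^ (n - b) * (n.choose a : ℝ) * (n.choose b : ℝ) *
          (w ^ (n - b) - w ^ (n - b) * w ^ sab ν n a b) / sab ν n a b := by
        ring
      rw [e5, e4]
      ring
    · intro b _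
      refine IntervalIntegrable.const_mul ?_ _
      refine ContinuousOn.intervalIntegrable ?_
      intro u hu
      exact (Real.continuousAt_rpow_const _ _ (Or.inl (hmem u hu).ne')).continuousWithinAt
  · intro a _
    refine ContinuousOn.intervalIntegrable ?_
    refine continuousOn_finsetSum _ fun b _ => ?_
    refine ContinuousOn.mul continuousOn_const ?_
    intro u hu
    exact (Real.continuousAt_rpow_const _ _ (Or.inl (hmem u hu).ne')).continuousWithinAt

/-- the bound for the remainder -/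
theorem R_bound {ν : ℝ} (h0 : 0 < ν) (n : ℕ) {w : ℝ} (hw : 1 / 2 ≤ w) (hw1 : w ≤ 1) :
    |R ν n w| ≤ 2 ^ (n + 1) * (1 - w) ^ (2 * n + 1) := by
  have h : ∀ u ∈ Set.uIoc w 1, ‖(1 - u) ^ n * (u - w) ^ n * u ^ (ν - n - 1)‖ ≤
      2 ^ (n + 1) * (1 - w) ^ (2 * n) := by
    intro u hu
    rw [Set.uIoc_of_le hw1] at hu
    have hu0 : 0 < u := by linarith [hu.1]
    rw [Real.norm_eq_abs, abs_of_nonneg]
    · have e1 : (1 - u) ^ n ≤ (1 - w) ^ n :=
        pow_le_pow_left₀ (by linarith [hu.2]) (by linarith [hu.1]) n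
      have e2 : (u - w) ^ n ≤ (1 - w) ^ n :=
        pow_le_pow_left₀ (by linarith [hu.1]) (by linarith [hu.2]) n
      have e3 : u ^ (ν - n - 1) ≤ 2 ^ (n + 1) := by
        calc u ^ (ν - n - 1) ≤ u ^ (-((n : ℝ) + 1)) :=
              Real.rpow_le_rpow_of_exponent_ge hu0 hu.2 (by linarith)
          _ ≤ (1 / 2 : ℝ) ^ (-((n : ℝ) + 1)) :=
              Real.rpow_le_rpow_of_nonpos (by norm_num) (by linarith [hu.1])
                (by linarith [(Nat.cast_nonneg n : (0 : ℝ) ≤ n)])
          _ = 2 ^ (n + 1) := by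
              rw [Real.rpow_neg (by norm_num), one_div, Real.inv_rpow (by norm_num), inv_inv]
              have : ((n : ℝ) + 1) = ((n + 1 : ℕ) : ℝ) := by push_cast; ring
              rw [this, Real.rpow_natCast]
      calc (1 - u) ^ n * (u - w) ^ n * u ^ (ν - n - 1) ≤ (1 - w) ^ n * (1 - w) ^ n * 2 ^ (n + 1) := by
            refine mul_le_mul (mul_le_mul e1 e2 (pow_nonneg (by linarith [hu.1]) n)
              (pow_nonneg (by linarith) n)) e3 (by positivity) ?_
            exact mul_nonneg (pow_nonneg (by linarith) n) (pow_nonneg (by linarith) n)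
        _ = _ := by ring
    · exact mul_nonneg (mul_nonneg (pow_nonneg (by linarith [hu.2]) n)
        (pow_nonneg (by linarith [hu.1]) n)) (by positivity)
  have := intervalIntegral.norm_integral_le_of_norm_le_const h
  rw [Real.norm_eq_abs] at this
  unfold R
  refine this.trans (le_of_eq ?_)
  rw [abs_of_nonneg (by linarith)]
  ring

/-- the bound for the second polynomial -/
theorem Q_bound {d : ℕ} (hd : 2 ≤ d) (n : ℕ) {w : ℝ} (hw : 0 ≤ w) (hw1 : w ≤ 1) :
    |Q (1 / (d : ℝ)) n w| ≤ d * 4 ^ n := by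
  have hd0 : (0 : ℝ) < d := by exact_mod_cast (by omega : 0 < d)
  have hs : ∀ a b : ℕ, 1 / (d : ℝ) ≤ |sab (1 / (d : ℝ)) n a b| := by
    intro a b
    have e1 : sab (1 / (d : ℝ)) n a b = (((d : ℤ) * ((a : ℤ) + b - n) + 1 : ℤ) : ℝ) / d := by
      unfold sab
      push_cast
      field_simp
    rw [e1, abs_div, abs_of_pos hd0]
    refine div_le_div_of_nonneg_right ?_ hd0.le
    have h1 : (d : ℤ) * ((a : ℤ) + b - n) + 1 ≠ 0 := by
      intro h
      have h2 : (d : ℤ) ∣ 1 := by
        have : (1 : ℤ) = (d : ℤ) * (-((a : ℤ) + b - n)) := by linarith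
        rw [this]
        exact Dvd.intro _ rfl
      have h3 := Int.le_of_dvd one_pos h2
      omega
    have h2 := Int.one_le_abs h1
    have h3 : (1 : ℝ) ≤ ((|(d : ℤ) * ((a : ℤ) + b - n) + 1| : ℤ) : ℝ) := by exact_mod_cast h2
    rwa [Int.cast_abs] at h3
  have hc : ∀ a b : ℕ, |cab (1 / (d : ℝ)) n a b * w ^ a| ≤
      d * ((n.choose a : ℝ) * (n.choose b : ℝ)) := by
    intro a b
    have hs' := hs a b
    have hpos : 0 < |sab (1 / (d : ℝ)) n a b| := lt_of_lt_of_le (by positivity) hs'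
    unfold cab
    rw [abs_mul, abs_div, abs_mul, abs_mul, abs_mul, abs_pow, abs_pow, abs_neg, abs_one, one_pow,
      one_pow, one_mul, one_mul, Nat.abs_cast, Nat.abs_cast, abs_pow, abs_of_nonneg hw]
    have e1 : w ^ a ≤ 1 := pow_le_one₀ hw hw1
    have e2 : (n.choose a : ℝ) * (n.choose b : ℝ) / |sab (1 / (d : ℝ)) n a b| ≤
        d * ((n.choose a : ℝ) * (n.choose b : ℝ)) := by
      rw [div_le_iff₀ hpos]
      have e3 : 1 ≤ d * |sab (1 / (d : ℝ)) n a b| := by
        calc (1 : ℝ) = d * (1 / d) := by field_simp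
          _ ≤ _ := mul_le_mul_of_nonneg_left hs' hd0.le
      calc (n.choose a : ℝ) * (n.choose b : ℝ) = (n.choose a : ℝ) * (n.choose b : ℝ) * 1 := by ring
        _ ≤ (n.choose a : ℝ) * (n.choose b : ℝ) * (d * |sab (1 / (d : ℝ)) n a b|) :=
            mul_le_mul_of_nonneg_left e3 (by positivity)
        _ = _ := by ring
    calc (n.choose a : ℝ) * (n.choose b : ℝ) / |sab (1 / (d : ℝ)) n a b| * w ^ a ≤
        d * ((n.choose a : ℝ) * (n.choose b : ℝ)) * 1 :=
          mul_le_mul e2 e1 (by positivity) (by positivity)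
      _ = _ := by ring
  have hch : ∑ a ∈ range (n + 1), (n.choose a : ℝ) = 2 ^ n := by
    exact_mod_cast Nat.sum_range_choose n
  unfold Q
  calc |∑ a ∈ range (n + 1), ∑ b ∈ range (n + 1), cab (1 / (d : ℝ)) n a b * w ^ a| ≤
        ∑ a ∈ range (n + 1), ∑ b ∈ range (n + 1), |cab (1 / (d : ℝ)) n a b * w ^ a| :=
        (abs_sum_le_sum_abs _ _).trans (sum_le_sum fun a _ => abs_sum_le_sum_abs _ _)
    _ ≤ ∑ a ∈ range (n + 1), ∑ b ∈ range (n + 1), d * ((n.choose a : ℝ) * (n.choose b : ℝ)) :=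
        sum_le_sum fun a _ => sum_le_sum fun b _ => hc a b
    _ = d * ((∑ a ∈ range (n + 1), (n.choose a : ℝ)) * ∑ b ∈ range (n + 1), (n.choose b : ℝ)) := by
        rw [sum_mul_sum, mul_sum]
        refine sum_congr rfl fun a _ => ?_
        rw [mul_sum]
    _ = d * 4 ^ n := by
        rw [hch, ← mul_pow]
        norm_num

end Pool.Agent.Lib.MP_65ca9f_nt.Pade
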