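import Pool.Agent.Lib.MP_65ca9f_nt.PadeNV

/-!
# Nonvanishing of the determinant of consecutive Padé approximants
-/

set_option autoImplicit false

namespace Pool.Agent.Lib.MP_65ca9f_nt.Pade

open Finset Polynomial Filter Topology

/-- the determinant is small near `1` -/
theorem W_small {d : ℕ} (hd : 2 ≤ d) (n : ℕ) {w : ℝ} (hw : 1 / 2 ≤ w) (hw1 : w ≤ 1) :
    |P (1 / (d : ℝ)) n w * Q (1 / (d : ℝ)) (n + 1) w - P (1 / (d : ℝ)) (n + 1) w *
      Q (1 / (d : ℝ)) n w| ≤ (2 ^ (n + 1) * (d * 4 ^ (n + 1)) + 2 ^ (n + 2) * (d * 4 ^ n)) *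
        (1 - w) ^ (2 * n + 1) := by
  have hd0 : (0 : ℝ) < d := by exact_mod_cast (by omega : 0 < d)
  have hd1 : (1 : ℝ) < d := by exact_mod_cast (by omega : 1 < d)
  have hν0 : 0 < 1 / (d : ℝ) := by positivity
  have hν1 : 1 / (d : ℝ) < 1 := by
    rw [div_lt_one hd0]
    exact hd1
  have i1 := main_identity hν0 hν1 n (by linarith : 0 < w)
  have i2 := main_identity hν0 hν1 (n + 1) (by linarith : 0 < w)
  have e1 : P (1 / (d : ℝ)) n w * Q (1 / (d : ℝ)) (n + 1) w - P (1 / (d : ℝ)) (n + 1) w *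
      Q (1 / (d : ℝ)) n w = R (1 / (d : ℝ)) n w * Q (1 / (d : ℝ)) (n + 1) w -
        R (1 / (d : ℝ)) (n + 1) w * Q (1 / (d : ℝ)) n w := by
    rw [← i1, ← i2]
    ring
  rw [e1]
  have r1 := R_bound hν0 n hw hw1
  have r2 := R_bound hν0 (n + 1) hw hw1
  have q1 := Q_bound hd n (by linarith : 0 ≤ w) hw1
  have q2 := Q_bound hd (n + 1) (by linarith : 0 ≤ w) hw1
  have hw' : 0 ≤ 1 - w := by linarith
  have r2' : |R (1 / (d : ℝ)) (n + 1) w| ≤ 2 ^ (n + 2) * (1 - w) ^ (2 * n + 1) := by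
    refine r2.trans ?_
    refine mul_le_mul_of_nonneg_left ?_ (by positivity)
    exact pow_le_pow_of_le_one hw' (by linarith) (by omega)
  calc |R (1 / (d : ℝ)) n w * Q (1 / (d : ℝ)) (n + 1) w -
        R (1 / (d : ℝ)) (n + 1) w * Q (1 / (d : ℝ)) n w| ≤
        |R (1 / (d : ℝ)) n w * Q (1 / (d : ℝ)) (n + 1) w| +
          |R (1 / (d : ℝ)) (n + 1) w * Q (1 / (d : ℝ)) n w| := abs_sub _ _
    _ = |R (1 / (d : ℝ)) n w| * |Q (1 / (d : ℝ)) (n + 1) w| +
          |R (1 / (d : ℝ)) (n + 1) w| * |Q (1 / (d : ℝ)) n w| := by rw [abs_mul, abs_mul]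
    _ ≤ 2 ^ (n + 1) * (1 - w) ^ (2 * n + 1) * (d * 4 ^ (n + 1)) +
          2 ^ (n + 2) * (1 - w) ^ (2 * n + 1) * (d * 4 ^ n) := by
        refine add_le_add ?_ ?_
        · exact mul_le_mul r1 q2 (abs_nonneg _) (mul_nonneg (by positivity) (pow_nonneg hw' _))
        · exact mul_le_mul r2' q1 (abs_nonneg _) (mul_nonneg (by positivity) (pow_nonneg hw' _))
    _ = _ := by ring

/-- a polynomial of degree at most `N` which is `O((1-w)^N)` near `1` does not vanish elsewhere -/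
theorem poly_aux (W : ℝ[X]) (N : ℕ) (hdeg : W.natDegree ≤ N) (hW : W ≠ 0) (K : ℝ)
    (hsmall : ∀ w : ℝ, 1 / 2 ≤ w → w ≤ 1 → |W.eval w| ≤ K * (1 - w) ^ N) {w₀ : ℝ} (hw₀ : w₀ ≠ 1) :
    W.eval w₀ ≠ 0 := by
  set m := W.rootMultiplicity 1 with hm
  obtain ⟨V, hV⟩ := W.pow_rootMultiplicity_dvd 1
  rw [← hm] at hV
  have hV0 : V ≠ 0 := by
    intro h
    rw [h, mul_zero] at hV
    exact hW hV
  have hV1 : V.eval 1 ≠ 0 := by
    intro h
    have h1 : (X - C (1 : ℝ)) ∣ V := dvd_iff_isRoot.2 h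
    obtain ⟨V', hV'⟩ := h1
    have h2 : (X - C (1 : ℝ)) ^ (m + 1) ∣ W := by
      rw [hV, hV', ← mul_assoc, ← pow_succ]
      exact Dvd.intro _ rfl
    have h3 := (le_rootMultiplicity_iff hW).2 h2
    omega
  have hdegW : W.natDegree = m + V.natDegree := by
    conv_lhs => rw [hV]
    rw [natDegree_mul (pow_ne_zero _ (X_sub_C_ne_zero 1)) hV0, natDegree_pow, natDegree_X_sub_C,
      mul_one]
  have hmN : N ≤ m := by
    by_contra hlt
    push Not at hlt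
    have hb : ∀ w : ℝ, 1 / 2 ≤ w → w < 1 → |V.eval w| ≤ K * (1 - w) ^ (N - m) := by
      intro w hw hw1
      have h1 := hsmall w hw hw1.le
      rw [hV, eval_mul, eval_pow, eval_sub, eval_X, eval_C, abs_mul, abs_pow] at h1
      have h2 : |w - 1| = 1 - w := by
        rw [abs_of_neg (by linarith)]
        ring
      rw [h2] at h1
      have h3 : (0 : ℝ) < (1 - w) ^ m := pow_pos (by linarith) m
      have h4 : (1 - w) ^ N = (1 - w) ^ m * (1 - w) ^ (N - m) := by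
        rw [← pow_add]
        congr 1
        omega
      rw [h4] at h1
      have h5 : (1 - w) ^ m * |V.eval w| ≤ (1 - w) ^ m * (K * (1 - w) ^ (N - m)) := by
        linarith
      exact le_of_mul_le_mul_left h5 h3
    have t1 : Tendsto (fun w : ℝ => |V.eval w|) (𝓝[<] 1) (𝓝 |V.eval 1|) :=
      ((V.continuous.abs).tendsto 1).mono_left nhdsWithin_le_nhds
    have t2 : Tendsto (fun w : ℝ => K * (1 - w) ^ (N - m)) (𝓝[<] 1) (𝓝 (K * (1 - 1) ^ (N - m))) := by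
      refine Tendsto.mono_left ?_ nhdsWithin_le_nhds
      exact ((continuous_const.mul ((continuous_const.sub continuous_id).pow _)).tendsto 1)
    have h6 : ∀ᶠ w in 𝓝[<] (1 : ℝ), |V.eval w| ≤ K * (1 - w) ^ (N - m) := by
      have h7 : Set.Ioo (1 / 2 : ℝ) 1 ∈ 𝓝[<] (1 : ℝ) := Ioo_mem_nhdsLT (by norm_num)
      filter_upwards [h7] with w hw
      exact hb w hw.1.le hw.2
    have h8 := le_of_tendsto_of_tendsto t1 t2 h6
    rw [sub_self, zero_pow (by omega), mul_zero] at h8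
    exact hV1 (abs_nonpos_iff.1 h8)
  have hVd : V.natDegree = 0 := by omega
  obtain ⟨c, hc⟩ : ∃ c, V = C c := ⟨V.coeff 0, eq_C_of_natDegree_eq_zero hVd⟩
  rw [hV, hc, eval_mul, eval_pow, eval_sub, eval_X, eval_C, eval_C]
  have hc0 : c ≠ 0 := by
    intro h
    rw [h, C_0] at hc
    exact hV0 hc
  exact mul_ne_zero (pow_ne_zero _ (sub_ne_zero.2 hw₀)) hc0

/-- consecutive Padé approximants are independent -/
theorem indep {d : ℕ} (hd : 2 ≤ d) (n : ℕ) {w : ℝ} (hw : w ≠ 1) :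
    P (1 / (d : ℝ)) n w * Q (1 / (d : ℝ)) (n + 1) w ≠
      P (1 / (d : ℝ)) (n + 1) w * Q (1 / (d : ℝ)) n w := by
  have hd0 : (0 : ℝ) < d := by exact_mod_cast (by omega : 0 < d)
  have hd1 : (1 : ℝ) < d := by exact_mod_cast (by omega : 1 < d)
  have hν0 : 0 < 1 / (d : ℝ) := by positivity
  have hν1 : 1 / (d : ℝ) < 1 := by
    rw [div_lt_one hd0]
    exact hd1
  set W : ℝ[X] := Pp (1 / (d : ℝ)) n * Qp (1 / (d : ℝ)) (n + 1) -
    Pp (1 / (d : ℝ)) (n + 1) * Qp (1 / (d : ℝ)) n with hW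
  have hWe : ∀ v : ℝ, W.eval v = P (1 / (d : ℝ)) n v * Q (1 / (d : ℝ)) (n + 1) v -
      P (1 / (d : ℝ)) (n + 1) v * Q (1 / (d : ℝ)) n v := by
    intro v
    rw [hW, eval_sub, eval_mul, eval_mul, Pp_eval, Pp_eval, Qp_eval, Qp_eval]
  have hW0 : W ≠ 0 := by
    intro h
    apply coeff_W _ hν0 hν1 n
    rw [← hW, h, coeff_zero]
  have hdeg : W.natDegree ≤ 2 * n + 1 := by
    refine (natDegree_sub_le _ _).trans (max_le ?_ ?_)
    · refine natDegree_mul_le.trans ?_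
      have := Pp_deg (1 / (d : ℝ)) n
      have := Qp_deg (1 / (d : ℝ)) (n + 1)
      omega
    · refine natDegree_mul_le.trans ?_
      have := Pp_deg (1 / (d : ℝ)) (n + 1)
      have := Qp_deg (1 / (d : ℝ)) n
      omega
  have h := poly_aux W (2 * n + 1) hdeg hW0 _ (fun v hv hv1 => by
    rw [hWe]
    exact W_small hd n hv hv1) hw
  rw [hWe] at h
  exact fun h1 => h (by rw [h1, sub_self])

end Pool.Agent.Lib.MP_65ca9f_nt.Pade
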