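import Pool.Agent.Lib.MP_65ca9f_nt.PadeInd

/-!
# Integrality of the Padé approximants
-/

set_option autoImplicit false

namespace Pool.Agent.Lib.MP_65ca9f_nt.Pade

open Finset

/-- the common denominator -/
noncomputable def Ln (d n : ℕ) : ℕ := Nat.lcmUpto (d * n + 1)

theorem Ln_pos (d n : ℕ) : 0 < Ln d n := Nat.lcmUpto_pos _

theorem Ln_le (d n : ℕ) : (Ln d n : ℝ) ≤ Real.exp (6 * (d * n + 1)) := by
  have h1 : (0 : ℝ) < Ln d n := by exact_mod_cast Ln_pos d n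
  have h2 := Chebyshev.psi_le_const_mul_self (x := ((d * n + 1 : ℕ) : ℝ)) (by positivity)
  rw [Chebyshev.psi_eq_log_lcmUpto] at h2
  have h3 : Real.log 4 ≤ 2 := by
    have h4 : Real.log 4 = 2 * Real.log 2 := by
      rw [show (4 : ℝ) = 2 ^ 2 by norm_num, Real.log_pow]
      norm_num
    have := Real.log_two_lt_d9
    linarith
  have h5 : Real.log (Ln d n) ≤ 6 * (d * n + 1) := by
    unfold Ln
    refine h2.trans ?_
    push_cast
    have : (0 : ℝ) ≤ d * n + 1 := by positivity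
    nlinarith
  exact (Real.log_le_iff_le_exp h1).1 h5

theorem dvd_Ln {d n : ℕ} (t : ℤ) (ht : t ≠ 0) (ht2 : |t| ≤ d * n + 1) : t ∣ (Ln d n : ℤ) := by
  have h1 : t.natAbs ∣ Ln d n := by
    have h2 : t.natAbs ∈ Icc 1 (d * n + 1) := by
      rw [mem_Icc]
      refine ⟨Int.natAbs_pos.2 ht, ?_⟩
      have : ((t.natAbs : ℕ) : ℤ) ≤ ((d * n + 1 : ℕ) : ℤ) := by
        rw [Int.natCast_natAbs]
        push_cast
        exact ht2
      exact_mod_cast this
    unfold Ln Nat.lcmUpto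
    exact Finset.dvd_lcm (f := id) h2
  exact Int.natAbs_dvd.1 (Int.natCast_dvd_natCast.2 h1)

/-- the integer coefficients -/
theorem coef_int {d : ℕ} (hd : 2 ≤ d) {n a b : ℕ} (ha : a ≤ n) (hb : b ≤ n) :
    ∃ z : ℤ, (z : ℝ) = Ln d n * cab (1 / (d : ℝ)) n a b := by
  have hd0 : (0 : ℝ) < d := by exact_mod_cast (by omega : 0 < d)
  set t : ℤ := (d : ℤ) * ((a : ℤ) + b - n) + 1 with ht
  have ht0 : t ≠ 0 := by
    intro h
    have h2 : (d : ℤ) ∣ 1 := by
      have : (1 : ℤ) = (d : ℤ) * (-((a : ℤ) + b - n)) := by linarith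
      rw [this]
      exact Dvd.intro _ rfl
    have h3 := Int.le_of_dvd one_pos h2
    omega
  have ht2 : |t| ≤ d * n + 1 := by
    have hd' : (0 : ℤ) ≤ d := by positivity
    have h1 : (a : ℤ) + b - n ≤ n := by omega
    have h2 : -(n : ℤ) ≤ (a : ℤ) + b - n := by omega
    have h3 := mul_le_mul_of_nonneg_left h1 hd'
    have h4 := mul_le_mul_of_nonneg_left h2 hd'
    rw [abs_le]
    constructor
    · rw [ht]
      linarith
    · rw [ht]
      linarith
  obtain ⟨c, hc⟩ := dvd_Ln t ht0 ht2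
  refine ⟨(-1) ^ a * (-1) ^ (n - b) * (n.choose a : ℤ) * (n.choose b : ℤ) * d * c, ?_⟩
  have hcr : (Ln d n : ℝ) = (t : ℝ) * c := by exact_mod_cast hc
  have htr : (t : ℝ) ≠ 0 := by exact_mod_cast ht0
  have hs : sab (1 / (d : ℝ)) n a b = (t : ℝ) / d := by
    rw [ht]
    unfold sab
    push_cast
    field_simp
  unfold cab
  rw [hs, hcr]
  push_cast
  field_simp

/-- integrality -/
theorem integral {d : ℕ} (hd : 2 ≤ d) (n : ℕ) {A B : ℕ} (hA : 0 < A) :
    ∃ p q : ℤ, (p : ℝ) = (A : ℝ) ^ n * Ln d n * P (1 / (d : ℝ)) n ((B : ℝ) / A) ∧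
      (q : ℝ) = (A : ℝ) ^ n * Ln d n * Q (1 / (d : ℝ)) n ((B : ℝ) / A) := by
  have hA' : (A : ℝ) ≠ 0 := by exact_mod_cast hA.ne'
  have hz : ∀ a b : ℕ, ∃ z : ℤ, a ≤ n → b ≤ n → (z : ℝ) = Ln d n * cab (1 / (d : ℝ)) n a b := by
    intro a b
    by_cases h : a ≤ n ∧ b ≤ n
    · obtain ⟨z, hz⟩ := coef_int hd h.1 h.2
      exact ⟨z, fun _ _ => hz⟩
    · exact ⟨0, fun ha hb => absurd ⟨ha, hb⟩ h⟩
  choose z hz using hz
  refine ⟨∑ a ∈ range (n + 1), ∑ b ∈ range (n + 1), z a b * ((B : ℤ) ^ (n - b) * (A : ℤ) ^ b),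
    ∑ a ∈ range (n + 1), ∑ b ∈ range (n + 1), z a b * ((B : ℤ) ^ a * (A : ℤ) ^ (n - a)), ?_, ?_⟩
  · unfold P
    push_cast
    rw [mul_sum]
    refine sum_congr rfl fun a ha => ?_
    rw [mul_sum]
    refine sum_congr rfl fun b hb => ?_
    have ha' : a ≤ n := by have := mem_range.1 ha; omega
    have hb' : b ≤ n := by have := mem_range.1 hb; omega
    rw [hz a b ha' hb', div_pow]
    have e : (A : ℝ) ^ n = (A : ℝ) ^ (n - b) * (A : ℝ) ^ b := by
      rw [← pow_add]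
      congr 1
      omega
    rw [e]
    field_simp
  · unfold Q
    push_cast
    rw [mul_sum]
    refine sum_congr rfl fun a ha => ?_
    rw [mul_sum]
    refine sum_congr rfl fun b hb => ?_
    have ha' : a ≤ n := by have := mem_range.1 ha; omega
    have hb' : b ≤ n := by have := mem_range.1 hb; omega
    rw [hz a b ha' hb', div_pow]
    have e : (A : ℝ) ^ n = (A : ℝ) ^ a * (A : ℝ) ^ (n - a) := by
      rw [← pow_add]
      congr 1
      omega
    rw [e]
    field_simp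

end Pool.Agent.Lib.MP_65ca9f_nt.Pade
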