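import Pool.Agent.Lib.MP_65ca9f_nt.Pade

/-!
# Two consecutive Padé approximants are independent
-/

set_option autoImplicit false

namespace Pool.Agent.Lib.MP_65ca9f_nt.Pade

open Finset Polynomial Filter Topology

/-- partial fractions -/
theorem frac_sum (n : ℕ) : ∀ s : ℝ, (∀ c : ℕ, c ≤ n → s + c ≠ 0) →
    ∑ c ∈ range (n + 1), (-1) ^ c * (n.choose c : ℝ) / (s + c) =
      (n.factorial : ℝ) / ∏ c ∈ range (n + 1), (s + c) := by
  induction n with
  | zero =>
    intro s _
    simp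
  | succ n ih =>
    intro s hs
    have h1 := ih s fun c hc => hs c (by omega)
    have h2 := ih (s + 1) fun c hc => by
      have := hs (c + 1) (by omega)
      push_cast at this
      intro h
      exact this (by linarith)
    have e1 : ∑ c ∈ range (n + 1 + 1), (-1 : ℝ) ^ c * ((n + 1).choose c : ℝ) / (s + c) =
        ∑ c ∈ range (n + 1), (-1) ^ c * (n.choose c : ℝ) / (s + c) -
          ∑ c ∈ range (n + 1), (-1) ^ c * (n.choose c : ℝ) / (s + 1 + c) := by
      rw [sum_range_succ' _ (n + 1)]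
      have e2 : ∀ c : ℕ, (-1 : ℝ) ^ (c + 1) * ((n + 1).choose (c + 1) : ℝ) / (s + ((c + 1 : ℕ) : ℝ)) =
          (-1) ^ (c + 1) * (n.choose (c + 1) : ℝ) / (s + ((c + 1 : ℕ) : ℝ)) -
            (-1) ^ c * (n.choose c : ℝ) / (s + 1 + c) := by
        intro c
        rw [Nat.choose_succ_succ]
        push_cast
        have e3 : s + ((c : ℝ) + 1) = s + 1 + c := by ring
        rw [e3, pow_succ]
        ring
      simp only [e2]
      rw [sum_sub_distrib]
      have e4 : ∑ c ∈ range (n + 1), (-1 : ℝ) ^ (c + 1) * (n.choose (c + 1) : ℝ) /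
          (s + ((c + 1 : ℕ) : ℝ)) + (-1) ^ 0 * ((n + 1).choose 0 : ℝ) / (s + ((0 : ℕ) : ℝ)) =
          ∑ c ∈ range (n + 1), (-1) ^ c * (n.choose c : ℝ) / (s + c) := by
        rw [sum_range_succ _ n, sum_range_succ' (fun c => (-1 : ℝ) ^ c * (n.choose c : ℝ) / (s + c)) n]
        simp
      linarith
    rw [e1, h1, h2]
    have p1 : ∏ c ∈ range (n + 1 + 1), (s + c) = (∏ c ∈ range (n + 1), (s + c)) * (s + (n + 1)) := by
      rw [prod_range_succ]
      push_cast
      ring
    have p2 : ∏ c ∈ range (n + 1 + 1), (s + c) = (∏ c ∈ range (n + 1), (s + 1 + c)) * s := by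
      rw [prod_range_succ']
      simp only [Nat.cast_zero, add_zero]
      congr 1
      refine prod_congr rfl fun c _ => ?_
      push_cast
      ring
    have hne : ∏ c ∈ range (n + 1 + 1), (s + (c : ℝ)) ≠ 0 := by
      rw [prod_ne_zero_iff]
      intro c hc
      exact hs c (by have := mem_range.1 hc; omega)
    have hA : ∏ c ∈ range (n + 1), (s + (c : ℝ)) ≠ 0 := by
      intro h
      rw [p1, h, zero_mul] at hne
      exact hne rfl
    have hB : ∏ c ∈ range (n + 1), (s + 1 + (c : ℝ)) ≠ 0 := by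
      intro h
      rw [p2, h, zero_mul] at hne
      exact hne rfl
    have f1 : (n.factorial : ℝ) / ∏ c ∈ range (n + 1), (s + (c : ℝ)) =
        (n.factorial : ℝ) * (s + (n + 1)) / ∏ c ∈ range (n + 1 + 1), (s + (c : ℝ)) := by
      rw [div_eq_div_iff hA hne, p1]
      ring
    have f2 : (n.factorial : ℝ) / ∏ c ∈ range (n + 1), (s + 1 + (c : ℝ)) =
        (n.factorial : ℝ) * s / ∏ c ∈ range (n + 1 + 1), (s + (c : ℝ)) := by
      rw [div_eq_div_iff hB hne, p2]
      ring
    rw [f1, f2, ← sub_div, Nat.factorial_succ]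
    push_cast
    congr 1
    ring

/-- first polynomial -/
noncomputable def Pp (ν : ℝ) (n : ℕ) : ℝ[X] :=
  ∑ a ∈ range (n + 1), ∑ b ∈ range (n + 1), C (cab ν n a b) * X ^ (n - b)

/-- second polynomial -/
noncomputable def Qp (ν : ℝ) (n : ℕ) : ℝ[X] :=
  ∑ a ∈ range (n + 1), ∑ b ∈ range (n + 1), C (cab ν n a b) * X ^ a

theorem Pp_eval (ν : ℝ) (n : ℕ) (w : ℝ) : (Pp ν n).eval w = P ν n w := by
  unfold Pp P
  rw [eval_finsetSum]
  refine sum_congr rfl fun a _ => ?_
  rw [eval_finsetSum]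
  refine sum_congr rfl fun b _ => ?_
  simp

theorem Qp_eval (ν : ℝ) (n : ℕ) (w : ℝ) : (Qp ν n).eval w = Q ν n w := by
  unfold Qp Q
  rw [eval_finsetSum]
  refine sum_congr rfl fun a _ => ?_
  rw [eval_finsetSum]
  refine sum_congr rfl fun b _ => ?_
  simp

theorem Pp_deg (ν : ℝ) (n : ℕ) : (Pp ν n).natDegree ≤ n := by
  refine natDegree_sum_le_of_forall_le _ _ fun a _ => ?_
  refine natDegree_sum_le_of_forall_le _ _ fun b _ => ?_
  exact (natDegree_C_mul_X_pow_le _ _).trans (Nat.sub_le _ _)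

theorem Qp_deg (ν : ℝ) (n : ℕ) : (Qp ν n).natDegree ≤ n := by
  refine natDegree_sum_le_of_forall_le _ _ fun a ha => ?_
  refine natDegree_sum_le_of_forall_le _ _ fun b _ => ?_
  refine (natDegree_C_mul_X_pow_le _ _).trans ?_
  have := mem_range.1 ha
  omega

theorem Pp_coeff (ν : ℝ) (h0 : 0 < ν) (h1 : ν < 1) (n : ℕ) : (Pp ν n).coeff n =
    (-1) ^ n * ((n.factorial : ℝ) / ∏ c ∈ range (n + 1), (ν - n + c)) := by
  unfold Pp
  rw [finsetSum_coeff]
  have e1 : ∀ a ∈ range (n + 1), (∑ b ∈ range (n + 1), C (cab ν n a b) * X ^ (n - b)).coeff n =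
      (-1) ^ n * ((-1) ^ a * (n.choose a : ℝ) / (ν - n + a)) := by
    intro a _
    rw [finsetSum_coeff, sum_eq_single 0]
    · rw [coeff_C_mul, coeff_X_pow, if_pos (by omega), mul_one]
      unfold cab sab
      simp only [Nat.sub_zero, Nat.choose_zero_right, Nat.cast_one, mul_one, Nat.cast_zero]
      have : (a : ℝ) + 0 - n + ν = ν - n + a := by ring
      rw [this]
      ring
    · intro b hb hb0
      have := mem_range.1 hb
      rw [coeff_C_mul, coeff_X_pow, if_neg (by omega), mul_zero]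
    · intro h
      exact absurd (mem_range.2 (by omega)) h
  rw [sum_congr rfl e1, ← mul_sum, frac_sum]
  intro c hc h
  have := sab_ne h0 h1 n c 0
  unfold sab at this
  apply this
  push_cast
  linarith

theorem Qp_coeff (ν : ℝ) (h0 : 0 < ν) (n : ℕ) : (Qp ν n).coeff n =
    (n.factorial : ℝ) / ∏ c ∈ range (n + 1), (ν + c) := by
  unfold Qp
  rw [finsetSum_coeff, sum_eq_single n]
  · rw [finsetSum_coeff, ← frac_sum]
    · refine sum_congr rfl fun b hb => ?_
      have hb' : b ≤ n := by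
        have := mem_range.1 hb
        omega
      rw [coeff_C_mul, coeff_X_pow, if_pos rfl, mul_one]
      unfold cab sab
      rw [Nat.choose_self, Nat.cast_one, mul_one]
      have e1 : (-1 : ℝ) ^ n * (-1) ^ (n - b) = (-1) ^ b := by
        have : (-1 : ℝ) ^ n = (-1) ^ (n - b) * (-1) ^ b := by
          rw [← pow_add]
          congr 1
          omega
        rw [this, mul_right_comm, ← pow_add, ← two_mul, pow_mul]
        simp
      have e2 : (n : ℝ) + b - n + ν = ν + b := by ring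
      rw [e1, e2]
    · intro c _
      have : (0 : ℝ) ≤ c := Nat.cast_nonneg c
      linarith
  · intro a ha hne
    rw [finsetSum_coeff]
    refine sum_eq_zero fun b _ => ?_
    have := mem_range.1 ha
    rw [coeff_C_mul, coeff_X_pow, if_neg (by omega), mul_zero]
  · intro h
    exact absurd (mem_range.2 (by omega)) h

/-- the determinant polynomial has degree exactly `2n+1` -/
theorem coeff_W (ν : ℝ) (h0 : 0 < ν) (h1 : ν < 1) (n : ℕ) :
    (Pp ν n * Qp ν (n + 1) - Pp ν (n + 1) * Qp ν n).coeff (n + (n + 1)) ≠ 0 := by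
  have e1 : (Pp ν n * Qp ν (n + 1)).coeff (n + (n + 1)) =
      (Pp ν n).coeff n * (Qp ν (n + 1)).coeff (n + 1) :=
    coeff_mul_add_eq_of_natDegree_le (Pp_deg ν n) (Qp_deg ν (n + 1))
  have e2 : (Pp ν (n + 1) * Qp ν n).coeff (n + (n + 1)) =
      (Pp ν (n + 1)).coeff (n + 1) * (Qp ν n).coeff n := by
    rw [add_comm n (n + 1)]
    exact coeff_mul_add_eq_of_natDegree_le (Pp_deg ν (n + 1)) (Qp_deg ν n)
  rw [coeff_sub, e1, e2, Pp_coeff ν h0 h1, Pp_coeff ν h0 h1, Qp_coeff ν h0, Qp_coeff ν h0]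
  have p1 : ∏ c ∈ range (n + 1 + 1), (ν + (c : ℝ)) =
      (∏ c ∈ range (n + 1), (ν + (c : ℝ))) * (ν + n + 1) := by
    rw [prod_range_succ]
    push_cast
    ring
  have p2 : ∏ c ∈ range (n + 1 + 1), (ν - ((n + 1 : ℕ) : ℝ) + (c : ℝ)) =
      (∏ c ∈ range (n + 1), (ν - n + (c : ℝ))) * (ν - n - 1) := by
    rw [prod_range_succ']
    congr 1
    · refine prod_congr rfl fun c _ => ?_
      push_cast
      ring
    · push_cast
      ring
  rw [p1, p2]
  have hA : ∏ c ∈ range (n + 1), (ν + (c : ℝ)) ≠ 0 := by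
    rw [prod_ne_zero_iff]
    intro c _
    have : (0 : ℝ) ≤ c := Nat.cast_nonneg c
    linarith
  have hB : ∏ c ∈ range (n + 1), (ν - n + (c : ℝ)) ≠ 0 := by
    rw [prod_ne_zero_iff]
    intro c _ h
    have := sab_ne h0 h1 n c 0
    unfold sab at this
    apply this
    push_cast
    linarith
  have hn : (0 : ℝ) ≤ n := Nat.cast_nonneg n
  have hC : ν + n + 1 ≠ 0 := by linarith
  have hD : ν - n - 1 ≠ 0 := by
    intro h
    linarith
  have hf : (n.factorial : ℝ) ≠ 0 := by exact_mod_cast n.factorial_ne_zero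
  have key : (-1 : ℝ) ^ n * ((n.factorial : ℝ) / ∏ c ∈ range (n + 1), (ν - n + (c : ℝ))) *
      (((n + 1).factorial : ℝ) / ((∏ c ∈ range (n + 1), (ν + (c : ℝ))) * (ν + n + 1))) -
      (-1) ^ (n + 1) * (((n + 1).factorial : ℝ) /
        ((∏ c ∈ range (n + 1), (ν - n + (c : ℝ))) * (ν - n - 1))) *
      ((n.factorial : ℝ) / ∏ c ∈ range (n + 1), (ν + (c : ℝ))) =
      (-1) ^ n * (n.factorial : ℝ) ^ 2 * (n + 1) * (2 * ν) /
        ((∏ c ∈ range (n + 1), (ν - n + (c : ℝ))) * (∏ c ∈ range (n + 1), (ν + (c : ℝ))) *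
          ((ν + n + 1) * (ν - n - 1))) := by
    rw [Nat.factorial_succ, pow_succ]
    push_cast
    generalize (∏ c ∈ range (n + 1), (ν - n + (c : ℝ))) = B at *
    generalize (∏ c ∈ range (n + 1), (ν + (c : ℝ))) = A at *
    field_simp
    ring
  rw [key]
  refine div_ne_zero ?_ ?_
  · refine mul_ne_zero (mul_ne_zero (mul_ne_zero (pow_ne_zero _ (by norm_num))
      (pow_ne_zero _ hf)) (by linarith)) (by linarith)
  · exact mul_ne_zero (mul_ne_zero hB hA) (mul_ne_zero hC hD)

end Pool.Agent.Lib.MP_65ca9f_nt.Pade
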