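import Pool.Agent.Lib.MP_65ca9f_nt.Weights

/-!
# Tuples of small quality
-/

set_option autoImplicit false

namespace Pool.Agent.Lib.MP_65ca9f_nt

open Finset

/-- the bound for one of the first terms -/
theorem first_quality {k : ℕ} (hk : 3 ≤ k) {θ τ : ℝ} (hθ : 0 ≤ θ) (hτ : 0 ≤ τ)
    (h : ∀ m : ℕ, 1 ≤ m → m ≤ k →
      (m : ℝ) - 1 ≤ τ * (m * (2 * (k - 2 * (1 + θ)) + m - 1) / 2))
    {γ α β : Fin k → ℕ} {x A : ℝ} (h1 : wg β ≤ wg α + ss k) (h2 : wg γ ≤ x)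
    (h3 : wg α ≤ (1 + θ) * (A + (sg α + sg β) + (x - wg γ))) :
    ∃ i : Fin k, sg γ + (sg α + sg β - (α i + β i)) ≤
      max (2 / (k : ℝ)) (2 * τ * (1 + θ)) * x + τ * (2 * (1 + θ) * A + ss k) := by
  have hK : (3 : ℝ) ≤ k := by exact_mod_cast hk
  have hK0 : (0 : ℝ) < k := by linarith
  obtain ⟨i, hi⟩ := first_avg hk hτ h γ α β
  refine ⟨i, hi.trans ?_⟩
  have e1 : wg α + wg β - (k - (k - 2 * (1 + θ))) * (sg α + sg β) ≤
      2 * (1 + θ) * (A + (x - wg γ)) + ss k := by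
    have : (1 + θ) * (A + (sg α + sg β) + (x - wg γ)) =
      (1 + θ) * (A + (x - wg γ)) + (1 + θ) * (sg α + sg β) := by ring
    rw [this] at h3
    linarith
  have e2 := mul_le_mul_of_nonneg_left e1 hτ
  set E : ℝ := max (2 / (k : ℝ)) (2 * τ * (1 + θ)) with hE
  have m1 : 2 / (k : ℝ) ≤ E := le_max_left _ _
  have m2 : 2 * τ * (1 + θ) ≤ E := le_max_right _ _
  have a1 := k_sg_le γ
  have a2 := wg_nonneg γ
  have e3 : sg γ ≤ E * wg γ := by
    have f1 : sg γ ≤ wg γ / k := by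
      rw [le_div_iff₀ hK0, mul_comm]
      exact a1
    have f2 : wg γ / k ≤ 2 / (k : ℝ) * wg γ := by
      rw [div_mul_eq_mul_div]
      exact div_le_div_of_nonneg_right (by linarith) hK0.le
    exact f1.trans (f2.trans (mul_le_mul_of_nonneg_right m1 a2))
  have e4 : 2 * τ * (1 + θ) * (x - wg γ) ≤ E * (x - wg γ) :=
    mul_le_mul_of_nonneg_right m2 (by linarith)
  have e5 : τ * (2 * (1 + θ) * (A + (x - wg γ)) + ss k) =
    2 * τ * (1 + θ) * (x - wg γ) + τ * (2 * (1 + θ) * A + ss k) := by ring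
  rw [e5] at e2
  linarith

/-- the bound for the exponents -/
theorem exp_bound {k : ℕ} (hk : 3 ≤ k) {γ α β : Fin k → ℕ} {x θ A : ℝ} (hθ : 0 ≤ θ)
    (hθk : 2 * (1 + θ) < k) (h1 : wg β ≤ wg α + ss k) (h2 : wg γ ≤ x)
    (h3 : wg α ≤ (1 + θ) * (A + (sg α + sg β) + (x - wg γ))) :
    wg α ≤ (1 + θ) * k / (k - 2 * (1 + θ)) * (A + x + ss k) := by
  have hK : (3 : ℝ) ≤ k := by exact_mod_cast hk
  have a1 := k_sg_le α
  have a2 := k_sg_le β
  have a5 := wg_nonneg γ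
  have a6 := ss_nonneg k
  have hd : (0 : ℝ) < k - 2 * (1 + θ) := by linarith
  rw [div_mul_eq_mul_div, le_div_iff₀ hd]
  have b1 : (k : ℝ) * (A + (sg α + sg β) + (x - wg γ)) ≤
      k * A + (2 * wg α + ss k) + k * x := by
    have : 0 ≤ (k : ℝ) * wg γ := by positivity
    nlinarith
  have b2 : (1 + θ) * ((k : ℝ) * (A + (sg α + sg β) + (x - wg γ))) ≤
      (1 + θ) * (k * A + (2 * wg α + ss k) + k * x) :=
    mul_le_mul_of_nonneg_left b1 (by linarith)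
  have b3 : (k : ℝ) * wg α ≤ k * ((1 + θ) * (A + (sg α + sg β) + (x - wg γ))) :=
    mul_le_mul_of_nonneg_left h3 (by linarith)
  have b4 : (1 + θ) * ss k ≤ (1 + θ) * (k * ss k) :=
    mul_le_mul_of_nonneg_left (by nlinarith) (by linarith)
  nlinarith

/-- the number of tuples of small quality -/
theorem quality_count {k : ℕ} (hk : 3 ≤ k) {θ τ κ : ℝ} (hθ : 0 ≤ θ) (hθk : 2 * (1 + θ) < k)
    (hτ : 0 ≤ τ) (h : ∀ m : ℕ, 1 ≤ m → m ≤ k →
      (m : ℝ) - 1 ≤ τ * (m * (2 * (k - 2 * (1 + θ)) + m - 1) / 2)) (hκ : 0 ≤ κ)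
    {x : ℝ} (hx : 0 ≤ x) (S : Finset (Tp k)) (hS : ∀ z ∈ S, Rep ((2 : ℝ) ^ x) z ∧
      (W z.2.1 : ℝ) ≤ ((2 : ℝ) ^ κ * ((pr z.2.1 : ℝ) * pr z.2.2 *
        ((W z.2.1 : ℝ) - W z.2.2))) ^ (1 + θ)) :
    (S.card : ℝ) ≤ ((1 + θ) * k / (k - 2 * (1 + θ)) * x +
        ((1 + θ) * k / (k - 2 * (1 + θ)) * (2 * k + κ + ss k) + x + ss k + 1)) ^ (3 * k) *
      (2 * (2 : ℝ) ^ (max (2 / (k : ℝ)) (2 * τ * (1 + θ)) * x +
        (2 * k + ss k / k + τ * (2 * (1 + θ) * (2 * k + κ) + ss k)))) := by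
  have h0 : (0 : ℝ) < 2 := by norm_num
  have hs := ss_nonneg k
  have hK : (3 : ℝ) ≤ k := by exact_mod_cast hk
  have hK0 : (0 : ℝ) < k := by linarith
  set A : ℝ := 2 * k + κ with hA
  have hA0 : 0 ≤ A := by positivity
  have cons : ∀ z ∈ S, wg (lg z.2.2) ≤ wg (lg z.2.1) + ss k ∧ wg (lg z.1) ≤ x ∧
      wg (lg z.2.1) ≤ (1 + θ) * (A + (sg (lg z.2.1) + sg (lg z.2.2)) +
        (x - wg (lg z.1))) := by
    intro z hz
    obtain ⟨hR, hQ⟩ := hS z hz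
    have hok := hR.ok
    obtain ⟨c1, c2, c3⟩ := constr hok
    refine ⟨c1, c2, ?_⟩
    obtain ⟨-, k2, k3, -, k5, -⟩ := hok
    have hpos : (0 : ℝ) ≤ (W z.2.1 : ℝ) - W z.2.2 := by
      have : (W z.2.2 : ℝ) ≤ W z.2.1 := by exact_mod_cast k5.le
      linarith
    have q1 := le_W k2
    have q2 := pr_lt k2
    have q3 := pr_lt k3
    have q4 : (2 : ℝ) ^ κ * ((pr z.2.1 : ℝ) * pr z.2.2 * ((W z.2.1 : ℝ) - W z.2.2)) ≤
        (2 : ℝ) ^ (A + (sg (lg z.2.1) + sg (lg z.2.2)) + (x - wg (lg z.1))) := by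
      have e1 : (2 : ℝ) ^ (A + (sg (lg z.2.1) + sg (lg z.2.2)) + (x - wg (lg z.1))) =
          (2 : ℝ) ^ κ * ((2 : ℝ) ^ ((k : ℝ) + sg (lg z.2.1)) * (2 : ℝ) ^ ((k : ℝ) + sg (lg z.2.2)) *
            (2 : ℝ) ^ (x - wg (lg z.1))) := by
        rw [← Real.rpow_add h0, ← Real.rpow_add h0, ← Real.rpow_add h0]
        congr 1
        rw [hA]
        ring
      rw [e1]
      refine mul_le_mul_of_nonneg_left ?_ (by positivity)
      exact mul_le_mul (mul_le_mul q2 q3 (Nat.cast_nonneg _) (by positivity)) c3 hpos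
        (by positivity)
    have q5 : ((2 : ℝ) ^ κ * ((pr z.2.1 : ℝ) * pr z.2.2 *
        ((W z.2.1 : ℝ) - W z.2.2))) ^ (1 + θ) ≤
        (2 : ℝ) ^ ((1 + θ) * (A + (sg (lg z.2.1) + sg (lg z.2.2)) + (x - wg (lg z.1)))) := by
      have e2 := Real.rpow_le_rpow (mul_nonneg (by positivity) (mul_nonneg (mul_nonneg
        (Nat.cast_nonneg _) (Nat.cast_nonneg _)) hpos)) q4 (by positivity : (0 : ℝ) ≤ 1 + θ)
      rw [← Real.rpow_mul h0.le] at e2
      rw [mul_comm (1 + θ)]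
      exact e2
    exact (Real.rpow_le_rpow_left_iff (by norm_num : (1 : ℝ) < 2)).1 (q1.trans (hQ.trans q5))
  set L : ℝ := (1 + θ) * k / (k - 2 * (1 + θ)) with hL
  have hL0 : 0 ≤ L := div_nonneg (by positivity) (by linarith)
  set Mr : ℝ := L * (A + x + ss k) + x + ss k with hMr
  have hMr0 : 0 ≤ Mr := by positivity
  have main := assemble S ⌊Mr⌋₊ (B := 2 * (2 : ℝ) ^ (max (2 / (k : ℝ)) (2 * τ * (1 + θ)) * x +
        (2 * k + ss k / k + τ * (2 * (1 + θ) * A + ss k))))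
    (by positivity) ?_ ?_
  · refine main.trans (mul_le_mul_of_nonneg_right ?_ (by positivity))
    refine pow_le_pow_left₀ (by positivity) ?_ _
    have := Nat.floor_le hMr0
    rw [hMr] at this ⊢
    linarith
  · intro z hz l
    obtain ⟨c1, c2, c3⟩ := cons z hz
    have c4 := exp_bound hk hθ hθk c1 c2 c3
    rw [← hL] at c4
    have hkp : 0 < k := by omega
    have c5 : 0 ≤ L * (A + x + ss k) := by positivity
    refine ⟨Nat.le_floor ?_, Nat.le_floor ?_, Nat.le_floor ?_⟩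
    · have := le_wg hkp (lg z.1) l
      rw [hMr]
      linarith
    · have := le_wg hkp (lg z.2.1) l
      rw [hMr]
      linarith
    · have := le_wg hkp (lg z.2.2) l
      rw [hMr]
      linarith
  · intro z hz T hT hTz
    refine box_final (γ := lg z.1) (α := lg z.2.1) (β := lg z.2.2) (x := x) hk T ?_ ?_ ?_
    · intro y hy
      obtain ⟨t1, t2, t3⟩ := hTz y hy
      have := (hS y (hT hy)).1.ok
      rw [t1, t2, t3] at this
      exact this
    · intro _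
      obtain ⟨c1, c2, c3⟩ := cons z hz
      obtain ⟨i, hi⟩ := first_quality hk hθ hτ h c1 c2 c3
      have e1 : 0 ≤ ss k / k := by positivity
      exact ⟨i, by linarith⟩
    · have e1 : 2 / (k : ℝ) * x ≤ max (2 / (k : ℝ)) (2 * τ * (1 + θ)) * x :=
        mul_le_mul_of_nonneg_right (le_max_left _ _) hx
      have e2 : 0 ≤ τ * (2 * (1 + θ) * A + ss k) := by positivity
      linarith

end Pool.Agent.Lib.MP_65ca9f_nt
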