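import Pool.Agent.Lib.MP_65ca9f_nt.Asm

/-!
# From representations to tuples, and an asymptotic inequality
-/

set_option autoImplicit false

namespace Pool.Agent.Lib.MP_65ca9f_nt

open Finset Filter

/-- a representation gives a tuple -/
theorem reduce {k N n₁ n₂ : ℕ} (hk : 0 < k) (hN : 0 < N) (h1 : Pw k n₁) (h2 : Pw k n₂)
    (h : N + n₂ = n₁) :
    ∃ z : Tp k, Rep (N : ℝ) z ∧ W z.1 * W z.2.1 = n₁ ∧ W z.1 * W z.2.2 = n₂ := by
  obtain ⟨a, ha, rfl⟩ := exists_rep hk h1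
  obtain ⟨b, hb, rfl⟩ := exists_rep hk h2
  have hg : ∀ l, 0 < Nat.gcd (a l) (b l) := fun l => Nat.gcd_pos_of_pos_left _ (ha l)
  have e1 : W (fun l => Nat.gcd (a l) (b l)) * W (fun l => a l / Nat.gcd (a l) (b l)) = W a := by
    rw [← W_mul]
    congr 1
    funext l
    exact Nat.mul_div_cancel' (Nat.gcd_dvd_left _ _)
  have e2 : W (fun l => Nat.gcd (a l) (b l)) * W (fun l => b l / Nat.gcd (a l) (b l)) = W b := by
    rw [← W_mul]
    congr 1
    funext l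
    exact Nat.mul_div_cancel' (Nat.gcd_dvd_right _ _)
  have hW : 0 < W (fun l => Nat.gcd (a l) (b l)) := W_pos hg
  refine ⟨(fun l => Nat.gcd (a l) (b l), fun l => a l / Nat.gcd (a l) (b l),
    fun l => b l / Nat.gcd (a l) (b l)), ⟨hg, fun l => ?_, fun l => ?_, fun l => ?_, ?_, ?_⟩,
    e1, e2⟩
  · exact Nat.div_pos (Nat.le_of_dvd (ha l) (Nat.gcd_dvd_left _ _)) (hg l)
  · exact Nat.div_pos (Nat.le_of_dvd (hb l) (Nat.gcd_dvd_right _ _)) (hg l)
  · exact Nat.coprime_div_gcd_div_gcd (hg l)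
  · refine Nat.lt_of_mul_lt_mul_left (a := W (fun l => Nat.gcd (a l) (b l))) ?_
    rw [e1, e2]
    omega
  · rw [mul_sub]
    have f1 : (W (fun l => Nat.gcd (a l) (b l)) : ℝ) * (W (fun l => a l / Nat.gcd (a l) (b l)) : ℝ)
        = (W a : ℝ) := by exact_mod_cast e1
    have f2 : (W (fun l => Nat.gcd (a l) (b l)) : ℝ) * (W (fun l => b l / Nat.gcd (a l) (b l)) : ℝ)
        = (W b : ℝ) := by exact_mod_cast e2
    rw [f1, f2]
    have f3 : (N : ℝ) + W b = W a := by exact_mod_cast h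
    linarith

theorem Rep.mono {k : ℕ} {X Y : ℝ} {z : Tp k} (h : Rep X z) (hXY : X ≤ Y) : Rep Y z :=
  ⟨h.1, h.2.1, h.2.2.1, h.2.2.2.1, h.2.2.2.2.1, h.2.2.2.2.2.trans hXY⟩

/-- the quality passes to the tuple -/
theorem reduce_quality {k : ℕ} {z : Tp k} {X : ℝ} (hz : Rep X z) {θ K : ℝ} (hθ : 0 ≤ θ)
    (hK : 1 ≤ K) {g u v w : ℕ} (huv : Nat.Coprime u v) (hg : 0 < g) (hu : 0 < u) (hv : 0 < v)
    (hw : 0 < w) (huvw : v + w = u) (e1 : W z.1 * W z.2.1 = g * u) (e2 : W z.1 * W z.2.2 = g * v)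
    (hq : (u : ℝ) ≤ K * ((∏ p ∈ (u * v * w).primeFactors, p : ℕ) : ℝ) ^ (1 + θ)) :
    (W z.2.1 : ℝ) ≤ (K * ((pr z.2.1 : ℝ) * pr z.2.2 *
      ((W z.2.1 : ℝ) - W z.2.2))) ^ (1 + θ) := by
  obtain ⟨hz1, hz2, hz3, -, hz5, -⟩ := hz
  have hG : 0 < W z.1 := W_pos hz1
  have hA : 0 < W z.2.1 := W_pos hz2
  have hB : 0 < W z.2.2 := W_pos hz3
  set h := Nat.gcd (W z.2.1) (W z.2.2) with hh
  have hh0 : 0 < h := Nat.gcd_pos_of_pos_left _ hA
  have e3 : g = W z.1 * h := by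
    have f1 : Nat.gcd (g * u) (g * v) = g := by
      rw [Nat.gcd_mul_left, Nat.Coprime.gcd_eq_one huv, mul_one]
    rw [← f1, ← e1, ← e2, Nat.gcd_mul_left]
  have e4 : W z.2.1 = h * u := by
    rw [e3, mul_assoc] at e1
    exact Nat.eq_of_mul_eq_mul_left hG e1
  have e5 : W z.2.2 = h * v := by
    rw [e3, mul_assoc] at e2
    exact Nat.eq_of_mul_eq_mul_left hG e2
  have e6 : (W z.2.1 : ℝ) - W z.2.2 = h * w := by
    rw [e4, e5, ← huvw]
    push_cast
    ring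
  have r1 : ∏ p ∈ (u * v * w).primeFactors, p ≤ pr z.2.1 * pr z.2.2 * w := by
    refine (rad_mul_le (u * v) w (Nat.mul_pos hu hv).ne' hw.ne').trans ?_
    refine Nat.mul_le_mul ?_ (rad_le hw)
    refine (rad_mul_le u v hu.ne' hv.ne').trans ?_
    refine Nat.mul_le_mul ?_ ?_
    · refine (rad_mono (m := u) (n := W z.2.1) ?_ hA.ne').trans (rad_W_le hz2)
      rw [e4]
      exact Dvd.intro_left _ rfl
    · refine (rad_mono (m := v) (n := W z.2.2) ?_ hB.ne').trans (rad_W_le hz3)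
      rw [e5]
      exact Dvd.intro_left _ rfl
  have r2 : ((∏ p ∈ (u * v * w).primeFactors, p : ℕ) : ℝ) ≤ (pr z.2.1 : ℝ) * pr z.2.2 * w := by
    exact_mod_cast r1
  have hhr : (1 : ℝ) ≤ h := by exact_mod_cast hh0
  have hhK : (1 : ℝ) ≤ h * K := by nlinarith
  calc (W z.2.1 : ℝ) = h * u := by
        rw [e4]
        push_cast
        ring
    _ ≤ h * (K * ((∏ p ∈ (u * v * w).primeFactors, p : ℕ) : ℝ) ^ (1 + θ)) :=
        mul_le_mul_of_nonneg_left hq (by linarith)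
    _ ≤ h * (K * ((pr z.2.1 : ℝ) * pr z.2.2 * w) ^ (1 + θ)) := by
        refine mul_le_mul_of_nonneg_left (mul_le_mul_of_nonneg_left ?_ (by linarith)) (by linarith)
        exact Real.rpow_le_rpow (Nat.cast_nonneg _) r2 (by linarith)
    _ = (h * K) ^ (1 : ℝ) * ((pr z.2.1 : ℝ) * pr z.2.2 * w) ^ (1 + θ) := by
        rw [Real.rpow_one]
        ring
    _ ≤ (h * K) ^ (1 + θ) * ((pr z.2.1 : ℝ) * pr z.2.2 * w) ^ (1 + θ) := by
        refine mul_le_mul_of_nonneg_right ?_ (by positivity)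
        exact Real.rpow_le_rpow_of_exponent_le hhK (by linarith)
    _ = _ := by
        rw [← Real.mul_rpow (by positivity) (by positivity), e6]
        congr 1
        ring

/-- powers of logarithms are small -/
theorem asym {A B : ℝ} (hA : 0 ≤ A) (hB : 0 ≤ B) (n : ℕ) {K δ : ℝ} (hK : 0 ≤ K) (hδ : 0 < δ) :
    ∀ᶠ x : ℝ in atTop, (A * x + B) ^ n * K ≤ (2 : ℝ) ^ (δ * x) := by
  have h1 : 0 < δ * Real.log 2 := mul_pos hδ (Real.log_pos (by norm_num))
  have h2 := (isLittleO_pow_exp_pos_mul_atTop n h1).bound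
    (c := 1 / ((A + B) ^ n * K + 1)) (by positivity)
  filter_upwards [h2, eventually_ge_atTop 1] with x hx hx1
  rw [Real.norm_eq_abs, Real.norm_eq_abs, abs_of_nonneg (by positivity),
    abs_of_pos (Real.exp_pos _)] at hx
  have e1 : (2 : ℝ) ^ (δ * x) = Real.exp (δ * Real.log 2 * x) := by
    rw [Real.rpow_def_of_pos (by norm_num)]
    congr 1
    ring
  rw [e1]
  have e2 : (A * x + B) ^ n ≤ ((A + B) * x) ^ n := by
    refine pow_le_pow_left₀ (by positivity) ?_ n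
    nlinarith
  have e3 : (A * x + B) ^ n * K ≤ (A + B) ^ n * K * x ^ n := by
    rw [mul_pow] at e2
    nlinarith [mul_le_mul_of_nonneg_right e2 hK]
  refine e3.trans ?_
  have e4 : (A + B) ^ n * K * x ^ n ≤ (A + B) ^ n * K *
      (1 / ((A + B) ^ n * K + 1) * Real.exp (δ * Real.log 2 * x)) :=
    mul_le_mul_of_nonneg_left hx (by positivity)
  refine e4.trans ?_
  have e5 : (A + B) ^ n * K * (1 / ((A + B) ^ n * K + 1)) ≤ 1 := by
    rw [mul_one_div, div_le_one (by positivity)]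
    linarith
  calc (A + B) ^ n * K * (1 / ((A + B) ^ n * K + 1) * Real.exp (δ * Real.log 2 * x)) =
        (A + B) ^ n * K * (1 / ((A + B) ^ n * K + 1)) * Real.exp (δ * Real.log 2 * x) := by ring
    _ ≤ 1 * Real.exp (δ * Real.log 2 * x) :=
        mul_le_mul_of_nonneg_right e5 (Real.exp_pos _).le
    _ = _ := one_mul _

/-- the asymptotic inequality in terms of natural numbers -/
theorem asym_nat {A B : ℝ} (hA : 0 ≤ A) (hB : 0 ≤ B) (n : ℕ) {K δ : ℝ} (hK : 0 ≤ K) (hδ : 0 < δ) :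
    ∃ X₀ : ℕ, ∀ X : ℕ, X₀ ≤ X → ∃ x : ℝ, 0 ≤ x ∧ (2 : ℝ) ^ x = X ∧
      (A * x + B) ^ n * K ≤ (2 : ℝ) ^ (δ * x) := by
  have h1 : Tendsto (fun X : ℕ => Real.logb 2 (X : ℝ)) atTop atTop :=
    (Real.tendsto_logb_atTop (by norm_num)).comp tendsto_natCast_atTop_atTop
  obtain ⟨X₀, hX₀⟩ := ((h1.eventually (asym hA hB n hK hδ)).and
    (h1.eventually (eventually_ge_atTop 0))).exists_forall_of_atTop
  refine ⟨max X₀ 1, fun X hX => ⟨Real.logb 2 X, ?_, ?_, ?_⟩⟩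
  · exact (hX₀ X ((le_max_left _ _).trans hX)).2
  · have hX1 : 1 ≤ X := (le_max_right _ _).trans hX
    exact Real.rpow_logb (by norm_num) (by norm_num) (by exact_mod_cast hX1)
  · exact (hX₀ X ((le_max_left _ _).trans hX)).1

/-- choosing one tuple for each number -/
theorem choose_tuples {k : ℕ} (I : Finset ℕ) (Q : Tp k → Prop)
    (h : ∀ N ∈ I, ∃ z : Tp k, Q z ∧ N + W z.1 * W z.2.2 = W z.1 * W z.2.1) :
    ∃ S : Finset (Tp k), S.card = I.card ∧ ∀ z ∈ S, Q z := by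
  classical
  choose! f hf using h
  refine ⟨I.image f, card_image_of_injOn ?_, ?_⟩
  · intro N hN M hM hNM
    have h1 := (hf N hN).2
    have h2 := (hf M hM).2
    rw [hNM] at h1
    omega
  · intro z hz
    obtain ⟨N, hN, rfl⟩ := mem_image.1 hz
    exact (hf N hN).1

end Pool.Agent.Lib.MP_65ca9f_nt
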