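import Pool.Agent.Lib.MP_65ca9f_nt.Unb
import Pool.Agent.Lib.MP_65ca9f_nt.Reduce

/-!
# From representations to tuples, second version
-/

set_option autoImplicit false

namespace Pool.Agent.Lib.MP_65ca9f_nt

open Finset Filter

/-- a representation gives a tuple with smaller coordinates -/
theorem reduce' {k N : ℕ} (hN : 0 < N) {a b : Fin k → ℕ} (ha : ∀ l, 0 < a l)
    (hb : ∀ l, 0 < b l) (h : N + W b = W a) :
    ∃ z : Tp k, Rep (N : ℝ) z ∧ W z.1 * W z.2.1 = W a ∧ W z.1 * W z.2.2 = W b ∧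
      (∀ l, z.2.1 l ≤ a l) ∧ (∀ l, z.2.2 l ≤ b l) := by
  have hg : ∀ l, 0 < Nat.gcd (a l) (b l) := fun l => Nat.gcd_pos_of_pos_left _ (ha l)
  have e1 : W (fun l => Nat.gcd (a l) (b l)) * W (fun l => a l / Nat.gcd (a l) (b l)) = W a := by
    rw [← W_mul]
    congr 1
    funext l
    exact Nat.mul_div_cancel' (Nat.gcd_dvd_left _ _)
  have e2 : W (fun l => Nat.gcd (a l) (b l)) * W (fun l => b l / Nat.gcd (a l) (b l)) = W b := by
    rw [← W_mul]
    congr 1
    funext l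
    exact Nat.mul_div_cancel' (Nat.gcd_dvd_right _ _)
  have hW : 0 < W (fun l => Nat.gcd (a l) (b l)) := W_pos hg
  refine ⟨(fun l => Nat.gcd (a l) (b l), fun l => a l / Nat.gcd (a l) (b l),
    fun l => b l / Nat.gcd (a l) (b l)), ⟨hg, fun l => ?_, fun l => ?_, fun l => ?_, ?_, ?_⟩,
    e1, e2, fun l => Nat.div_le_self _ _, fun l => Nat.div_le_self _ _⟩
  · exact Nat.div_pos (Nat.le_of_dvd (ha l) (Nat.gcd_dvd_left _ _)) (hg l)
  · exact Nat.div_pos (Nat.le_of_dvd (hb l) (Nat.gcd_dvd_right _ _)) (hg l)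
  · exact Nat.coprime_div_gcd_div_gcd (hg l)
  · refine Nat.lt_of_mul_lt_mul_left (a := W (fun l => Nat.gcd (a l) (b l))) ?_
    rw [e1, e2]
    omega
  · rw [mul_sub]
    have f1 : (W (fun l => Nat.gcd (a l) (b l)) : ℝ) * (W (fun l => a l / Nat.gcd (a l) (b l)) : ℝ)
        = (W a : ℝ) := by exact_mod_cast e1
    have f2 : (W (fun l => Nat.gcd (a l) (b l)) : ℝ) * (W (fun l => b l / Nat.gcd (a l) (b l)) : ℝ)
        = (W b : ℝ) := by exact_mod_cast e2
    rw [f1, f2]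
    have f3 : (N : ℝ) + W b = W a := by exact_mod_cast h
    linarith

/-- choosing one tuple for each number -/
theorem choose_tuples' {k : ℕ} (I : Finset ℕ) (Q : Tp k → Prop)
    (h : ∀ N ∈ I, ∃ z : Tp k, Q z ∧ N + W z.1 * W z.2.2 = W z.1 * W z.2.1) :
    ∃ S : Finset (Tp k), S.card = I.card ∧ Set.InjOn Nv (S : Set (Tp k)) ∧ ∀ z ∈ S, Q z := by
  classical
  choose! f hf using h
  have hNv : ∀ N ∈ I, Nv (f N) = N := by
    intro N hN
    have h1 := (hf N hN).2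
    unfold Nv
    rw [Nat.mul_sub]
    omega
  refine ⟨I.image f, card_image_of_injOn ?_, ?_, ?_⟩
  · intro N hN M hM hNM
    rw [← hNv N hN, ← hNv M hM, hNM]
  · intro z hz y hy hzy
    rw [mem_coe] at hz hy
    obtain ⟨N, hN, rfl⟩ := mem_image.1 hz
    obtain ⟨M, hM, rfl⟩ := mem_image.1 hy
    rw [hNv N hN, hNv M hM] at hzy
    rw [hzy]
  · intro z hz
    obtain ⟨N, hN, rfl⟩ := mem_image.1 hz
    exact (hf N hN).1

end Pool.Agent.Lib.MP_65ca9f_nt
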