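import Pool.Agent.Lib.MP_65ca9f_nt.Thue

/-!
# At most three large solutions
-/

set_option autoImplicit false

namespace Pool.Agent.Lib.MP_65ca9f_nt.Thue

open Finset Pade

section
variable {d U V : ℕ} {Y : ℝ} {p q : ℕ × ℕ}

/-- two large solutions cannot have very different sizes -/
theorem no_big_ratio (hd : 3 ≤ d) (hU : 0 < U) (hV : 0 < V) (hY : 1 ≤ Y) (hp : Sol d U V Y p)
    (hq : Sol d U V Y q) (h1 : 90 * (7 * (d : ℝ) + 2) ≤ ht d U p)
    (h2 : 90 * Real.log Y ≤ ht d U p) (h3 : 13 / 2 * ht d U p ≤ ht d U q) : False := by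
  have hd3 : (3 : ℝ) ≤ d := by exact_mod_cast hd
  have hd0 : (0 : ℝ) < d := by linarith
  have hlY : 0 ≤ Real.log Y := Real.log_nonneg hY
  set h : ℝ := ht d U p with hh
  set g : ℝ := ht d U q with hg
  have hpos : 0 < h := by linarith
  have hHn : 0 < U * p.1 ^ d := Nat.mul_pos hU (pow_pos hp.pos1 d)
  have hH : (0 : ℝ) < ((U * p.1 ^ d : ℕ) : ℝ) := by exact_mod_cast hHn
  have hHp : ((U * p.1 ^ d : ℕ) : ℝ) = Real.exp h := by
    rw [hh]
    unfold ht
    rw [Real.exp_log hH]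
  have h2Y : 2 * Y ≤ ((U * p.1 ^ d : ℕ) : ℝ) := by
    rw [hHp]
    have e1 : (2 : ℝ) ≤ Real.exp 1 := by
      have := Real.exp_one_gt_d9
      linarith
    calc 2 * Y ≤ Real.exp 1 * Real.exp (Real.log Y) := by
          rw [Real.exp_log (by linarith)]
          exact mul_le_mul_of_nonneg_right e1 (by linarith)
      _ = Real.exp (1 + Real.log Y) := (Real.exp_add _ _).symm
      _ ≤ Real.exp h := Real.exp_le_exp.2 (by linarith)
  -- the choice of `n`
  set n : ℕ := ⌊(g / h - 1.933) / 2.9⌋₊ + 1 with hn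
  have hlam : 13 / 2 ≤ g / h := by
    rw [le_div_iff₀ hpos]
    exact h3
  have hx0 : 0 ≤ (g / h - 1.933) / 2.9 := div_nonneg (by linarith) (by norm_num)
  have n1 : (g / h - 1.933) / 2.9 ≤ n := by
    rw [hn]
    push_cast
    exact (Nat.lt_floor_add_one _).le
  have n2 : (n : ℝ) ≤ (g / h - 1.933) / 2.9 + 1 := by
    rw [hn]
    push_cast
    have := Nat.floor_le hx0
    linarith
  have hA : g ≤ h * (2.9 * n + 1.933) := by
    have : g / h ≤ 2.9 * n + 1.933 := by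
      rw [div_le_iff₀ (by norm_num : (0 : ℝ) < 2.9)] at n1
      linarith
    rw [div_le_iff₀ hpos] at this
    linarith
  have hB : h * (1.5167 * (n + 1) + 0.534) ≤ g := by
    have : 1.5167 * ((n : ℝ) + 1) + 0.534 ≤ g / h := by
      have e1 : (g / h - 1.933) / 2.9 = g / h / 2.9 - 1.933 / 2.9 := by ring
      rw [e1] at n2
      have e2 : g / h / 2.9 = (1 / 2.9) * (g / h) := by ring
      rw [e2] at n2
      norm_num at n2 ⊢
      linarith
    rw [le_div_iff₀ hpos] at this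
    linarith
  have hn0 : (0 : ℝ) ≤ n := Nat.cast_nonneg n
  have hdiv : (h + g) / d ≤ (h + g) / 3 :=
    div_le_div_of_nonneg_left (by linarith) (by norm_num) hd3
  have T1 : ∀ m : ℝ, 0 ≤ m → g ≤ h * (2.9 * m + 1.933) → (h + g) / d + m * h +
      (7 * d + 2) * (m + 1) + (2 * m + 1) * (Real.log Y - h) ≤ 0 := by
    intro m hm hg'
    have e1 : (7 * (d : ℝ) + 2) * (m + 1) ≤ h / 90 * (m + 1) :=
      mul_le_mul_of_nonneg_right (by linarith) (by linarith)
    have e2 : (2 * m + 1) * (Real.log Y - h) ≤ (2 * m + 1) * (h / 90 - h) :=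
      mul_le_mul_of_nonneg_left (by linarith) (by linarith)
    nlinarith [mul_nonneg hpos.le hm]
  have T2 : ∀ m : ℝ, 0 ≤ m → h * (1.5167 * m + 0.534) ≤ g → (h + g) / d + m * h +
      (7 * d + 2) * (m + 1) + Real.log Y - g ≤ 0 := by
    intro m hm hg'
    have e1 : (7 * (d : ℝ) + 2) * (m + 1) ≤ h / 90 * (m + 1) :=
      mul_le_mul_of_nonneg_right (by linarith) (by linarith)
    nlinarith [mul_nonneg hpos.le hm]
  have hn1 : (((n + 1 : ℕ) : ℕ) : ℝ) = (n : ℝ) + 1 := by push_cast; ring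
  have s1 := step hd hU hV hY hp hq h2Y n (T1 n hn0 hA)
    (T2 n hn0 (by nlinarith))
  have s2 := step hd hU hV hY hp hq h2Y (n + 1)
    (by
      rw [hn1]
      exact T1 _ (by linarith) (by nlinarith))
    (by
      rw [hn1]
      exact T2 _ (by linarith) hB)
  have hw1 : ((V * p.2 ^ d : ℕ) : ℝ) / (U * p.1 ^ d : ℕ) ≠ 1 := by
    have : ((V * p.2 ^ d : ℕ) : ℝ) < ((U * p.1 ^ d : ℕ) : ℝ) := by exact_mod_cast hp.lt
    exact ((div_lt_one hH).2 this).ne
  have hind := indep (d := d) (by omega) n hw1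
  have hp1 : (0 : ℝ) < p.1 := by exact_mod_cast hp.pos1
  have hp2 : (0 : ℝ) < p.2 := by exact_mod_cast hp.pos2
  have hq1 : (0 : ℝ) < q.1 := by exact_mod_cast hq.pos1
  have hq2 : (0 : ℝ) < q.2 := by exact_mod_cast hq.pos2
  generalize P (1 / (d : ℝ)) n (((V * p.2 ^ d : ℕ) : ℝ) / (U * p.1 ^ d : ℕ)) = P0 at *
  generalize Q (1 / (d : ℝ)) n (((V * p.2 ^ d : ℕ) : ℝ) / (U * p.1 ^ d : ℕ)) = Q0 at *
  generalize P (1 / (d : ℝ)) (n + 1) (((V * p.2 ^ d : ℕ) : ℝ) / (U * p.1 ^ d : ℕ)) = P1 at *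
  generalize Q (1 / (d : ℝ)) (n + 1) (((V * p.2 ^ d : ℕ) : ℝ) / (U * p.1 ^ d : ℕ)) = Q1 at *
  apply hind
  have hc : (q.2 : ℝ) * p.1 * (q.1 * p.2) ≠ 0 := by positivity
  have e : (q.2 : ℝ) * p.1 * (q.1 * p.2) * (P0 * Q1) = q.2 * p.1 * (q.1 * p.2) * (P1 * Q0) := by
    calc (q.2 : ℝ) * p.1 * (q.1 * p.2) * (P0 * Q1) = (q.2 * p.1 * P0) * (q.1 * p.2 * Q1) := by ring
      _ = (q.1 * p.2 * Q0) * (q.2 * p.1 * P1) := by rw [s1, s2]
      _ = _ := by ring
  exact mul_left_cancel₀ hc e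

/-- at most three large solutions -/
theorem three (hd : 3 ≤ d) (hU : 0 < U) (hV : 0 < V) (hY : 1 ≤ Y) (T : Finset (ℕ × ℕ))
    (hT : ∀ p ∈ T, Sol d U V Y p ∧ 90 * (7 * (d : ℝ) + 2) ≤ ht d U p ∧
      90 * Real.log Y ≤ ht d U p) : T.card ≤ 3 := by
  classical
  by_contra hcard
  push Not at hcard
  have hd3 : (3 : ℝ) ≤ d := by exact_mod_cast hd
  have hd0 : (0 : ℝ) < d := by linarith
  have gap' : ∀ p ∈ T, ∀ q ∈ T, p ≠ q → ht d U p ≤ ht d U q → 59 / 30 * ht d U p ≤ ht d U q := by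
    intro p hp q hq hne hle
    obtain ⟨s1, l1, y1⟩ := hT p hp
    obtain ⟨s2, l2, y2⟩ := hT q hq
    have g1 := gap hd hU hV hY s1 s2 hne hle
    have hpos : 0 < ht d U p := by linarith
    have g2 : (ht d U p + ht d U q) / d ≤ (ht d U p + ht d U q) / 3 :=
      div_le_div_of_nonneg_left (by linarith) (by norm_num) hd3
    linarith
  obtain ⟨p1, hp1, m1⟩ := T.exists_min_image (ht d U) (card_pos.1 (by omega))
  obtain ⟨p2, hp2, m2⟩ := (T.erase p1).exists_min_image (ht d U)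
    (card_pos.1 (by rw [card_erase_of_mem hp1]; omega))
  have c2 : ((T.erase p1).erase p2).card = T.card - 2 := by
    rw [card_erase_of_mem hp2, card_erase_of_mem hp1]
    omega
  obtain ⟨p3, hp3, m3⟩ := ((T.erase p1).erase p2).exists_min_image (ht d U)
    (card_pos.1 (by omega))
  have c3 : (((T.erase p1).erase p2).erase p3).card = T.card - 3 := by
    rw [card_erase_of_mem hp3, c2]
    omega
  obtain ⟨p4, hp4⟩ := card_pos.1 (by omega : 0 < (((T.erase p1).erase p2).erase p3).card)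
  have t2 : p2 ∈ T := mem_of_mem_erase hp2
  have t3 : p3 ∈ T := mem_of_mem_erase (mem_of_mem_erase hp3)
  have t4' : p4 ∈ (T.erase p1).erase p2 := mem_of_mem_erase hp4
  have t4 : p4 ∈ T := mem_of_mem_erase (mem_of_mem_erase t4')
  have g12 := gap' p1 hp1 p2 t2 (ne_of_mem_erase hp2).symm (m1 p2 t2)
  have g23 := gap' p2 t2 p3 t3 (ne_of_mem_erase hp3).symm (m2 p3 (mem_of_mem_erase hp3))
  have g34 := gap' p3 t3 p4 t4 (ne_of_mem_erase hp4).symm (m3 p4 t4')
  obtain ⟨s1, l1, y1⟩ := hT p1 hp1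
  obtain ⟨s4, -, -⟩ := hT p4 t4
  have hpos : 0 < ht d U p1 := by linarith
  exact no_big_ratio hd hU hV hY s1 s4 l1 y1 (by linarith)

end

end Pool.Agent.Lib.MP_65ca9f_nt.Thue
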