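import Pool.Agent.Lib.MP_65ca9f_nt.PadeInt

/-!
# Large solutions of `0 < U x ^ d - V y ^ d ≤ Y`

At most three coprime pairs are large, uniformly in `U` and `V`.
-/

set_option autoImplicit false

namespace Pool.Agent.Lib.MP_65ca9f_nt.Thue

open Finset Pade

/-- the solutions -/
structure Sol (d U V : ℕ) (Y : ℝ) (p : ℕ × ℕ) : Prop where
  pos1 : 0 < p.1
  pos2 : 0 < p.2
  cop : Nat.Coprime p.1 p.2
  lt : V * p.2 ^ d < U * p.1 ^ d
  le : ((U * p.1 ^ d : ℕ) : ℝ) - (V * p.2 ^ d : ℕ) ≤ Y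

/-- the height of a solution -/
noncomputable def ht (d U : ℕ) (p : ℕ × ℕ) : ℝ := Real.log ((U * p.1 ^ d : ℕ) : ℝ)

section
variable {d U V : ℕ} {Y : ℝ} {p q : ℕ × ℕ}

private theorem facts (hd : 3 ≤ d) (hU : 0 < U) (hV : 0 < V) (hp : Sol d U V Y p) :
    (1 : ℝ) ≤ ((U * p.1 ^ d : ℕ) : ℝ) ∧
    (((V * p.2 ^ d : ℕ) : ℝ) / (U * p.1 ^ d : ℕ) < 1) ∧
    0 < ((V * p.2 ^ d : ℕ) : ℝ) / (U * p.1 ^ d : ℕ) ∧
    1 - ((V * p.2 ^ d : ℕ) : ℝ) / (U * p.1 ^ d : ℕ) ≤ Y / (U * p.1 ^ d : ℕ) ∧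
    (((V * p.2 ^ d : ℕ) : ℝ) / (U * p.1 ^ d : ℕ)) ^ (1 / (d : ℝ)) =
      ((V : ℝ) / U) ^ (1 / (d : ℝ)) * p.2 / p.1 ∧
    0 ≤ (p.1 : ℝ) - ((V : ℝ) / U) ^ (1 / (d : ℝ)) * p.2 ∧
    (p.1 : ℝ) - ((V : ℝ) / U) ^ (1 / (d : ℝ)) * p.2 ≤ p.1 * (Y / (U * p.1 ^ d : ℕ)) ∧
    (p.1 : ℝ) ≤ ((U * p.1 ^ d : ℕ) : ℝ) ^ (1 / (d : ℝ)) ∧
    (p.2 : ℝ) ≤ ((U * p.1 ^ d : ℕ) : ℝ) ^ (1 / (d : ℝ)) := by
  have hd0 : (0 : ℝ) < d := by exact_mod_cast (by omega : 0 < d)
  have hdne : d ≠ 0 := by omega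
  have hp1 : (0 : ℝ) < p.1 := by exact_mod_cast hp.pos1
  have hp2 : (0 : ℝ) < p.2 := by exact_mod_cast hp.pos2
  have hU' : (0 : ℝ) < U := by exact_mod_cast hU
  have hV' : (0 : ℝ) < V := by exact_mod_cast hV
  have hHn : 0 < U * p.1 ^ d := Nat.mul_pos hU (pow_pos hp.pos1 d)
  have hH : (0 : ℝ) < ((U * p.1 ^ d : ℕ) : ℝ) := by exact_mod_cast hHn
  have hK : (0 : ℝ) < ((V * p.2 ^ d : ℕ) : ℝ) := by
    exact_mod_cast Nat.mul_pos hV (pow_pos hp.pos2 d)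
  have hlt : ((V * p.2 ^ d : ℕ) : ℝ) < ((U * p.1 ^ d : ℕ) : ℝ) := by exact_mod_cast hp.lt
  set w : ℝ := ((V * p.2 ^ d : ℕ) : ℝ) / (U * p.1 ^ d : ℕ) with hw
  have hw0 : 0 < w := div_pos hK hH
  have hw1 : w < 1 := (div_lt_one hH).2 hlt
  have hw2 : 1 - w ≤ Y / (U * p.1 ^ d : ℕ) := by
    rw [hw, ← div_self hH.ne', ← sub_div]
    exact div_le_div_of_nonneg_right hp.le hH.le
  have hroot : ∀ z : ℝ, 0 ≤ z → (z ^ d) ^ (1 / (d : ℝ)) = z := by
    intro z hz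
    rw [← Real.rpow_natCast, ← Real.rpow_mul hz, mul_one_div_cancel hd0.ne', Real.rpow_one]
  have hwr : w ^ (1 / (d : ℝ)) = ((V : ℝ) / U) ^ (1 / (d : ℝ)) * p.2 / p.1 := by
    have e1 : w = (V : ℝ) / U * ((p.2 : ℝ) / p.1) ^ d := by
      rw [hw, div_pow]
      push_cast
      field_simp
    rw [e1, Real.mul_rpow (by positivity) (by positivity), hroot _ (by positivity)]
    ring
  have hx : (p.1 : ℝ) - ((V : ℝ) / U) ^ (1 / (d : ℝ)) * p.2 = p.1 * (1 - w ^ (1 / (d : ℝ))) := by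
    rw [hwr]
    field_simp
  have hwle : w ≤ w ^ (1 / (d : ℝ)) := by
    calc w = w ^ (1 : ℝ) := (Real.rpow_one w).symm
      _ ≤ w ^ (1 / (d : ℝ)) := by
          refine Real.rpow_le_rpow_of_exponent_ge hw0 hw1.le ?_
          rw [div_le_one hd0]
          exact_mod_cast (by omega : 1 ≤ d)
  have hwr1 : w ^ (1 / (d : ℝ)) ≤ 1 := Real.rpow_le_one hw0.le hw1.le (by positivity)
  refine ⟨by exact_mod_cast hHn, hw1, hw0, hw2, hwr, ?_, ?_, ?_, ?_⟩
  · rw [hx]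
    exact mul_nonneg hp1.le (by linarith)
  · rw [hx]
    refine mul_le_mul_of_nonneg_left ?_ hp1.le
    linarith
  · have e1 : (p.1 : ℝ) = ((p.1 : ℝ) ^ d) ^ (1 / (d : ℝ)) := (hroot _ hp1.le).symm
    conv_lhs => rw [e1]
    refine Real.rpow_le_rpow (by positivity) ?_ (by positivity)
    have : p.1 ^ d ≤ U * p.1 ^ d := Nat.le_mul_of_pos_left _ hU
    exact_mod_cast this
  · have e1 : (p.2 : ℝ) = ((p.2 : ℝ) ^ d) ^ (1 / (d : ℝ)) := (hroot _ hp2.le).symm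
    conv_lhs => rw [e1]
    refine Real.rpow_le_rpow (by positivity) ?_ (by positivity)
    have : p.2 ^ d ≤ U * p.1 ^ d := (Nat.le_mul_of_pos_left _ hV).trans hp.lt.le
    exact_mod_cast this

/-- the product of an entry of each of two solutions -/
private theorem prod_le (hd : 3 ≤ d) (hU : 0 < U) (hV : 0 < V) (hp : Sol d U V Y p)
    (hq : Sol d U V Y q) : (p.1 : ℝ) * q.2 ≤ Real.exp ((ht d U p + ht d U q) / d) ∧
      (q.1 : ℝ) * p.2 ≤ Real.exp ((ht d U p + ht d U q) / d) := by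
  obtain ⟨a1, -, -, -, -, -, -, a8, a9⟩ := facts hd hU hV hp
  obtain ⟨b1, -, -, -, -, -, -, b8, b9⟩ := facts hd hU hV hq
  have e1 : Real.exp ((ht d U p + ht d U q) / d) = ((U * p.1 ^ d : ℕ) : ℝ) ^ (1 / (d : ℝ)) *
      ((U * q.1 ^ d : ℕ) : ℝ) ^ (1 / (d : ℝ)) := by
    rw [Real.rpow_def_of_pos (by linarith), Real.rpow_def_of_pos (by linarith), ← Real.exp_add]
    congr 1
    unfold ht
    ring
  rw [e1]
  constructor
  · exact mul_le_mul a8 b9 (by positivity) (by positivity)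
  · rw [mul_comm (((U * p.1 ^ d : ℕ) : ℝ) ^ (1 / (d : ℝ)))]
    exact mul_le_mul b8 a9 (by positivity) (by positivity)

/-- the gap principle -/
theorem gap (hd : 3 ≤ d) (hU : 0 < U) (hV : 0 < V) (hY : 1 ≤ Y) (hp : Sol d U V Y p)
    (hq : Sol d U V Y q) (hne : p ≠ q) (hle : ht d U p ≤ ht d U q) :
    ht d U p ≤ Real.log Y + (ht d U p + ht d U q) / d := by
  obtain ⟨a1, -, -, -, -, a6, a7, -, -⟩ := facts hd hU hV hp
  obtain ⟨b1, -, -, -, -, b6, b7, -, -⟩ := facts hd hU hV hq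
  obtain ⟨c1, c2⟩ := prod_le hd hU hV hp hq
  have hp2 : (0 : ℝ) ≤ p.2 := Nat.cast_nonneg _
  have hq2 : (0 : ℝ) ≤ q.2 := Nat.cast_nonneg _
  have hY0 : 0 < Y := by linarith
  have hdet : (p.1 : ℤ) * q.2 - q.1 * p.2 ≠ 0 := by
    intro h0
    have h1 : p.1 * q.2 = q.1 * p.2 := by
      have : (p.1 : ℤ) * q.2 = q.1 * p.2 := by linarith
      exact_mod_cast this
    have h2 : p.1 ∣ q.1 := hp.cop.dvd_of_dvd_mul_right (Dvd.intro _ h1)
    have h3 : q.1 ∣ p.1 := hq.cop.dvd_of_dvd_mul_right (Dvd.intro _ h1.symm)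
    have h4 : p.1 = q.1 := Nat.dvd_antisymm h2 h3
    have h5 : p.2 = q.2 := by
      rw [h4] at h1
      exact (Nat.eq_of_mul_eq_mul_left hq.pos1 h1).symm
    exact hne (Prod.ext h4 h5)
  have h1 : (1 : ℝ) ≤ |(p.1 : ℝ) * q.2 - q.1 * p.2| := by
    have := Int.one_le_abs hdet
    have h2 : ((|(p.1 : ℤ) * q.2 - q.1 * p.2| : ℤ) : ℝ) = |(p.1 : ℝ) * q.2 - q.1 * p.2| := by
      push_cast
      rfl
    rw [← h2]
    exact_mod_cast this
  set α : ℝ := ((V : ℝ) / U) ^ (1 / (d : ℝ)) with hα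
  set E : ℝ := Real.exp ((ht d U p + ht d U q) / d) with hE
  have e1 : (p.1 : ℝ) * q.2 - q.1 * p.2 = (p.1 - α * p.2) * q.2 - (q.1 - α * q.2) * p.2 := by ring
  have hHp : ((U * p.1 ^ d : ℕ) : ℝ) = Real.exp (ht d U p) := by
    unfold ht
    rw [Real.exp_log (by linarith)]
  have hHq : ((U * q.1 ^ d : ℕ) : ℝ) = Real.exp (ht d U q) := by
    unfold ht
    rw [Real.exp_log (by linarith)]
  have t1 : (p.1 - α * p.2) * q.2 ≤ Y * E / Real.exp (ht d U p) := by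
    calc (p.1 - α * p.2) * q.2 ≤ (p.1 * (Y / (U * p.1 ^ d : ℕ))) * q.2 :=
          mul_le_mul_of_nonneg_right a7 hq2
      _ = (p.1 * q.2) * (Y / Real.exp (ht d U p)) := by rw [hHp]; ring
      _ ≤ E * (Y / Real.exp (ht d U p)) := mul_le_mul_of_nonneg_right c1 (by positivity)
      _ = _ := by ring
  have t2 : (q.1 - α * q.2) * p.2 ≤ Y * E / Real.exp (ht d U p) := by
    calc (q.1 - α * q.2) * p.2 ≤ (q.1 * (Y / (U * q.1 ^ d : ℕ))) * p.2 :=
          mul_le_mul_of_nonneg_right b7 hp2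
      _ = (q.1 * p.2) * (Y / Real.exp (ht d U q)) := by rw [hHq]; ring
      _ ≤ E * (Y / Real.exp (ht d U q)) := mul_le_mul_of_nonneg_right c2 (by positivity)
      _ ≤ E * (Y / Real.exp (ht d U p)) := by
          refine mul_le_mul_of_nonneg_left ?_ (by positivity)
          exact div_le_div_of_nonneg_left hY0.le (Real.exp_pos _) (Real.exp_le_exp.2 hle)
      _ = _ := by ring
  have h2 : (1 : ℝ) ≤ Y * E / Real.exp (ht d U p) := by
    refine h1.trans ?_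
    rw [e1, abs_le]
    have n1 : 0 ≤ (p.1 - α * p.2) * q.2 := mul_nonneg a6 hq2
    have n2 : 0 ≤ (q.1 - α * q.2) * p.2 := mul_nonneg b6 hp2
    constructor
    · linarith
    · linarith
  rw [le_div_iff₀ (Real.exp_pos _), one_mul] at h2
  have h3 : Real.exp (ht d U p) ≤ Real.exp (Real.log Y + (ht d U p + ht d U q) / d) := by
    rw [Real.exp_add, Real.exp_log hY0]
    exact h2
  exact Real.exp_le_exp.1 h3

/-- one step: a determinant vanishes -/
theorem step (hd : 3 ≤ d) (hU : 0 < U) (hV : 0 < V) (hY : 1 ≤ Y) (hp : Sol d U V Y p)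
    (hq : Sol d U V Y q) (h2Y : 2 * Y ≤ ((U * p.1 ^ d : ℕ) : ℝ)) (m : ℕ)
    (hT1 : (ht d U p + ht d U q) / d + m * ht d U p + (7 * d + 2) * (m + 1) +
      (2 * m + 1) * (Real.log Y - ht d U p) ≤ 0)
    (hT2 : (ht d U p + ht d U q) / d + m * ht d U p + (7 * d + 2) * (m + 1) + Real.log Y -
      ht d U q ≤ 0) :
    (q.2 : ℝ) * p.1 * P (1 / (d : ℝ)) m (((V * p.2 ^ d : ℕ) : ℝ) / (U * p.1 ^ d : ℕ)) =
      (q.1 : ℝ) * p.2 * Q (1 / (d : ℝ)) m (((V * p.2 ^ d : ℕ) : ℝ) / (U * p.1 ^ d : ℕ)) := by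
  obtain ⟨a1, a2, a3, a4, a5, a6, a7, -, -⟩ := facts hd hU hV hp
  obtain ⟨b1, -, -, -, -, b6, b7, -, -⟩ := facts hd hU hV hq
  obtain ⟨c1, c2⟩ := prod_le hd hU hV hp hq
  have hd0 : (0 : ℝ) < d := by exact_mod_cast (by omega : 0 < d)
  have hd1 : (1 : ℝ) ≤ d := by exact_mod_cast (by omega : 1 ≤ d)
  have hν0 : 0 < 1 / (d : ℝ) := by positivity
  have hν1 : 1 / (d : ℝ) < 1 := by
    rw [div_lt_one hd0]
    exact_mod_cast (by omega : 1 < d)
  have hp1 : (0 : ℝ) < p.1 := by exact_mod_cast hp.pos1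
  have hp2 : (0 : ℝ) < p.2 := by exact_mod_cast hp.pos2
  have hq1 : (0 : ℝ) < q.1 := by exact_mod_cast hq.pos1
  have hq2 : (0 : ℝ) < q.2 := by exact_mod_cast hq.pos2
  have hY0 : 0 < Y := by linarith
  have hm0 : (0 : ℝ) ≤ m := Nat.cast_nonneg m
  obtain ⟨P', Q', hP', hQ'⟩ := integral (d := d) (by omega) m (A := U * p.1 ^ d)
    (B := V * p.2 ^ d) (Nat.mul_pos hU (pow_pos hp.pos1 d))
  have hHp : ((U * p.1 ^ d : ℕ) : ℝ) = Real.exp (ht d U p) := by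
    unfold ht
    rw [Real.exp_log (by linarith)]
  have hHq : ((U * q.1 ^ d : ℕ) : ℝ) = Real.exp (ht d U q) := by
    unfold ht
    rw [Real.exp_log (by linarith)]
  set w : ℝ := ((V * p.2 ^ d : ℕ) : ℝ) / (U * p.1 ^ d : ℕ) with hw
  set α : ℝ := ((V : ℝ) / U) ^ (1 / (d : ℝ)) with hα
  set H : ℝ := ((U * p.1 ^ d : ℕ) : ℝ) with hH
  have hH0 : 0 < H := by linarith
  set Lr : ℝ := (Ln d m : ℝ) with hLr
  have hL0 : 0 < Lr := by
    rw [hLr]
    exact_mod_cast Ln_pos d m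
  have hLle := Ln_le d m
  rw [← hLr] at hLle
  -- the integer
  set D : ℤ := (q.2 : ℤ) * p.1 * P' - q.1 * p.2 * Q' with hD
  have hDr : (D : ℝ) = H ^ m * Lr * ((q.2 : ℝ) * p.1 * P (1 / (d : ℝ)) m w -
      q.1 * p.2 * Q (1 / (d : ℝ)) m w) := by
    rw [hD]
    push_cast
    rw [hP', hQ']
    ring
  have hid := main_identity hν0 hν1 m a3
  have e1 : (q.2 : ℝ) * p.1 * P (1 / (d : ℝ)) m w - q.1 * p.2 * Q (1 / (d : ℝ)) m w =
      q.2 * p.1 * R (1 / (d : ℝ)) m w - (q.1 - α * q.2) * p.2 * Q (1 / (d : ℝ)) m w := by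
    have e2 : P (1 / (d : ℝ)) m w = R (1 / (d : ℝ)) m w + α * p.2 / p.1 * Q (1 / (d : ℝ)) m w := by
      rw [← hid, a5]
      ring
    rw [e2]
    field_simp
    ring
  have hw12 : 1 / 2 ≤ w := by
    have : Y / H ≤ 1 / 2 := by
      rw [div_le_div_iff₀ hH0 (by norm_num)]
      linarith
    linarith
  have r1 := R_bound hν0 m hw12 a2.le
  have q1 := Q_bound (d := d) (by omega) m a3.le a2.le
  set E : ℝ := Real.exp ((ht d U p + ht d U q) / d) with hE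
  have hE0 : 0 < E := Real.exp_pos _
  have t1 : |(q.2 : ℝ) * p.1 * R (1 / (d : ℝ)) m w| ≤ E * (2 ^ (m + 1) * (Y / H) ^ (2 * m + 1)) := by
    rw [abs_mul, abs_of_pos (mul_pos hq2 hp1), mul_comm (q.2 : ℝ)]
    refine mul_le_mul c1 (r1.trans ?_) (abs_nonneg _) hE0.le
    refine mul_le_mul_of_nonneg_left ?_ (by positivity)
    exact pow_le_pow_left₀ (by linarith) a4 _
  have t2 : |((q.1 : ℝ) - α * q.2) * p.2 * Q (1 / (d : ℝ)) m w| ≤
      E * (Y / Real.exp (ht d U q) * (d * 4 ^ m)) := by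
    rw [abs_mul, abs_of_nonneg (mul_nonneg b6 hp2.le)]
    have t3 : ((q.1 : ℝ) - α * q.2) * p.2 ≤ E * (Y / Real.exp (ht d U q)) := by
      calc ((q.1 : ℝ) - α * q.2) * p.2 ≤ (q.1 * (Y / (U * q.1 ^ d : ℕ))) * p.2 :=
            mul_le_mul_of_nonneg_right b7 hp2.le
        _ = (q.1 * p.2) * (Y / Real.exp (ht d U q)) := by rw [hHq]; ring
        _ ≤ _ := mul_le_mul_of_nonneg_right c2 (by positivity)
    calc ((q.1 : ℝ) - α * q.2) * p.2 * |Q (1 / (d : ℝ)) m w| ≤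
          E * (Y / Real.exp (ht d U q)) * (d * 4 ^ m) :=
          mul_le_mul t3 q1 (abs_nonneg _) (by positivity)
      _ = _ := by ring
  have hlog2 : (2 : ℝ) ≤ Real.exp 1 := by
    have := Real.exp_one_gt_d9
    linarith
  have s1 : H ^ m * Lr * (E * (2 ^ (m + 1) * (Y / H) ^ (2 * m + 1))) ≤ Real.exp (-1) := by
    have u1 : H ^ m = Real.exp (m * ht d U p) := by
      rw [hHp, ← Real.exp_nat_mul]
    have u2 : (2 : ℝ) ^ (m + 1) ≤ Real.exp (m + 1) := by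
      calc (2 : ℝ) ^ (m + 1) ≤ (Real.exp 1) ^ (m + 1) := pow_le_pow_left₀ (by norm_num) hlog2 _
        _ = Real.exp (m + 1) := by
            rw [← Real.exp_nat_mul]
            congr 1
            push_cast
            ring
    have u3 : (Y / H) ^ (2 * m + 1) = Real.exp ((2 * m + 1) * (Real.log Y - ht d U p)) := by
      have : Y / H = Real.exp (Real.log Y - ht d U p) := by
        rw [Real.exp_sub, Real.exp_log hY0, hHp]
      rw [this, ← Real.exp_nat_mul]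
      congr 1
      push_cast
      ring
    calc H ^ m * Lr * (E * (2 ^ (m + 1) * (Y / H) ^ (2 * m + 1))) ≤
          Real.exp (m * ht d U p) * Real.exp (6 * (d * m + 1)) * (E * (Real.exp (m + 1) *
            Real.exp ((2 * m + 1) * (Real.log Y - ht d U p)))) := by
          rw [u1, u3]
          gcongr
      _ = Real.exp (m * ht d U p + 6 * (d * m + 1) + ((ht d U p + ht d U q) / d + ((m + 1) +
            (2 * m + 1) * (Real.log Y - ht d U p)))) := by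
          rw [hE, ← Real.exp_add, ← Real.exp_add, ← Real.exp_add, ← Real.exp_add]
      _ ≤ Real.exp (-1) := by
          refine Real.exp_le_exp.2 ?_
          nlinarith
  have s2 : H ^ m * Lr * (E * (Y / Real.exp (ht d U q) * (d * 4 ^ m))) ≤ Real.exp (-1) := by
    have u1 : H ^ m = Real.exp (m * ht d U p) := by
      rw [hHp, ← Real.exp_nat_mul]
    have u2 : (4 : ℝ) ^ m ≤ Real.exp (2 * m) := by
      calc (4 : ℝ) ^ m = ((2 : ℝ) ^ 2) ^ m := by norm_num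
        _ ≤ ((Real.exp 1) ^ 2) ^ m := by gcongr
        _ = Real.exp (2 * m) := by
            rw [← pow_mul, ← Real.exp_nat_mul]
            congr 1
            push_cast
            ring
    have u4 : (d : ℝ) ≤ Real.exp (d - 1) := by
      have := Real.add_one_le_exp ((d : ℝ) - 1)
      linarith
    have u3 : Y / Real.exp (ht d U q) = Real.exp (Real.log Y - ht d U q) := by
      rw [Real.exp_sub, Real.exp_log hY0]
    calc H ^ m * Lr * (E * (Y / Real.exp (ht d U q) * (d * 4 ^ m))) ≤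
          Real.exp (m * ht d U p) * Real.exp (6 * (d * m + 1)) * (E *
            (Real.exp (Real.log Y - ht d U q) * (Real.exp (d - 1) * Real.exp (2 * m)))) := by
          rw [u1, u3]
          gcongr
      _ = Real.exp (m * ht d U p + 6 * (d * m + 1) + ((ht d U p + ht d U q) / d +
            ((Real.log Y - ht d U q) + ((d - 1) + 2 * m)))) := by
          rw [hE, ← Real.exp_add, ← Real.exp_add, ← Real.exp_add, ← Real.exp_add, ← Real.exp_add]
      _ ≤ Real.exp (-1) := by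
          refine Real.exp_le_exp.2 ?_
          nlinarith [mul_nonneg hm0 hd0.le]
  have hsmall : |(D : ℝ)| < 1 := by
    rw [hDr, e1, abs_mul, abs_of_pos (mul_pos (pow_pos hH0 m) hL0)]
    have h3 : |(q.2 : ℝ) * p.1 * R (1 / (d : ℝ)) m w - (q.1 - α * q.2) * p.2 *
        Q (1 / (d : ℝ)) m w| ≤ E * (2 ^ (m + 1) * (Y / H) ^ (2 * m + 1)) +
          E * (Y / Real.exp (ht d U q) * (d * 4 ^ m)) :=
      (abs_sub _ _).trans (add_le_add t1 t2)
    have h4 : H ^ m * Lr * |(q.2 : ℝ) * p.1 * R (1 / (d : ℝ)) m w - (q.1 - α * q.2) * p.2 *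
        Q (1 / (d : ℝ)) m w| ≤ Real.exp (-1) + Real.exp (-1) := by
      refine (mul_le_mul_of_nonneg_left h3 (mul_pos (pow_pos hH0 m) hL0).le).trans ?_
      rw [mul_add]
      exact add_le_add s1 s2
    have h5 : Real.exp (-1) < 1 / 2 := by
      rw [Real.exp_neg, one_div]
      refine inv_strictAnti₀ (by norm_num) ?_
      have := Real.exp_one_gt_d9
      linarith
    linarith
  have hD0 : D = 0 := by
    have h6 : |D| < 1 := by exact_mod_cast hsmall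
    exact Int.abs_lt_one_iff.1 h6
  rw [hD0, Int.cast_zero] at hDr
  have h7 := (mul_eq_zero.1 hDr.symm).resolve_left (mul_pos (pow_pos hH0 m) hL0).ne'
  linarith

end

end Pool.Agent.Lib.MP_65ca9f_nt.Thue
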