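import Pool.Agent.Lib.MP_65ca9f_nt.Large

/-!
# Counting tuples of unbounded size
-/

set_option autoImplicit false

namespace Pool.Agent.Lib.MP_65ca9f_nt

open Finset

/-- assembling the fibres of a labelling -/
theorem assemble_f {k : ℕ} (S : Finset (Tp k)) (f : Tp k → Tp k) (M : ℕ) {B : ℝ} (hB : 0 ≤ B)
    (hM : ∀ z ∈ S, ∀ l, (f z).1 l ≤ M ∧ (f z).2.1 l ≤ M ∧ (f z).2.2 l ≤ M)
    (hS : ∀ z ∈ S, ∀ T : Finset (Tp k), T ⊆ S → (∀ y ∈ T, f y = f z) → (T.card : ℝ) ≤ B) :
    (S.card : ℝ) ≤ ((M : ℝ) + 1) ^ (3 * k) * B := by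
  classical
  have h1 : ∀ y ∈ S.image f, (S.filter fun x => f x = y).card ≤ ⌊B⌋₊ := by
    intro y hy
    obtain ⟨z, hz, rfl⟩ := mem_image.1 hy
    exact Nat.le_floor (hS z hz _ (filter_subset _ _) fun y hy => (mem_filter.1 hy).2)
  have h2 := card_le_mul_card_image (f := f) S ⌊B⌋₊ h1
  have h3 : S.image f ⊆ (Fintype.piFinset fun _ : Fin k => range (M + 1)) ×ˢ
      ((Fintype.piFinset fun _ : Fin k => range (M + 1)) ×ˢ
        (Fintype.piFinset fun _ : Fin k => range (M + 1))) := by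
    intro y hy
    obtain ⟨z, hz, rfl⟩ := mem_image.1 hy
    rw [mem_product, mem_product, Fintype.mem_piFinset, Fintype.mem_piFinset, Fintype.mem_piFinset]
    refine ⟨fun l => ?_, fun l => ?_, fun l => ?_⟩
    · exact mem_range.2 (Nat.lt_succ_of_le (hM z hz l).1)
    · exact mem_range.2 (Nat.lt_succ_of_le (hM z hz l).2.1)
    · exact mem_range.2 (Nat.lt_succ_of_le (hM z hz l).2.2)
  have h4 := card_le_card h3
  rw [card_product, card_product, Fintype.card_piFinset_const, card_range] at h4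
  have h5 : ((S.image f).card : ℝ) ≤ ((M : ℝ) + 1) ^ (3 * k) := by
    have h6 : ((S.image f).card : ℝ) ≤ (((M + 1) ^ k * ((M + 1) ^ k * (M + 1) ^ k) : ℕ) : ℝ) := by
      exact_mod_cast h4
    refine h6.trans (le_of_eq ?_)
    push_cast
    ring
  have h6 : (S.card : ℝ) ≤ (⌊B⌋₊ : ℝ) * ((S.image f).card : ℝ) := by exact_mod_cast h2
  calc (S.card : ℝ) ≤ (⌊B⌋₊ : ℝ) * ((S.image f).card : ℝ) := h6
    _ ≤ B * ((S.image f).card : ℝ) :=
        mul_le_mul_of_nonneg_right (Nat.floor_le hB) (Nat.cast_nonneg _)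
    _ ≤ B * ((M : ℝ) + 1) ^ (3 * k) := mul_le_mul_of_nonneg_left h5 hB
    _ = _ := by ring

private theorem mid {u σ c x τ : ℝ} (hu0 : 0 ≤ u) (hu1 : u ≤ 1) (hσ : σ ≤ u * c) :
    (τ * x ≤ x - c → σ + τ * x ≤ (u + (1 - u) * τ) * x) ∧
    (x - c ≤ τ * x → σ + (x - c) ≤ (u + (1 - u) * τ) * x) := by
  constructor
  · intro h
    have : u * c ≤ u * ((1 - τ) * x) := mul_le_mul_of_nonneg_left (by linarith) hu0
    nlinarith
  · intro h
    have : (1 - u) * ((1 - τ) * x) ≤ (1 - u) * c := mul_le_mul_of_nonneg_left (by linarith)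
      (by linarith)
    nlinarith

/-- the coordinates off `i` -/
theorem off_le {k : ℕ} (i : Fin k) {z : Tp k} (h1 : ∀ l, 0 < z.2.1 l) (h2 : ∀ l, 0 < z.2.2 l)
    {v : ℝ} (hv : ∏ l ∈ univ.erase i, ((z.2.1 l : ℝ) * z.2.2 l) ≤ (2 : ℝ) ^ v) :
    sg (lg z.2.1) + sg (lg z.2.2) - (lg z.2.1 i + lg z.2.2 i) ≤ v ∧
      ∀ l, l ≠ i → ((lg z.2.1 l : ℝ) ≤ v ∧ (lg z.2.2 l : ℝ) ≤ v) := by
  have h0 : (0 : ℝ) < 2 := by norm_num
  have e1 : (2 : ℝ) ^ (sg (lg z.2.1) + sg (lg z.2.2) - (lg z.2.1 i + lg z.2.2 i)) ≤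
      ∏ l ∈ univ.erase i, ((z.2.1 l : ℝ) * z.2.2 l) := by
    have e2 : sg (lg z.2.1) + sg (lg z.2.2) - (lg z.2.1 i + lg z.2.2 i) =
      (sg (lg z.2.1) - lg z.2.1 i) + (sg (lg z.2.2) - lg z.2.2 i) := by ring
    rw [e2, Real.rpow_add h0, ← prod_erase_tw, ← prod_erase_tw, ← prod_mul_distrib]
    refine prod_le_prod (fun l _ => by positivity) fun l _ => ?_
    refine mul_le_mul ?_ ?_ (by positivity) (by positivity)
    · exact_mod_cast (InB_lg h1 l).1
    · exact_mod_cast (InB_lg h2 l).1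
  have e3 := (Real.rpow_le_rpow_left_iff (by norm_num : (1 : ℝ) < 2)).1 (e1.trans hv)
  refine ⟨e3, fun l hl => ?_⟩
  have hs : ∀ δ : Fin k → ℕ, (δ l : ℝ) + δ i ≤ sg δ := by
    intro δ
    have h4 : ∑ j ∈ ({l, i} : Finset (Fin k)), (δ j : ℝ) ≤ sg δ :=
      sum_le_sum_of_subset_of_nonneg (subset_univ _) fun _ _ _ => Nat.cast_nonneg _
    rw [sum_pair hl] at h4
    exact h4
  have s1 := hs (lg z.2.1)
  have s2 := hs (lg z.2.2)
  have n1 : (0 : ℝ) ≤ lg z.2.1 l := Nat.cast_nonneg _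
  have n2 : (0 : ℝ) ≤ lg z.2.2 l := Nat.cast_nonneg _
  constructor <;> linarith

/-- the number of numbers represented by tuples which are small off one coordinate -/
theorem unb_count {k : ℕ} (hk : 3 ≤ k) (i : Fin k) {τ x : ℝ} (hτ0 : 0 ≤ τ) (hτ1 : τ ≤ 1)
    (hx : 0 ≤ x) (S : Finset (Tp k)) (hS : ∀ z ∈ S, Rep ((2 : ℝ) ^ x) z ∧
      ∏ l ∈ univ.erase i, ((z.2.1 l : ℝ) * z.2.2 l) ≤ (2 : ℝ) ^ (τ * x))
    (hinj : Set.InjOn Nv (S : Set (Tp k))) :
    (S.card : ℝ) ≤ (90 * x + (1950 * k + ss k + 1)) ^ (3 * k) *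
      (5 * (2 : ℝ) ^ (max (2 / (k : ℝ)) (1 / k + (1 - 1 / k) * τ) * x + (2 * k + ss k / k))) := by
  classical
  have h0 : (0 : ℝ) < 2 := by norm_num
  have hs := ss_nonneg k
  have hK : (3 : ℝ) ≤ k := by exact_mod_cast hk
  have hK0 : (0 : ℝ) < k := by linarith
  set E : ℝ := max (2 / (k : ℝ)) (1 / k + (1 - 1 / k) * τ) with hE
  set c0 : ℝ := 2 * k + ss k / k with hc0
  have hc0' : 0 ≤ c0 := by positivity
  set B : ℝ := (2 : ℝ) ^ (E * x + c0) with hB
  have hB0 : 0 < B := by positivity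
  have hu0 : (0 : ℝ) ≤ 1 / k := by positivity
  have hu1 : (1 : ℝ) / k ≤ 1 := by
    rw [div_le_one hK0]
    linarith
  have hE1 : (1 / (k : ℝ) + (1 - 1 / k) * τ) * x ≤ E * x :=
    mul_le_mul_of_nonneg_right (le_max_right _ _) hx
  have hE2 : 2 / (k : ℝ) * x ≤ E * x := mul_le_mul_of_nonneg_right (le_max_left _ _) hx
  have hpow : ∀ {y : ℝ}, y ≤ E * x + c0 → (2 : ℝ) ^ y ≤ B := fun h =>
    Real.rpow_le_rpow_of_exponent_le (by norm_num) h
  set M : ℕ := ⌊90 * x + (1950 * k + ss k)⌋₊ with hM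
  have hM0 : (0 : ℝ) ≤ 90 * x + (1950 * k + ss k) := by positivity
  have hMle : (M : ℝ) ≤ 90 * x + (1950 * k + ss k) := Nat.floor_le hM0
  have hleM : ∀ {n : ℕ}, (n : ℝ) ≤ 90 * x + (1950 * k + ss k) → n ≤ M := fun h => Nat.le_floor h
  -- large and small
  set Lg : Tp k → Prop := fun z => 90 * (7 * ((k + (i : ℕ) : ℕ) : ℝ) + 2) ≤ Real.log (W z.2.1) ∧
      90 * Real.log ((2 : ℝ) ^ x) ≤ Real.log (W z.2.1) with hLg
  have hgam : ∀ z ∈ S, (1 : ℝ) / k + 0 ≤ 1 / k + 0 ∧ sg (lg z.1) ≤ 1 / k * wg (lg z.1) ∧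
      wg (lg z.1) ≤ x := by
    intro z hz
    obtain ⟨-, c2, -⟩ := constr (hS z hz).1.ok
    refine ⟨le_rfl, ?_, c2⟩
    rw [div_mul_eq_mul_div, one_mul, le_div_iff₀ hK0, mul_comm]
    exact k_sg_le _
  have hlarge : ((S.filter Lg).card : ℝ) ≤ ((M : ℝ) + 1) ^ (3 * k) * (3 * B) := by
    refine assemble_f (S.filter Lg) (fun z => (lg z.1, Function.update (lg z.2.1) i 0,
      Function.update (lg z.2.2) i 0)) M (by positivity) ?_ ?_
    · intro z hz l
      obtain ⟨hzS, -⟩ := mem_filter.1 hz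
      obtain ⟨hR, hoff⟩ := hS z hzS
      obtain ⟨-, -, c2⟩ := hgam z hzS
      obtain ⟨-, o2⟩ := off_le i hR.2.1 hR.2.2.1 hoff
      have hτx : τ * x ≤ x := by nlinarith
      have hkk : (0 : ℝ) ≤ 1950 * k + ss k := by positivity
      refine ⟨hleM ?_, ?_, ?_⟩
      · have := le_wg (by omega) (lg z.1) l
        simp only
        linarith
      · by_cases hl : l = i
        · simp only [hl, Function.update_self]
          exact Nat.zero_le _
        · simp only
          rw [Function.update_of_ne hl]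
          exact hleM (by linarith [(o2 l hl).1])
      · by_cases hl : l = i
        · simp only [hl, Function.update_self]
          exact Nat.zero_le _
        · simp only
          rw [Function.update_of_ne hl]
          exact hleM (by linarith [(o2 l hl).2])
    · intro z hz T hT hTf
      obtain ⟨hzS, -⟩ := mem_filter.1 hz
      obtain ⟨hR, hoff⟩ := hS z hzS
      obtain ⟨-, c1, c2⟩ := hgam z hzS
      obtain ⟨o1, -⟩ := off_le i hR.2.1 hR.2.2.1 hoff
      have hTS : T ⊆ S := hT.trans (filter_subset _ _)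
      have hbox : ∀ y ∈ T, lg y.1 = lg z.1 ∧ (∀ l, l ≠ i → lg y.2.1 l = lg z.2.1 l) ∧
          (∀ l, l ≠ i → lg y.2.2 l = lg z.2.2 l) := by
        intro y hy
        have h1 := hTf y hy
        simp only [Prod.mk.injEq] at h1
        refine ⟨h1.1, fun l hl => ?_, fun l hl => ?_⟩
        · have := congrFun h1.2.1 l
          rwa [Function.update_of_ne hl, Function.update_of_ne hl] at this
        · have := congrFun h1.2.2 l
          rwa [Function.update_of_ne hl, Function.update_of_ne hl] at this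
      obtain ⟨m1, m2⟩ := mid (u := 1 / k) (σ := sg (lg z.1)) (c := wg (lg z.1)) (x := x) (τ := τ)
        hu0 hu1 c1
      rcases le_total (τ * x) (x - wg (lg z.1)) with h | h
      · have h1 := large_box hk i (γ := lg z.1) (α := lg z.2.1) (β := lg z.2.2) hx T
          (fun y hy => ⟨(hS y (hTS hy)).1, (mem_filter.1 (hT hy)).2⟩) hbox
        have h2 : (2 : ℝ) ^ (sg (lg z.1) + (sg (lg z.2.1) + sg (lg z.2.2) -
            (lg z.2.1 i + lg z.2.2 i))) ≤ B := hpow (by linarith [m1 h])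
        linarith
      · have h1 := n_triv (γ := lg z.1) (x := x) T (fun y hy => ⟨(hbox y hy).1, (hS y (hTS hy)).1⟩)
          (hinj.mono (by exact_mod_cast hTS))
        have h2 : (2 : ℝ) ^ (sg (lg z.1) + (x - wg (lg z.1))) ≤ B := hpow (by linarith [m2 h])
        linarith
  have hsmall : ((S.filter fun z => ¬ Lg z).card : ℝ) ≤ ((M : ℝ) + 1) ^ (3 * k) * (2 * B) := by
    refine assemble_f (S.filter fun z => ¬ Lg z) (fun z => (lg z.1, lg z.2.1, lg z.2.2)) M
      (by positivity) ?_ ?_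
    · intro z hz l
      obtain ⟨hzS, hnl⟩ := mem_filter.1 hz
      obtain ⟨hR, hoff⟩ := hS z hzS
      obtain ⟨b1, c2, -⟩ := constr hR.ok
      have hWpos : (0 : ℝ) < W z.2.1 := by exact_mod_cast W_pos hR.2.1
      have hd : ((k + (i : ℕ) : ℕ) : ℝ) ≤ 2 * k := by
        have : k + (i : ℕ) ≤ 2 * k := by have := i.2; omega
        exact_mod_cast this
      have hlog : Real.log (W z.2.1) ≤ 90 * (15 * k) + 90 * (x * Real.log 2) := by
        have hl2 : 0 ≤ Real.log 2 := Real.log_nonneg (by norm_num)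
        have hxl : 0 ≤ x * Real.log 2 := mul_nonneg hx hl2
        rw [hLg] at hnl
        simp only [not_and_or, not_le] at hnl
        rw [Real.log_rpow h0] at hnl
        rcases hnl with h | h
        · linarith
        · linarith
      have hwα : wg (lg z.2.1) ≤ 90 * x + 1950 * k := by
        have e1 := le_W (InB_lg hR.2.1)
        have e2 : wg (lg z.2.1) * Real.log 2 ≤ Real.log (W z.2.1) := by
          rw [← Real.log_rpow h0]
          exact Real.log_le_log (by positivity) e1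
        have e3 := Real.log_two_gt_d9
        have e4 : wg (lg z.2.1) * Real.log 2 ≤ (90 * x + 1950 * k) * Real.log 2 := by nlinarith
        exact le_of_mul_le_mul_right e4 (by linarith)
      have hkk : (0 : ℝ) ≤ 1950 * k + ss k := by positivity
      refine ⟨hleM ?_, hleM ?_, hleM ?_⟩
      · have := le_wg (by omega) (lg z.1) l
        simp only
        linarith
      · have := le_wg (by omega) (lg z.2.1) l
        simp only
        linarith
      · have := le_wg (by omega) (lg z.2.2) l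
        simp only
        linarith
    · intro z hz T hT hTf
      obtain ⟨hzS, -⟩ := mem_filter.1 hz
      obtain ⟨hR, hoff⟩ := hS z hzS
      obtain ⟨-, c1, c2⟩ := hgam z hzS
      obtain ⟨o1, -⟩ := off_le i hR.2.1 hR.2.2.1 hoff
      have hTS : T ⊆ S := hT.trans (filter_subset _ _)
      have hbox : ∀ y ∈ T, lg y.1 = lg z.1 ∧ lg y.2.1 = lg z.2.1 ∧ lg y.2.2 = lg z.2.2 := by
        intro y hy
        have h1 := hTf y hy
        simp only [Prod.mk.injEq] at h1
        exact h1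
      have hok : ∀ y ∈ T, Ok (lg z.1) (lg z.2.1) (lg z.2.2) ((2 : ℝ) ^ x) y := by
        intro y hy
        obtain ⟨t1, t2, t3⟩ := hbox y hy
        have := (hS y (hTS hy)).1.ok
        rw [t1, t2, t3] at this
        exact this
      obtain ⟨m1, m2⟩ := mid (u := 1 / k) (σ := sg (lg z.1)) (c := wg (lg z.1)) (x := x) (τ := τ)
        hu0 hu1 c1
      rcases le_total (τ * x) (x - wg (lg z.1)) with h | h
      · refine box_final (γ := lg z.1) (α := lg z.2.1) (β := lg z.2.2) (x := x) hk T hok ?_ ?_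
        · intro _
          exact ⟨i, by linarith [m1 h]⟩
        · linarith
      · have h1 := n_triv (γ := lg z.1) (x := x) T (fun y hy => ⟨(hbox y hy).1, (hS y (hTS hy)).1⟩)
          (hinj.mono (by exact_mod_cast hTS))
        have h2 : (2 : ℝ) ^ (sg (lg z.1) + (x - wg (lg z.1))) ≤ B := hpow (by linarith [m2 h])
        linarith
  have hsum : (S.card : ℝ) = ((S.filter Lg).card : ℝ) + ((S.filter fun z => ¬ Lg z).card : ℝ) := by
    have := card_filter_add_card_filter_not (s := S) Lg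
    exact_mod_cast this.symm
  have hMp : ((M : ℝ) + 1) ^ (3 * k) ≤ (90 * x + (1950 * k + ss k + 1)) ^ (3 * k) :=
    pow_le_pow_left₀ (by positivity) (by linarith) _
  calc (S.card : ℝ) ≤ ((M : ℝ) + 1) ^ (3 * k) * (3 * B) + ((M : ℝ) + 1) ^ (3 * k) * (2 * B) := by
        rw [hsum]
        exact add_le_add hlarge hsmall
    _ = ((M : ℝ) + 1) ^ (3 * k) * (5 * B) := by ring
    _ ≤ _ := mul_le_mul_of_nonneg_right hMp (by positivity)

end Pool.Agent.Lib.MP_65ca9f_nt
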