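import Pool.Agent.Lib.MP_65ca9f_nt.Asm

/-!
# The weights of the linear program
-/

set_option autoImplicit false

namespace Pool.Agent.Lib.MP_65ca9f_nt

open Finset

/-- the weights of the linear program -/
theorem exists_weights {k : ℕ} (hk : 1 ≤ k) (c : ℝ) {t : ℝ} (ht : 0 ≤ t)
    (h : ∀ m : ℕ, 1 ≤ m → m ≤ k → (m : ℝ) - 1 ≤ t * (m * (2 * c + m - 1) / 2)) :
    ∃ y : Fin k → ℝ, (∀ l, 0 ≤ y l) ∧ ∑ l, y l = 1 ∧
      ∀ l : Fin k, 1 - y l ≤ t * (c + (l : ℕ)) := by
  classical
  have hsum : ∀ m : ℕ, ∑ l ∈ range m, (1 - t * (c + l)) =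
      m - t * (m * (2 * c + m - 1) / 2) := by
    intro m
    induction m with
    | zero => simp
    | succ m ih =>
      rw [sum_range_succ, ih]
      push_cast
      ring
  have hmax : ∀ m : ℕ, m ≤ k → ∑ l ∈ range m, max 0 (1 - t * (c + l)) ≤ 1 := by
    intro m
    induction m with
    | zero =>
      intro _
      simp
    | succ m ih =>
      intro hm
      rcases le_or_gt 0 (1 - t * (c + m)) with h1 | h1
      · have h2 : ∑ l ∈ range (m + 1), max 0 (1 - t * (c + l)) =
            ∑ l ∈ range (m + 1), (1 - t * (c + l)) := by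
          refine sum_congr rfl fun l hl => max_eq_right ?_
          have h3 : (l : ℝ) ≤ m := by
            have := mem_range.1 hl
            exact_mod_cast (by omega : l ≤ m)
          nlinarith [mul_le_mul_of_nonneg_left h3 ht]
        rw [h2, hsum]
        have := h (m + 1) (by omega) hm
        linarith
      · rw [sum_range_succ, max_eq_left h1.le, add_zero]
        exact ih (by omega)
  have hfin : ∑ l : Fin k, max 0 (1 - t * (c + (l : ℕ))) ≤ 1 := by
    rw [Fin.sum_univ_eq_sum_range (fun l => max 0 (1 - t * (c + (l : ℕ)))) k]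
    exact hmax k le_rfl
  set S : ℝ := ∑ l : Fin k, max 0 (1 - t * (c + (l : ℕ))) with hS
  refine ⟨fun l => max 0 (1 - t * (c + (l : ℕ))) +
    (if l = (⟨0, hk⟩ : Fin k) then 1 - S else 0), fun l => ?_, ?_, fun l => ?_⟩
  · refine add_nonneg (le_max_left _ _) ?_
    split_ifs
    · linarith
    · exact le_rfl
  · rw [sum_add_distrib, ← hS, sum_ite_eq' univ (⟨0, hk⟩ : Fin k) (fun _ => 1 - S)]
    simp
  · have h1 := le_max_right 0 (1 - t * (c + (l : ℕ)))
    have h2 : (0 : ℝ) ≤ (if l = (⟨0, hk⟩ : Fin k) then 1 - S else 0) := by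
      split_ifs
      · linarith
      · exact le_rfl
    simp only
    linarith

/-- a weighted average of the first terms -/
theorem first_avg {k : ℕ} (hk : 3 ≤ k) {c t : ℝ} (ht : 0 ≤ t)
    (h : ∀ m : ℕ, 1 ≤ m → m ≤ k → (m : ℝ) - 1 ≤ t * (m * (2 * c + m - 1) / 2))
    (γ α β : Fin k → ℕ) :
    ∃ i : Fin k, sg γ + (sg α + sg β - (α i + β i)) ≤
      sg γ + t * (wg α + wg β - (k - c) * (sg α + sg β)) := by
  obtain ⟨y, y0, y1, y2⟩ := exists_weights (by omega) c ht h
  have hne : (univ : Finset (Fin k)).Nonempty := ⟨⟨0, by omega⟩, mem_univ _⟩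
  obtain ⟨i, -, hi⟩ := exists_min_image univ
    (fun i : Fin k => sg γ + (sg α + sg β - (α i + β i))) hne
  refine ⟨i, ?_⟩
  set F : ℝ := sg γ + (sg α + sg β - (α i + β i)) with hF
  have e1 : F ≤ ∑ l : Fin k, y l * (sg γ + (sg α + sg β - (α l + β l))) := by
    calc F = ∑ l : Fin k, y l * F := by rw [← sum_mul, y1, one_mul]
      _ ≤ _ := sum_le_sum fun l _ => mul_le_mul_of_nonneg_left (hi l (mem_univ l)) (y0 l)
  have e2 : ∑ l : Fin k, y l * (sg γ + (sg α + sg β - (α l + β l))) =
      sg γ + ∑ l : Fin k, (1 - y l) * ((α l : ℝ) + β l) := by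
    have f1 : ∑ l : Fin k, y l * (sg γ + (sg α + sg β - (α l + β l))) =
        (∑ l, y l) * (sg γ + (sg α + sg β)) - ∑ l : Fin k, y l * ((α l : ℝ) + β l) := by
      rw [sum_mul, ← sum_sub_distrib]
      exact sum_congr rfl fun l _ => by ring
    have f2 : ∑ l : Fin k, (1 - y l) * ((α l : ℝ) + β l) =
        (sg α + sg β) - ∑ l : Fin k, y l * ((α l : ℝ) + β l) := by
      unfold sg
      rw [← sum_add_distrib, ← sum_sub_distrib]
      exact sum_congr rfl fun l _ => by ring
    rw [f1, f2, y1]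
    ring
  have e3 : ∑ l : Fin k, (1 - y l) * ((α l : ℝ) + β l) ≤
      t * (wg α + wg β - (k - c) * (sg α + sg β)) := by
    have f1 : t * (wg α + wg β - (k - c) * (sg α + sg β)) =
        ∑ l : Fin k, t * (c + (l : ℕ)) * ((α l : ℝ) + β l) := by
      unfold wg sg
      rw [← sum_add_distrib, ← sum_add_distrib, mul_sum, ← sum_sub_distrib, mul_sum]
      exact sum_congr rfl fun l _ => by ring
    rw [f1]
    exact sum_le_sum fun l _ => mul_le_mul_of_nonneg_right (y2 l) (by positivity)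
  linarith

end Pool.Agent.Lib.MP_65ca9f_nt
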